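import Pool.Agent.P.MP_d483fb_an.U.Arith

set_option autoImplicit false
set_option linter.unusedSectionVars false

namespace Pool.Agent.P.MP_d483fb_an.U

variable {D V : Type} [DivisionRing D] [StarRing D] [CharZero D] [AddCommGroup V] [Module D V]
  {h : Form D V} {Λ : AddSubgroup V}

/-- The pointwise stabiliser of `P` meets finitely many cosets of `E`. -/
def OrbCov (h : Form D V) (Λ : AddSubgroup V) (E : Subgroup (V ≃ₗ[D] V))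
    (P : Set V) : Prop :=
  ∃ S : Set (V ≃ₗ[D] V), S.Finite ∧ (∀ s ∈ S, s ∈ UL h Λ) ∧
    ∀ g ∈ UL h Λ, (∀ y ∈ P, g y = y) → ∃ s ∈ S, s⁻¹ * g ∈ E

theorem orb_step {E : Subgroup (V ≃ₗ[D] V)} (hE : Nrm (UL h Λ) E) {P : Set V} (x : V)
    {T : Set V} (hT : T.Finite)
    (hs : ∀ g ∈ UL h Λ, (∀ y ∈ P, g y = y) →
      ∃ s ∈ E, s ∈ UL h Λ ∧ (∀ y ∈ P, s y = y) ∧ s (g x) ∈ T)
    (hc : OrbCov h Λ E (insert x P)) : OrbCov h Λ E P := by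
  classical
  obtain ⟨S, hS, hSO, hS'⟩ := hc
  have hch : ∀ t : V, ∃ r : V ≃ₗ[D] V, r ∈ UL h Λ ∧ (∀ y ∈ P, r y = y) ∧
      ((∃ g ∈ UL h Λ, (∀ y ∈ P, g y = y) ∧ g x = t) → r x = t) := by
    intro t
    by_cases ht : ∃ g ∈ UL h Λ, (∀ y ∈ P, g y = y) ∧ g x = t
    · obtain ⟨g, hg, hg', hg''⟩ := ht
      exact ⟨g, hg, hg', fun _ => hg''⟩
    · exact ⟨1, (UL h Λ).one_mem, fun _ _ => rfl, fun h => absurd h ht⟩
  choose r hrO hrP hrx using hch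
  refine ⟨Set.image2 (fun t s => r t * s) T S, hT.image2 _ hS, ?_, ?_⟩
  · rintro _ ⟨t, _, s, hs, rfl⟩
    exact (UL h Λ).mul_mem (hrO t) (hSO s hs)
  · intro g hg hgP
    obtain ⟨ε, hεE, hεO, hεP, hεT⟩ := hs g hg hgP
    have hεg : ∀ y ∈ P, (ε * g) y = y := fun y hy => by rw [mul_apply', hgP y hy, hεP y hy]
    have ht : r (ε (g x)) x = ε (g x) :=
      hrx _ ⟨ε * g, (UL h Λ).mul_mem hεO hg, hεg, rfl⟩
    set t := ε (g x) with htdef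
    obtain ⟨s, hs, hsE⟩ := hS' ((r t)⁻¹ * (ε * g))
      ((UL h Λ).mul_mem ((UL h Λ).inv_mem (hrO t)) ((UL h Λ).mul_mem hεO hg)) (by
        intro y hy
        rcases hy with rfl | hy
        · have h0 := inv_apply_apply' (r t) y
          rw [ht] at h0
          rw [mul_apply', mul_apply', ← htdef, h0]
        · rw [mul_apply', hεg y hy]
          conv_lhs => rw [← hrP t y hy]
          exact inv_apply_apply' _ _)
    refine ⟨r t * s, ⟨t, hεT, s, hs, rfl⟩, ?_⟩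
    have h1 := hE (r t * s)⁻¹ ((UL h Λ).inv_mem ((UL h Λ).mul_mem (hrO t) (hSO s hs))) ε⁻¹
      (E.inv_mem hεE)
    have h2 := E.mul_mem h1 hsE
    have e : (r t * s)⁻¹ * ε⁻¹ * (r t * s)⁻¹⁻¹ * (s⁻¹ * ((r t)⁻¹ * (ε * g))) =
        (r t * s)⁻¹ * g := by group
    rwa [e] at h2

theorem orb_fin {E : Subgroup (V ≃ₗ[D] V)} (hc : OrbCov h Λ E ∅) : E.relIndex (UL h Λ) ≠ 0 := by
  obtain ⟨S, hS, hSO, hS'⟩ := hc
  have : Finite S := hS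
  have hfin : Finite ((UL h Λ) ⧸ E.subgroupOf (UL h Λ)) := by
    refine Finite.of_surjective
      (fun s : S => (QuotientGroup.mk (⟨s.1, hSO s.1 s.2⟩ : UL h Λ) :
        (UL h Λ) ⧸ E.subgroupOf (UL h Λ))) ?_
    intro q
    obtain ⟨g, rfl⟩ := QuotientGroup.mk_surjective q
    obtain ⟨s, hs, hsE⟩ := hS' g.1 g.2 (by simp)
    refine ⟨⟨s, hs⟩, ?_⟩
    rw [QuotientGroup.eq, Subgroup.mem_subgroupOf]
    exact hsE
  exact Subgroup.index_ne_zero_of_finite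

theorem orb_mod (hΛ : Λ.FG) {M : ℕ} (hM : 0 < M) {A : Set V} (hA : ∀ v ∈ A, v ∈ Λ) :
    ∃ T : Set V, T.Finite ∧ (∀ t ∈ T, t ∈ A) ∧
      ∀ v ∈ A, ∃ t ∈ T, ∃ y ∈ Λ, t = v + (M : D) • y := by
  classical
  obtain ⟨T₀, hT₀, h⟩ := finite_mod (D := D) hΛ hM
  have hch : ∀ t : V, ∃ w : V, (∃ v ∈ A, ∃ y ∈ Λ, v = t + (M : D) • y) →
      w ∈ A ∧ ∃ y ∈ Λ, w = t + (M : D) • y := by
    intro t
    by_cases ht : ∃ v ∈ A, ∃ y ∈ Λ, v = t + (M : D) • y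
    · obtain ⟨v, hv, hv'⟩ := ht
      exact ⟨v, fun _ => ⟨hv, hv'⟩⟩
    · exact ⟨0, fun h => absurd h ht⟩
  choose w hw using hch
  refine ⟨w '' T₀ ∩ A, (hT₀.image w).inter_of_left _, fun t ht => ht.2, fun v hv => ?_⟩
  obtain ⟨t, ht, y, hy, e⟩ := h v (hA v hv)
  obtain ⟨h1, y', hy', e'⟩ := hw t ⟨v, hv, y, hy, e⟩
  refine ⟨w t, ⟨⟨t, ht, rfl⟩, h1⟩, y' - y, Λ.sub_mem hy' hy, ?_⟩
  rw [e', e, smul_sub]
  abel

end Pool.Agent.P.MP_d483fb_an.U
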