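import Pool.Agent.P.MP_d483fb_an.U.Arith

set_option autoImplicit false

namespace Pool.Agent.P.MP_d483fb_an.U

open scoped Quaternion

/-- Vanishing of the coordinates that are not allowed. -/
def hurV {R : Type} [CommRing R] (a b : Prop) (x : ℍ[R]) : Prop :=
  (¬a → x.imI = 0) ∧ (¬b → x.imJ = 0) ∧ (¬a ∨ ¬b → x.imK = 0)

theorem hurV_mul {R : Type} [CommRing R] {a b : Prop} {x y : ℍ[R]} (hx : hurV a b x)
    (hy : hurV a b y) : hurV a b (x * y) := by
  obtain ⟨h1, h2, h3⟩ := hx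
  obtain ⟨k1, k2, k3⟩ := hy
  refine ⟨fun h => ?_, fun h => ?_, fun h => ?_⟩
  · simp [h1 h, k1 h, h3 (.inl h), k3 (.inl h)]
  · simp [h2 h, k2 h, h3 (.inr h), k3 (.inr h)]
  · rcases h with h | h
    · simp [h1 h, k1 h, h3 (.inl h), k3 (.inl h)]
    · simp [h2 h, k2 h, h3 (.inr h), k3 (.inr h)]

theorem hurV_add {R : Type} [CommRing R] {a b : Prop} {x y : ℍ[R]} (hx : hurV a b x)
    (hy : hurV a b y) : hurV a b (x + y) :=
  ⟨fun h => by simp [hx.1 h, hy.1 h], fun h => by simp [hx.2.1 h, hy.2.1 h],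
    fun h => by simp [hx.2.2 h, hy.2.2 h]⟩

theorem hurV_neg {R : Type} [CommRing R] {a b : Prop} {x : ℍ[R]} (hx : hurV a b x) :
    hurV a b (-x) :=
  ⟨fun h => by simp [hx.1 h], fun h => by simp [hx.2.1 h], fun h => by simp [hx.2.2 h]⟩

theorem hurV_star {R : Type} [CommRing R] {a b : Prop} {x : ℍ[R]} (hx : hurV a b x) :
    hurV a b (star x) :=
  ⟨fun h => by simp [hx.1 h], fun h => by simp [hx.2.1 h], fun h => by simp [hx.2.2 h]⟩

theorem hurV_smul {R : Type} [CommRing R] {a b : Prop} {x : ℍ[R]} (c : R) (hx : hurV a b x) :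
    hurV a b (c • x) :=
  ⟨fun h => by simp [hx.1 h], fun h => by simp [hx.2.1 h], fun h => by simp [hx.2.2 h]⟩

theorem hurV_coe {R : Type} [CommRing R] {a b : Prop} (c : R) : hurV a b (c : ℍ[R]) :=
  ⟨fun _ => rfl, fun _ => rfl, fun _ => rfl⟩

/-- The division ring. -/
def hurD (a b : Prop) : Subfield ℍ[ℚ] where
  carrier := {x | hurV a b x}
  mul_mem' := hurV_mul
  one_mem' := hurV_coe 1
  add_mem' := hurV_add
  zero_mem' := hurV_coe 0
  neg_mem' := hurV_neg
  inv_mem' _ hx := hurV_smul _ (hurV_star hx)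

/-- Conjugation on the division ring. -/
@[reducible] def hurStar (a b : Prop) : StarRing (hurD a b) where
  star x := ⟨star x.1, hurV_star x.2⟩
  star_involutive x := Subtype.ext (star_star x.1)
  star_mul x y := Subtype.ext (star_mul x.1 y.1)
  star_add x y := Subtype.ext (star_add x.1 y.1)

/-- The integral quaternions with the allowed coordinates. -/
def hurA (a b : Prop) : StarSubalgebra ℤ ℍ[ℤ] where
  carrier := {x | hurV a b x}
  mul_mem' := hurV_mul
  add_mem' := hurV_add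
  algebraMap_mem' c := hurV_coe c
  star_mem' := hurV_star

/-- Coordinatewise cast. -/
def hurI : ℍ[ℤ] →+* ℍ[ℚ] where
  toFun x := ⟨x.re, x.imI, x.imJ, x.imK⟩
  map_one' := by ext <;> simp
  map_mul' x y := by ext <;> simp
  map_zero' := by ext <;> simp
  map_add' x y := by ext <;> simp

theorem hurI_re (x : ℍ[ℤ]) : (hurI x).re = x.re := rfl
theorem hurI_imI (x : ℍ[ℤ]) : (hurI x).imI = x.imI := rfl
theorem hurI_imJ (x : ℍ[ℤ]) : (hurI x).imJ = x.imJ := rfl
theorem hurI_imK (x : ℍ[ℤ]) : (hurI x).imK = x.imK := rfl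

theorem hurI_inj : Function.Injective hurI := by
  intro x y h
  ext
  · exact_mod_cast (hurI_re x).symm.trans ((congrArg (·.re) h).trans (hurI_re y))
  · exact_mod_cast (hurI_imI x).symm.trans ((congrArg (·.imI) h).trans (hurI_imI y))
  · exact_mod_cast (hurI_imJ x).symm.trans ((congrArg (·.imJ) h).trans (hurI_imJ y))
  · exact_mod_cast (hurI_imK x).symm.trans ((congrArg (·.imK) h).trans (hurI_imK y))

theorem hurI_star (x : ℍ[ℤ]) : hurI (star x) = star (hurI x) := by
  ext <;> simp [hurI_re, hurI_imI, hurI_imJ, hurI_imK]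

theorem hurV_hurI {a b : Prop} {x : ℍ[ℤ]} : hurV a b (hurI x) ↔ hurV a b x := by
  simp [hurV, hurI_imI, hurI_imJ, hurI_imK]

theorem hur_den (x : ℍ[ℚ]) : ∃ k : ℕ, 0 < k ∧ ∃ r, hurI r = (k : ℍ[ℚ]) * x := by
  refine ⟨x.re.den * x.imI.den * x.imJ.den * x.imK.den, by positivity,
    ⟨x.re.num * x.imI.den * x.imJ.den * x.imK.den, x.re.den * x.imI.num * x.imJ.den * x.imK.den,
      x.re.den * x.imI.den * x.imJ.num * x.imK.den,
      x.re.den * x.imI.den * x.imJ.den * x.imK.num⟩, ?_⟩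
  rw [← Quaternion.coe_natCast, Quaternion.coe_mul_eq_smul]
  ext
  · simp only [hurI_re, Quaternion.re_smul, smul_eq_mul]
    push_cast
    rw [← Rat.mul_den_eq_num]
    ring
  · simp only [hurI_imI, Quaternion.imI_smul, smul_eq_mul]
    push_cast
    rw [← Rat.mul_den_eq_num]
    ring
  · simp only [hurI_imJ, Quaternion.imJ_smul, smul_eq_mul]
    push_cast
    rw [← Rat.mul_den_eq_num]
    ring
  · simp only [hurI_imK, Quaternion.imK_smul, smul_eq_mul]
    push_cast
    rw [← Rat.mul_den_eq_num]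
    ring

/-- The Hurwitz order. -/
def hurO : Subring ℍ[ℚ] where
  carrier := {x | ∃ p q r s : ℤ, x.re = p + s / 2 ∧ x.imI = q + s / 2 ∧ x.imJ = r + s / 2 ∧
    x.imK = s / 2}
  mul_mem' := by
    rintro x y ⟨p, q, r, s, h1, h2, h3, h4⟩ ⟨p', q', r', s', k1, k2, k3, k4⟩
    refine ⟨p * p' - q * q' - r * r' - q * r' + r * q' - q * s' - s * r' - s * s',
      p * q' + q * p' - q * r' + r * q' + s * q' + r * s' - s * r',
      p * r' + r * p' - q * r' + r * q' - q * s' + r * s' + s * q',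
      p * s' + q * s' - r * s' + s * p' - s * q' + s * r' + 2 * q * r' - 2 * r * q' + s * s',
      ?_, ?_, ?_, ?_⟩
    · rw [Quaternion.re_mul, h1, h2, h3, h4, k1, k2, k3, k4]
      push_cast
      ring
    · rw [Quaternion.imI_mul, h1, h2, h3, h4, k1, k2, k3, k4]
      push_cast
      ring
    · rw [Quaternion.imJ_mul, h1, h2, h3, h4, k1, k2, k3, k4]
      push_cast
      ring
    · rw [Quaternion.imK_mul, h1, h2, h3, h4, k1, k2, k3, k4]
      push_cast
      ring
  one_mem' := ⟨1, 0, 0, 0, by simp, by simp, by simp, by simp⟩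
  add_mem' := by
    rintro x y ⟨p, q, r, s, h1, h2, h3, h4⟩ ⟨p', q', r', s', k1, k2, k3, k4⟩
    refine ⟨p + p', q + q', r + r', s + s', ?_, ?_, ?_, ?_⟩
    · rw [Quaternion.re_add, h1, k1]
      push_cast
      ring
    · rw [Quaternion.imI_add, h2, k2]
      push_cast
      ring
    · rw [Quaternion.imJ_add, h3, k3]
      push_cast
      ring
    · rw [Quaternion.imK_add, h4, k4]
      push_cast
      ring
  zero_mem' := ⟨0, 0, 0, 0, by simp, by simp, by simp, by simp⟩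
  neg_mem' := by
    rintro x ⟨p, q, r, s, h1, h2, h3, h4⟩
    refine ⟨-p, -q, -r, -s, ?_, ?_, ?_, ?_⟩
    · rw [Quaternion.re_neg, h1]
      push_cast
      ring
    · rw [Quaternion.imI_neg, h2]
      push_cast
      ring
    · rw [Quaternion.imJ_neg, h3]
      push_cast
      ring
    · rw [Quaternion.imK_neg, h4]
      push_cast
      ring

theorem hurO_star {x : ℍ[ℚ]} (hx : x ∈ hurO) : star x ∈ hurO := by
  obtain ⟨p, q, r, s, h1, h2, h3, h4⟩ := hx
  refine ⟨p + s, -q, -r, -s, ?_, ?_, ?_, ?_⟩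
  · rw [Quaternion.re_star, h1]
    push_cast
    ring
  · rw [Quaternion.imI_star, h2]
    push_cast
    ring
  · rw [Quaternion.imJ_star, h3]
    push_cast
    ring
  · rw [Quaternion.imK_star, h4]
    push_cast
    ring

theorem hurO_hurI (x : ℍ[ℤ]) : hurI x ∈ hurO := by
  refine ⟨x.re - x.imK, x.imI - x.imK, x.imJ - x.imK, 2 * x.imK, ?_, ?_, ?_, ?_⟩
  · rw [hurI_re]
    push_cast
    ring
  · rw [hurI_imI]
    push_cast
    ring
  · rw [hurI_imJ]
    push_cast
    ring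
  · rw [hurI_imK]
    push_cast
    ring

theorem hurO_int {x : ℍ[ℚ]} (hx : x ∈ hurO) : ∃ k : ℕ, Quaternion.normSq x = k := by
  obtain ⟨p, q, r, s, h1, h2, h3, h4⟩ := hx
  have e : Quaternion.normSq x = ((p ^ 2 + q ^ 2 + r ^ 2 + s * (p + q + r) + s ^ 2 : ℤ) : ℚ) := by
    rw [Quaternion.normSq_def']
    change x.re ^ 2 + x.imI ^ 2 + x.imJ ^ 2 + x.imK ^ 2 = _
    rw [h1, h2, h3, h4]
    push_cast
    ring
  have h0 : (0 : ℚ) ≤ Quaternion.normSq x := Quaternion.normSq_nonneg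
  rw [e] at h0
  obtain ⟨k, hk⟩ := Int.eq_ofNat_of_zero_le (Int.cast_nonneg_iff.1 h0)
  exact ⟨k, by rw [e, hk, Int.cast_natCast]⟩

/-- The parametrisation of the Hurwitz order. -/
def hurF : ℍ[ℤ] →+ ℍ[ℚ] where
  toFun x := ⟨x.re + x.imK / 2, x.imI + x.imK / 2, x.imJ + x.imK / 2, x.imK / 2⟩
  map_zero' := by ext <;> simp
  map_add' x y := by ext <;> simp <;> ring

theorem hurO_fg : hurO.toAddSubgroup.FG := by
  have h1 : (LinearMap.range hurF.toIntLinearMap).FG := Submodule.fg_range _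
  rw [Submodule.fg_iff_addSubgroup_fg] at h1
  refine fg_of_le h1 ?_
  rintro x ⟨p, q, r, s, h1, h2, h3, h4⟩
  exact ⟨⟨p, q, r, s⟩, Quaternion.ext _ _ h1.symm h2.symm h3.symm h4.symm⟩

theorem hur_fg (a b : Prop) : (hurO.comap (hurD a b).subtype).toAddSubgroup.FG := by
  have h1 : ((hurO.comap (hurD a b).subtype).toAddSubgroup.map
      (hurD a b).subtype.toAddMonoidHom).FG := by
    refine fg_of_le hurO_fg ?_
    rintro _ ⟨x, hx, rfl⟩
    exact hx
  have h2 : (AddSubgroup.toIntSubmodule (hurO.comap (hurD a b).subtype).toAddSubgroup).FG := by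
    refine Submodule.fg_of_fg_map_injective (hurD a b).subtype.toAddMonoidHom.toIntLinearMap
      Subtype.val_injective ?_
    rw [Submodule.fg_iff_addSubgroup_fg]
    exact h1
  rw [Submodule.fg_iff_addSubgroup_fg] at h2
  exact h2

theorem hur_round_le (t : ℚ) : (t - round t) ^ 2 ≤ 1 / 4 := by
  have h := abs_le.1 (abs_sub_round t)
  nlinarith [h.1, h.2]

theorem hur_round_lt (t : ℚ) : (t - round t) ^ 2 < 1 / 4 ∨ ∃ m : ℤ, t = m + 1 / 2 := by
  have h := abs_le.1 (abs_sub_round t)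
  rcases h.1.lt_or_eq with h1 | h1
  · rcases h.2.lt_or_eq with h2 | h2
    · left
      nlinarith
    · exact .inr ⟨round t, by linarith⟩
  · exact .inr ⟨round t - 1, by push_cast; linarith⟩

/-- Rounding of the four coordinates. -/
def hurR (x : ℍ[ℚ]) : ℍ[ℚ] := hurI ⟨round x.re, round x.imI, round x.imJ, round x.imK⟩

theorem hurR_norm (x : ℍ[ℚ]) : Quaternion.normSq (x - hurR x) = (x.re - round x.re) ^ 2 +
    (x.imI - round x.imI) ^ 2 + (x.imJ - round x.imJ) ^ 2 + (x.imK - round x.imK) ^ 2 := by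
  rw [Quaternion.normSq_def']
  rfl

theorem hurV_hurR {a b : Prop} {x : ℍ[ℚ]} (hx : hurV a b x) : hurV a b (hurR x) :=
  hurV_hurI.2 ⟨fun h => by simp [hx.1 h], fun h => by simp [hx.2.1 h],
    fun h => by simp [hx.2.2 h]⟩

theorem hur_euclid (x : ℍ[ℚ]) : Quaternion.normSq (x - hurR x) < 1 ∨ x ∈ hurO := by
  rw [hurR_norm]
  have h1 := hur_round_le x.re
  have h2 := hur_round_le x.imI
  have h3 := hur_round_le x.imJ
  have h4 := hur_round_le x.imK
  rcases hur_round_lt x.re with k1 | ⟨p, k1⟩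
  · left
    linarith
  rcases hur_round_lt x.imI with k2 | ⟨q, k2⟩
  · left
    linarith
  rcases hur_round_lt x.imJ with k3 | ⟨r, k3⟩
  · left
    linarith
  rcases hur_round_lt x.imK with k4 | ⟨s, k4⟩
  · left
    linarith
  right
  refine ⟨p - s, q - s, r - s, 2 * s + 1, ?_, ?_, ?_, ?_⟩
  · rw [k1]
    push_cast
    ring
  · rw [k2]
    push_cast
    ring
  · rw [k3]
    push_cast
    ring
  · rw [k4]
    push_cast
    ring

theorem hur_euclid_pos {x : ℍ[ℚ]} (hx : star x + 1 * x = 0) :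
    star (hurR x) + 1 * hurR x = 0 ∧ Quaternion.normSq (x - hurR x) < 1 := by
  have h0 : x.re = 0 := by
    have := congrArg (·.re) hx
    simp only [one_mul, Quaternion.re_add, Quaternion.re_star, Quaternion.re_zero] at this
    linarith
  constructor
  · ext <;> simp [hurR, hurI_re, h0]
  · rw [hurR_norm, h0]
    have h2 := hur_round_le x.imI
    have h3 := hur_round_le x.imJ
    have h4 := hur_round_le x.imK
    simp only [round_zero, Int.cast_zero, sub_zero]
    linarith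

theorem hur_euclid_neg {x : ℍ[ℚ]} (hx : star x + -1 * x = 0) :
    star (hurR x) + -1 * hurR x = 0 ∧ Quaternion.normSq (x - hurR x) < 1 := by
  rw [neg_one_mul] at hx
  have h1 : x.imI = 0 := by
    have := congrArg (·.imI) hx
    simp only [Quaternion.imI_add, Quaternion.imI_star, Quaternion.imI_neg,
      Quaternion.imI_zero] at this
    linarith
  have h2 : x.imJ = 0 := by
    have := congrArg (·.imJ) hx
    simp only [Quaternion.imJ_add, Quaternion.imJ_star, Quaternion.imJ_neg,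
      Quaternion.imJ_zero] at this
    linarith
  have h3 : x.imK = 0 := by
    have := congrArg (·.imK) hx
    simp only [Quaternion.imK_add, Quaternion.imK_star, Quaternion.imK_neg,
      Quaternion.imK_zero] at this
    linarith
  constructor
  · rw [neg_one_mul]
    ext <;> simp [hurR, hurI_imI, hurI_imJ, hurI_imK, h1, h2, h3]
  · rw [hurR_norm, h1, h2, h3]
    have h4 := hur_round_le x.re
    simp only [round_zero, Int.cast_zero, sub_zero]
    linarith

theorem hur_adjoin (S : Set ℍ[ℤ]) (hS : S ⊆ {⟨0, 1, 0, 0⟩, ⟨0, 0, 1, 0⟩}) :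
    StarAlgebra.adjoin ℤ S = hurA ((⟨0, 1, 0, 0⟩ : ℍ[ℤ]) ∈ S) ((⟨0, 0, 1, 0⟩ : ℍ[ℤ]) ∈ S) := by
  apply le_antisymm
  · refine StarAlgebra.adjoin_le fun x hx => ?_
    rcases hS hx with rfl | rfl
    · exact ⟨fun h => absurd hx h, fun _ => rfl, fun _ => rfl⟩
    · exact ⟨fun _ => rfl, fun h => absurd hx h, fun _ => rfl⟩
  · intro x hx
    have e : ∀ i j : ℍ[ℤ], i = ⟨0, 1, 0, 0⟩ → j = ⟨0, 0, 1, 0⟩ →
        x = algebraMap ℤ ℍ[ℤ] x.re + x.imI • i + x.imJ • j + x.imK • (i * j) := by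
      rintro _ _ rfl rfl
      ext <;> simp
    rw [e _ _ rfl rfl]
    refine add_mem (add_mem (add_mem (StarSubalgebra.algebraMap_mem _ _) ?_) ?_) ?_
    · by_cases h : (⟨0, 1, 0, 0⟩ : ℍ[ℤ]) ∈ S
      · exact zsmul_mem (StarAlgebra.subset_adjoin ℤ S h) _
      · rw [hx.1 h, zero_smul]
        exact zero_mem _
    · by_cases h : (⟨0, 0, 1, 0⟩ : ℍ[ℤ]) ∈ S
      · exact zsmul_mem (StarAlgebra.subset_adjoin ℤ S h) _
      · rw [hx.2.1 h, zero_smul]
        exact zero_mem _
    · by_cases h : (⟨0, 1, 0, 0⟩ : ℍ[ℤ]) ∈ S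
      · by_cases h' : (⟨0, 0, 1, 0⟩ : ℍ[ℤ]) ∈ S
        · exact zsmul_mem (mul_mem (StarAlgebra.subset_adjoin ℤ S h)
            (StarAlgebra.subset_adjoin ℤ S h')) _
        · rw [hx.2.2 (.inr h'), zero_smul]
          exact zero_mem _
      · rw [hx.2.2 (.inl h), zero_smul]
        exact zero_mem _

/-- The integers, the Gaussian integers and the integral quaternions are orders in division rings
with a Euclidean order. -/
theorem exists_Ar (S : Set ℍ[ℤ]) (hS : S ⊆ {⟨0, 1, 0, 0⟩, ⟨0, 0, 1, 0⟩}) :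
    ∃ (D : Type) (_ : DivisionRing D) (_ : StarRing D) (_ : CharZero D)
      (ι : StarAlgebra.adjoin ℤ S →+* D) (O : Subring D) (N : D → ℚ), Function.Injective ι ∧
      (∀ x, ι (star x) = star (ι x)) ∧ Module.Finite ℤ (StarAlgebra.adjoin ℤ S) ∧
      (∀ d : D, ∃ k : ℕ, 0 < k ∧ ∃ r, ι r = (k : D) * d) ∧ (S.Nonempty → Ar 1 O N) ∧
      Ar (-1) O N := by
  set a : Prop := (⟨0, 1, 0, 0⟩ : ℍ[ℤ]) ∈ S with ha
  set b : Prop := (⟨0, 0, 1, 0⟩ : ℍ[ℤ]) ∈ S with hb
  have hA : StarAlgebra.adjoin ℤ S = hurA a b := hur_adjoin S hS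
  let _ : StarRing (hurD a b) := hurStar a b
  have _ : CharZero ℍ[ℚ] := algebraRat.charZero _
  have _ : CharZero (hurD a b) := (hurD a b).subtype.charZero
  have hm : ∀ x : StarAlgebra.adjoin ℤ S, hurI x.1 ∈ hurD a b := fun x =>
    hurV_hurI.2 (hA.le x.2)
  let ι : StarAlgebra.adjoin ℤ S →+* hurD a b :=
    (hurI.comp (StarAlgebra.adjoin ℤ S).subtype.toAlgHom.toRingHom).codRestrict _ hm
  have hden : ∀ d : hurD a b, ∃ k : ℕ, 0 < k ∧ ∃ r, ι r = (k : hurD a b) * d := by
    intro d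
    obtain ⟨k, hk, r, e⟩ := hur_den d.1
    have h1 : hurV a b (hurI r) := by
      rw [e]
      exact (hurD a b).mul_mem (natCast_mem _ k) d.2
    exact ⟨k, hk, ⟨r, hA.ge (hurV_hurI.1 h1)⟩, Subtype.ext e⟩
  have key : ∀ ε : hurD a b, (ε = 1 ∨ ε = -1) → (∃ x, x ≠ 0 ∧ star x + ε * x = 0) →
      Ar ε (hurO.comap (hurD a b).subtype) (fun x => Quaternion.normSq x.1) := by
    intro ε hε hL
    refine ⟨hε, fun x => Subtype.ext ?_, fun x => Quaternion.normSq_nonneg,
      fun x hx => hurO_star hx, hur_fg a b, fun x => ?_, fun x hx => hurO_int hx, fun x => ?_,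
      fun x hx => ?_, hL⟩
    · exact Quaternion.self_mul_star x.1
    · obtain ⟨k, hk, r, e⟩ := hden x
      refine ⟨k, hk, ?_⟩
      rw [← e]
      exact hurO_hurI _
    · rcases hur_euclid x.1 with h | h
      · exact ⟨⟨hurR x.1, hurV_hurR x.2⟩, hurO_hurI _, h⟩
      · exact ⟨x, h, by simp⟩
    · rcases hε with rfl | rfl
      · obtain ⟨h1, h2⟩ := hur_euclid_pos (congrArg Subtype.val hx)
        exact ⟨⟨hurR x.1, hurV_hurR x.2⟩, hurO_hurI _, Subtype.ext h1, h2⟩
      · obtain ⟨h1, h2⟩ := hur_euclid_neg (congrArg Subtype.val hx)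
        exact ⟨⟨hurR x.1, hurV_hurR x.2⟩, hurO_hurI _, Subtype.ext h1, h2⟩
  refine ⟨hurD a b, inferInstance, inferInstance, inferInstance, ι,
    hurO.comap (hurD a b).subtype, fun x => Quaternion.normSq x.1, fun x y h => ?_,
    fun x => Subtype.ext (hurI_star x.1), ?_, hden, fun hne => key 1 (.inl rfl) ?_,
    key (-1) (.inr rfl) ⟨1, one_ne_zero, by simp⟩⟩
  · exact Subtype.ext (hurI_inj (congrArg Subtype.val h))
  · exact Module.Finite.of_injective (StarAlgebra.adjoin ℤ S).subtype.toAlgHom.toLinearMap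
      Subtype.val_injective
  · obtain ⟨x, hx⟩ := hne
    refine ⟨ι ⟨x, StarAlgebra.subset_adjoin ℤ S hx⟩, fun h => ?_, Subtype.ext ?_⟩
    · have h1 : hurI x = hurI 0 := (congrArg Subtype.val h).trans (map_zero _).symm
      have h2 := hurI_inj h1
      rcases hS hx with rfl | rfl
      · exact one_ne_zero (congrArg (·.imI) h2)
      · exact one_ne_zero (congrArg (·.imJ) h2)
    · change star (hurI x) + 1 * hurI x = 0
      rcases hS hx with rfl | rfl
      · ext <;> simp [hurI_re]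
      · ext <;> simp [hurI_re]

end Pool.Agent.P.MP_d483fb_an.U
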