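import Pool.Agent.P.MP_d483fb_an.Defs

/-! The isometry group of a matrix over a ring with involution. -/

set_option autoImplicit false

open scoped Matrix

namespace Pool.Agent.P.MP_d483fb_an

/-- The group of invertible matrices `g` over `R` with `gᴴ Q g = Q`. -/
def isom {n : ℕ} {R : Type} [Ring R] [StarRing R] (Q : Matrix (Fin n) (Fin n) R) :
    Subgroup (GL (Fin n) R) where
  carrier := {g | (g : Matrix (Fin n) (Fin n) R)ᴴ * Q * (g : Matrix (Fin n) (Fin n) R) = Q}
  one_mem' := by simp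
  mul_mem' := by
    intro a b ha hb
    simp only [Set.mem_ofPred_eq, Units.val_mul, Matrix.conjTranspose_mul] at ha hb ⊢
    calc _ = (b : Matrix (Fin n) (Fin n) R)ᴴ *
          ((a : Matrix (Fin n) (Fin n) R)ᴴ * Q * (a : Matrix (Fin n) (Fin n) R)) *
          (b : Matrix (Fin n) (Fin n) R) := by simp only [Matrix.mul_assoc]
      _ = Q := by rw [ha, hb]
  inv_mem' := by
    intro a ha
    simp only [Set.mem_ofPred_eq] at ha ⊢
    have h : a.val * (a⁻¹).val = 1 := Units.mul_inv a
    calc (a⁻¹).valᴴ * Q * (a⁻¹).val = (a⁻¹).valᴴ * (a.valᴴ * Q * a.val) * (a⁻¹).val := by rw [ha]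
      _ = (a.val * (a⁻¹).val)ᴴ * Q * (a.val * (a⁻¹).val) := by
          simp only [Matrix.conjTranspose_mul, Matrix.mul_assoc]
      _ = Q := by rw [h]; simp

end Pool.Agent.P.MP_d483fb_an
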