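import Pool.Agent.P.MP_d483fb_an.U.NST
import Pool.Agent.P.MP_d483fb_an.U.Defs

set_option autoImplicit false
set_option linter.unusedSectionVars false

namespace Pool.Agent.P.MP_d483fb_an.U

open scoped Matrix

section Aux

variable {R D : Type} [Ring R] [StarRing R] [DivisionRing D] [StarRing D] {n : ℕ}

/-- Vectors over the order as vectors over the division ring. -/
def MatA_c (ι : R →+* D) (n : ℕ) : (Fin n → R) →+ (Fin n → D) where
  toFun x i := ι (x i)
  map_zero' := by funext i; simp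
  map_add' x y := by funext i; simp

theorem MatA_c_apply (ι : R →+* D) (x : Fin n → R) (i : Fin n) : MatA_c ι n x i = ι (x i) := rfl

theorem MatA_c_inj {ι : R →+* D} (hι : Function.Injective ι) :
    Function.Injective (MatA_c ι n) := fun x y h => by
  funext i
  exact hι (congrFun h i)

theorem MatA_c_mulVec (ι : R →+* D) (A : Matrix (Fin n) (Fin n) R) (x : Fin n → R) :
    A.map ι *ᵥ MatA_c ι n x = MatA_c ι n (A *ᵥ x) := by
  funext i
  simp [Matrix.mulVec, dotProduct, MatA_c_apply]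

theorem MatA_c_vecMul (ι : R →+* D) (A : Matrix (Fin n) (Fin n) R) (x : Fin n → R) :
    MatA_c ι n x ᵥ* A.map ι = MatA_c ι n (x ᵥ* A) := by
  funext i
  simp [Matrix.vecMul, dotProduct, MatA_c_apply]

theorem MatA_c_dot (ι : R →+* D) (x y : Fin n → R) :
    MatA_c ι n x ⬝ᵥ MatA_c ι n y = ι (x ⬝ᵥ y) := by
  simp [dotProduct, MatA_c_apply]

theorem MatA_c_single (ι : R →+* D) (i : Fin n) :
    MatA_c ι n (Pi.single i 1) = Pi.single i 1 := by
  funext k
  by_cases h : k = i
  · subst h; simp [MatA_c_apply]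
  · simp [MatA_c_apply, Pi.single_eq_of_ne h]

theorem MatA_c_star {ι : R →+* D} (hs : ∀ x, ι (star x) = star (ι x)) (x : Fin n → R) :
    star (MatA_c ι n x) = MatA_c ι n (star x) := by
  funext i
  simp [MatA_c_apply, hs]

theorem MatA_map_inj {ι : R →+* D} (hι : Function.Injective ι) {A A' : Matrix (Fin n) (Fin n) R}
    (h : A.map ι = A'.map ι) : A = A' := by
  ext i k
  exact hι (congrFun (congrFun h i) k)

theorem MatA_map_H {ι : R →+* D} (hs : ∀ x, ι (star x) = star (ι x))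
    (A : Matrix (Fin n) (Fin n) R) : (A.map ι)ᴴ = Aᴴ.map ι := by
  ext i k
  simp [Matrix.conjTranspose_apply, hs]

theorem MatA_ext {A A' : Matrix (Fin n) (Fin n) D} (h : ∀ x, x ᵥ* A = x ᵥ* A') : A = A' := by
  ext i k
  have := congrFun (h (Pi.single i 1)) k
  simpa using this

theorem MatA_star_vecMul (A : Matrix (Fin n) (Fin n) D) (y : Fin n → D) :
    star (y ᵥ* Aᴴ) = A *ᵥ star y := by
  rw [Matrix.star_vecMul, Matrix.conjTranspose_conjTranspose]

/-- Invertible matrices over the order as linear automorphisms of the space of row vectors. -/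
noncomputable def MatA_j (ι : R →+* D) (n : ℕ) :
    GL (Fin n) R →* ((Fin n → D) ≃ₗ[D] (Fin n → D)) where
  toFun g := LinearEquiv.ofLinearMap (Matrix.vecMulLinear (g.val.map ι)ᴴ)
    (Matrix.vecMulLinear ((g⁻¹).val.map ι)ᴴ)
    (LinearMap.ext fun x => by
      simp only [LinearMap.comp_apply, Matrix.vecMulLinear_apply, LinearMap.id_apply,
        Matrix.vecMul_vecMul]
      rw [← Matrix.conjTranspose_mul, ← Matrix.map_mul, Units.mul_inv,
        Matrix.map_one _ (map_zero _) (map_one _), Matrix.conjTranspose_one, Matrix.vecMul_one])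
    (LinearMap.ext fun x => by
      simp only [LinearMap.comp_apply, Matrix.vecMulLinear_apply, LinearMap.id_apply,
        Matrix.vecMul_vecMul]
      rw [← Matrix.conjTranspose_mul, ← Matrix.map_mul, Units.inv_mul,
        Matrix.map_one _ (map_zero _) (map_one _), Matrix.conjTranspose_one, Matrix.vecMul_one])
  map_one' := LinearEquiv.ext fun x => by
    change x ᵥ* ((1 : Matrix (Fin n) (Fin n) R).map ι)ᴴ = x
    rw [Matrix.map_one _ (map_zero _) (map_one _), Matrix.conjTranspose_one, Matrix.vecMul_one]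
  map_mul' g g' := LinearEquiv.ext fun x => by
    change x ᵥ* ((g.val * g'.val).map ι)ᴴ = (x ᵥ* (g'.val.map ι)ᴴ) ᵥ* (g.val.map ι)ᴴ
    rw [Matrix.vecMul_vecMul, Matrix.map_mul, Matrix.conjTranspose_mul]

theorem MatA_j_apply (ι : R →+* D) (g : GL (Fin n) R) (x : Fin n → D) :
    MatA_j ι n g x = x ᵥ* (g.val.map ι)ᴴ := rfl

theorem MatA_j_inj {ι : R →+* D} (hι : Function.Injective ι) :
    Function.Injective (MatA_j ι n) := fun g g' h => by
  apply Units.ext
  apply MatA_map_inj hι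
  apply Matrix.conjTranspose_injective
  apply MatA_ext
  intro x
  rw [← MatA_j_apply, ← MatA_j_apply, h]

/-- The form of a matrix. -/
def MatA_h (Q : Matrix (Fin n) (Fin n) D) : Form D (Fin n → D) where
  toFun x :=
    { toFun := fun y => x ᵥ* Q ⬝ᵥ star y
      map_zero' := by simp
      map_add' := fun y y' => by rw [star_add, dotProduct_add] }
  map_add' x x' := AddMonoidHom.ext fun y => by
    change (x + x') ᵥ* Q ⬝ᵥ star y = x ᵥ* Q ⬝ᵥ star y + x' ᵥ* Q ⬝ᵥ star y
    rw [Matrix.add_vecMul, add_dotProduct]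
  map_smul' a x := AddMonoidHom.ext fun y => by
    change (a • x) ᵥ* Q ⬝ᵥ star y = a * (x ᵥ* Q ⬝ᵥ star y)
    rw [Matrix.smul_vecMul, smul_dotProduct, smul_eq_mul]

theorem MatA_h_apply (Q : Matrix (Fin n) (Fin n) D) (x y : Fin n → D) :
    MatA_h Q x y = x ᵥ* Q ⬝ᵥ star y := rfl

theorem MatA_h_apply' (Q : Matrix (Fin n) (Fin n) D) (x y : Fin n → D) :
    MatA_h Q x y = x ⬝ᵥ Q *ᵥ star y := by
  rw [MatA_h_apply, Matrix.dotProduct_mulVec]

theorem MatA_h_j {ι : R →+* D} (hs : ∀ x, ι (star x) = star (ι x)) (Q : Matrix (Fin n) (Fin n) R)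
    (g : GL (Fin n) R) (x y : Fin n → D) :
    MatA_h (Q.map ι) (MatA_j ι n g x) (MatA_j ι n g y) =
      MatA_h ((g.valᴴ * Q * g.val).map ι) x y := by
  rw [MatA_h_apply, MatA_h_apply, MatA_j_apply, MatA_j_apply, MatA_star_vecMul,
    Matrix.dotProduct_mulVec, Matrix.vecMul_vecMul, Matrix.vecMul_vecMul, Matrix.map_mul,
    Matrix.map_mul, MatA_map_H hs, Matrix.mul_assoc]

theorem MatA_h_inj {Q Q' : Matrix (Fin n) (Fin n) D}
    (h : ∀ x y, MatA_h Q x y = MatA_h Q' x y) : Q = Q' := by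
  ext i k
  have := h (Pi.single i 1) (Pi.single k 1)
  simpa [MatA_h_apply, Pi.star_single] using this

theorem MatA_int {ι : R →+* D} (hs : ∀ x, ι (star x) = star (ι x))
    (g : (Fin n → D) →ₗ[D] (Fin n → D))
    (hg : ∀ x ∈ (MatA_c ι n).range, g x ∈ (MatA_c ι n).range) :
    ∃ A : Matrix (Fin n) (Fin n) R, ∀ x, x ᵥ* (A.map ι)ᴴ = g x := by
  have h : ∀ k : Fin n, ∃ y : Fin n → R, MatA_c ι n y = g (Pi.single k 1) := fun k =>
    hg _ ⟨Pi.single k 1, MatA_c_single ι k⟩
  choose y hy using h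
  refine ⟨(Matrix.of fun k i => y k i)ᴴ, fun x => ?_⟩
  rw [MatA_map_H hs, Matrix.conjTranspose_conjTranspose]
  have hx : x = ∑ k, x k • (Pi.single k 1 : Fin n → D) := by
    funext i
    simp [Finset.sum_apply, Pi.single_apply]
  conv_rhs => rw [hx, map_sum]
  funext i
  simp only [map_smul, ← hy, Finset.sum_apply, Pi.smul_apply, smul_eq_mul, MatA_c_apply]
  rfl

theorem MatA_map_isom {ι : R →+* D} (hι : Function.Injective ι)
    (hs : ∀ x, ι (star x) = star (ι x)) (Q : Matrix (Fin n) (Fin n) R) :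
    (isom Q).map (MatA_j ι n) = UL (MatA_h (Q.map ι)) (MatA_c ι n).range := by
  have key : ∀ (g : GL (Fin n) R) (x : Fin n → D), x ∈ (MatA_c ι n).range →
      MatA_j ι n g x ∈ (MatA_c ι n).range := by
    rintro g _ ⟨x, rfl⟩
    exact ⟨_, by rw [MatA_j_apply, MatA_map_H hs, MatA_c_vecMul]⟩
  apply le_antisymm
  · rintro _ ⟨g, hg, rfl⟩
    refine ⟨fun x y => ?_, fun x => ⟨fun hx => ?_, key g x⟩⟩
    · rw [MatA_h_j hs]
      have : g.valᴴ * Q * g.val = Q := hg
      rw [this]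
    · have := key g⁻¹ _ hx
      rwa [← LinearEquiv.mul_apply, ← map_mul, inv_mul_cancel, map_one] at this
  · intro g hg
    obtain ⟨A, hA⟩ := MatA_int hs (g : (Fin n → D) →ₗ[D] (Fin n → D)) fun x hx => (hg.2 x).2 hx
    obtain ⟨A', hA'⟩ := MatA_int hs (g.symm : (Fin n → D) →ₗ[D] (Fin n → D)) fun x hx =>
      (hg.2 (g.symm x)).1 (by rwa [LinearEquiv.apply_symm_apply])
    have h1 : A * A' = 1 := by
      apply MatA_map_inj hι
      apply Matrix.conjTranspose_injective
      apply MatA_ext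
      intro x
      rw [Matrix.map_mul, Matrix.conjTranspose_mul, ← Matrix.vecMul_vecMul, hA', hA,
        Matrix.map_one _ (map_zero _) (map_one _), Matrix.conjTranspose_one, Matrix.vecMul_one]
      exact g.apply_symm_apply x
    have h2 : A' * A = 1 := by
      apply MatA_map_inj hι
      apply Matrix.conjTranspose_injective
      apply MatA_ext
      intro x
      rw [Matrix.map_mul, Matrix.conjTranspose_mul, ← Matrix.vecMul_vecMul, hA, hA',
        Matrix.map_one _ (map_zero _) (map_one _), Matrix.conjTranspose_one, Matrix.vecMul_one]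
      exact g.symm_apply_apply x
    have hj : MatA_j ι n ⟨A, A', h1, h2⟩ = g := LinearEquiv.ext fun x => by
      rw [MatA_j_apply]; exact hA x
    refine ⟨⟨A, A', h1, h2⟩, ?_, hj⟩
    change Aᴴ * Q * A = Q
    apply MatA_map_inj hι
    apply MatA_h_inj
    intro x y
    have := MatA_h_j hs Q ⟨A, A', h1, h2⟩ x y
    rw [hj] at this
    rw [← hg.1 x y, this]

theorem MatA_full {ι : R →+* D}
    (hfull : ∀ d : D, ∃ k : ℕ, 0 < k ∧ ∃ r, ι r = (k : D) * d) {m : ℕ} (x : Fin m → D) :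
    ∃ k : ℕ, 0 < k ∧ ∃ r : Fin m → R, ∀ i, ι (r i) = (k : D) * x i := by
  choose k hk r hr using fun i => hfull (x i)
  refine ⟨∏ i, k i, Finset.prod_pos fun i _ => hk i, ?_⟩
  have h : ∀ i, ∃ s : R, ι s = ((∏ i, k i : ℕ) : D) * x i := fun i => by
    obtain ⟨c, hc⟩ : k i ∣ ∏ i, k i := Finset.dvd_prod_of_mem k (Finset.mem_univ i)
    refine ⟨(c : R) * r i, ?_⟩
    rw [map_mul, map_natCast, hr, hc, mul_comm (k i) c, Nat.cast_mul, mul_assoc]
  choose s hs using h
  exact ⟨s, hs⟩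

theorem MatA_HS [CharZero D] {ι : R →+* D} (hι : Function.Injective ι)
    (hs : ∀ x, ι (star x) = star (ι x))
    (hfull : ∀ d : D, ∃ k : ℕ, 0 < k ∧ ∃ r, ι r = (k : D) * d) {ε : D} (hε : ε = 1 ∨ ε = -1)
    {Q : Matrix (Fin n) (Fin n) R}
    (hQ : ∀ i j, ι (Q j i) = ε * star (ι (Q i j))) (hnd : ∀ x : Fin n → R, Q *ᵥ x = 0 → x = 0)
    (hiso : ∃ x y : Fin n → R, (∀ a b : R, (∀ i, x i * a + y i * b = 0) → a = 0 ∧ b = 0) ∧
      star x ⬝ᵥ Q *ᵥ x = 0 ∧ star x ⬝ᵥ Q *ᵥ y = 0 ∧ star y ⬝ᵥ Q *ᵥ y = 0) :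
    HS ε (MatA_h (Q.map ι)) := by
  have hc : ∀ a : D, a * ε = ε * a := fun a => by rcases hε with rfl | rfl <;> simp
  refine ⟨⟨hε, fun x y => ?_⟩, fun φ => ?_, inferInstance, ?_⟩
  · rw [MatA_h_apply, MatA_h_apply']
    simp only [dotProduct, Matrix.vecMul, Matrix.mulVec, Matrix.map_apply, star_sum, star_mul,
      Pi.star_apply, star_star, Finset.mul_sum, Finset.sum_mul]
    refine Finset.sum_congr rfl fun i _ => Finset.sum_congr rfl fun k _ => ?_
    rw [hQ i k, ← mul_assoc, ← mul_assoc, ← mul_assoc, hc]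
  · have hinj : Function.Injective (Matrix.vecMulLinear (Q.map ι)ᴴ) := by
      rw [injective_iff_map_eq_zero]
      intro y hy
      rw [Matrix.vecMulLinear_apply] at hy
      have h0 : Q.map ι *ᵥ star y = 0 := by rw [← MatA_star_vecMul, hy, star_zero]
      obtain ⟨k, hk, r, hr⟩ := MatA_full hfull (star y)
      have h1 : Q *ᵥ r = 0 := by
        apply MatA_c_inj hι
        rw [← MatA_c_mulVec, map_zero]
        funext i
        have h2 := congrFun h0 i
        simp only [Matrix.mulVec, dotProduct, MatA_c_apply, hr, Pi.zero_apply] at h2 ⊢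
        have h3 : ∀ l, Q.map ι i l * ((k : D) * star y l) = (k : D) * (Q.map ι i l * star y l) :=
          fun l => by rw [← mul_assoc, ← (Nat.cast_commute k _).eq, mul_assoc]
        simp only [h3]
        rw [← Finset.mul_sum, h2, mul_zero]
      have h4 := hnd r h1
      funext i
      have h5 := hr i
      rw [h4, Pi.zero_apply, map_zero] at h5
      have h6 := (mul_eq_zero.1 h5.symm).resolve_left (Nat.cast_ne_zero.2 hk.ne')
      exact star_eq_zero.1 h6
    obtain ⟨y, hy⟩ := LinearMap.injective_iff_surjective.1 hinj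
      (star fun i => φ (Pi.single i 1))
    refine ⟨y, fun x => ?_⟩
    rw [Matrix.vecMulLinear_apply] at hy
    rw [MatA_h_apply', ← MatA_star_vecMul, hy, star_star]
    have hx : x = ∑ k, x k • (Pi.single k 1 : Fin n → D) := by
      funext i
      simp [Finset.sum_apply, Pi.single_apply]
    conv_lhs => rw [hx, map_sum]
    simp only [map_smul, smul_eq_mul, dotProduct]
  · obtain ⟨x, y, hl, h1, h2, h3⟩ := hiso
    have e : ∀ u v : Fin n → R, MatA_h (Q.map ι) (MatA_c ι n (star u)) (MatA_c ι n (star v)) =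
        ι (star u ⬝ᵥ Q *ᵥ v) := fun u v => by
      rw [MatA_h_apply', MatA_c_star hs, star_star, MatA_c_mulVec, MatA_c_dot]
    refine ⟨MatA_c ι n (star x), MatA_c ι n (star y), ?_, by rw [e, h1, map_zero],
      by rw [e, h2, map_zero], by rw [e, h3, map_zero]⟩
    rw [LinearIndependent.pair_iff]
    intro a b hab
    obtain ⟨k, hk, r, hr⟩ := MatA_full hfull ![star a, star b]
    have r0 : ι (r 0) = (k : D) * star a := hr 0
    have r1 : ι (r 1) = (k : D) * star b := hr 1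
    have h4 := hl (r 0) (r 1) fun i => by
      apply hι
      have h5 := congrArg star (congrFun hab i)
      simp only [Pi.add_apply, Pi.smul_apply, smul_eq_mul, MatA_c_apply, Pi.star_apply, hs,
        star_add, star_mul, star_star, Pi.zero_apply, star_zero] at h5
      rw [map_add, map_mul, map_mul, r0, r1, map_zero, ← mul_assoc, ← mul_assoc,
        ← (Nat.cast_commute k _).eq, ← (Nat.cast_commute k _).eq, mul_assoc, mul_assoc, ← mul_add,
        h5, mul_zero]
    have hk' : (k : D) ≠ 0 := Nat.cast_ne_zero.2 hk.ne'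
    rw [h4.1, map_zero] at r0
    rw [h4.2, map_zero] at r1
    exact ⟨star_eq_zero.1 ((mul_eq_zero.1 r0.symm).resolve_left hk'),
      star_eq_zero.1 ((mul_eq_zero.1 r1.symm).resolve_left hk')⟩

end Aux

/-- Normal subgroup theorem for isometry groups over an order. -/
theorem nst_isom {R D : Type} [Ring R] [StarRing R] [DivisionRing D] [StarRing D] [CharZero D]
    (ι : R →+* D) (hι : Function.Injective ι) (hs : ∀ x, ι (star x) = star (ι x))
    (hfg : Module.Finite ℤ R) (hfull : ∀ d : D, ∃ k : ℕ, 0 < k ∧ ∃ r, ι r = (k : D) * d)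
    {ε : D} {O : Subring D} {N : D → ℚ} (A : Ar ε O N) {n : ℕ} {Q : Matrix (Fin n) (Fin n) R}
    (hQ : ∀ i j, ι (Q j i) = ε * star (ι (Q i j))) (hnd : ∀ x : Fin n → R, Q *ᵥ x = 0 → x = 0)
    (hiso : ∃ x y : Fin n → R, (∀ a b : R, (∀ i, x i * a + y i * b = 0) → a = 0 ∧ b = 0) ∧
      star x ⬝ᵥ Q *ᵥ x = 0 ∧ star x ⬝ᵥ Q *ᵥ y = 0 ∧ star y ⬝ᵥ Q *ᵥ y = 0)
    {Γ : Subgroup (GL (Fin n) R)} (hΓ : Γ ≤ isom Q) (hi : Γ.relIndex (isom Q) ≠ 0)
    (K : Subgroup Γ) [K.Normal] {d : Γ} (hd : d ∈ K)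
    (h1 : (d : GL (Fin n) R) ∉ Subgroup.center (GL (Fin n) R)) : K.FiniteIndex := by
  have hL : (MatA_c ι n).range.FG := by
    have : AddGroup.FG (Fin n → R) := Module.Finite.iff_addGroup_fg.1 inferInstance
    exact (AddGroup.fg_iff_addSubgroup_fg _).1 inferInstance
  have hL' : Full D (MatA_c ι n).range := fun x => by
    obtain ⟨k, hk, r, hr⟩ := MatA_full hfull x
    exact ⟨k, hk, r, funext fun i => hr i⟩
  have hΓ' : Γ.map (MatA_j ι n) ≤ UL (MatA_h (Q.map ι)) (MatA_c ι n).range := by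
    rw [← MatA_map_isom hι hs]
    exact Subgroup.map_mono hΓ
  have hi' : (Γ.map (MatA_j ι n)).relIndex (UL (MatA_h (Q.map ι)) (MatA_c ι n).range) ≠ 0 := by
    rwa [← MatA_map_isom hι hs, Subgroup.relIndex_map_map_of_injective _ _ (MatA_j_inj hι)]
  have hN : Nrm (Γ.map (MatA_j ι n)) ((K.map Γ.subtype).map (MatA_j ι n)) := by
    rintro _ ⟨γ, hγ, rfl⟩ _ ⟨_, ⟨x, hx, rfl⟩, rfl⟩
    have h3 : (⟨γ, hγ⟩ : Γ) * x * (⟨γ, hγ⟩ : Γ)⁻¹ ∈ K :=
      Subgroup.Normal.conj_mem inferInstance x hx _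
    have h4 := Subgroup.mem_map_of_mem (MatA_j ι n) (Subgroup.mem_map_of_mem Γ.subtype h3)
    rw [map_mul, map_mul, map_inv, map_mul, map_mul, map_inv] at h4
    exact h4
  have hsc : ¬Scal (MatA_j ι n d) := by
    rintro ⟨c, -, hc⟩
    apply h1
    rw [Subgroup.mem_center_iff]
    intro γ
    apply MatA_j_inj (n := n) hι
    rw [map_mul, map_mul]
    refine LinearEquiv.ext fun x => ?_
    rw [mul_apply', mul_apply', hc, hc, map_smul]
  have h := nst A (MatA_HS hι hs hfull A.eps hQ hnd hiso) hL hL' hΓ' hi' hN (d := MatA_j ι n d)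
    ⟨d, ⟨d, hd, rfl⟩, rfl⟩ (hΓ' ⟨d, d.2, rfl⟩).1 hsc
  rw [Subgroup.relIndex_map_map_of_injective _ _ (MatA_j_inj hι), Subgroup.relIndex,
    Subgroup.subgroupOf, Subgroup.comap_map_eq_self_of_injective Γ.subtype_injective] at h
  exact ⟨h⟩

end Pool.Agent.P.MP_d483fb_an.U
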