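import Pool.Agent.P.MP_d483fb_an.U.MatA
import Pool.Agent.P.MP_d483fb_an.U.Hur
import Pool.Agent.P.MP_d483fb_an.NSTMat

set_option autoImplicit false

namespace Pool.Agent.P.MP_d483fb_an.U

open scoped Matrix Quaternion

/-- The orthogonal case for a ring isomorphic to the integers. -/
theorem nst_int {R : Type} [Ring R] [StarRing R] (e : R ≃+* ℤ) {n : ℕ} (hn : 5 ≤ n)
    {Q : Matrix (Fin n) (Fin n) R} (hQ : Qᴴ = Q) (hnd : ∀ x : Fin n → R, Q *ᵥ x = 0 → x = 0)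
    (hiso : ∃ x y : Fin n → R, (∀ a b : R, (∀ i, x i * a + y i * b = 0) → a = 0 ∧ b = 0) ∧
      star x ⬝ᵥ Q *ᵥ x = 0 ∧ star x ⬝ᵥ Q *ᵥ y = 0 ∧ star y ⬝ᵥ Q *ᵥ y = 0)
    {Γ : Subgroup (GL (Fin n) R)} (hΓ : Γ ≤ isom Q) (hi : Γ.relIndex (isom Q) ≠ 0)
    (K : Subgroup Γ) [K.Normal] {d : Γ} (hd : d ∈ K)
    (h1 : (d : GL (Fin n) R) ∉ Subgroup.center (GL (Fin n) R)) : K.FiniteIndex := by
  have hs : ∀ x : R, star x = x := fun x => by
    rw [← e.symm_apply_apply x, eq_intCast e.symm, star_intCast]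
  have hT : ∀ A : Matrix (Fin n) (Fin n) R, Aᴴ = Aᵀ := fun A => by
    ext i j
    rw [Matrix.conjTranspose_apply, hs, Matrix.transpose_apply]
  have hv : ∀ x : Fin n → R, star x = x := fun x => funext fun i => hs (x i)
  let Ψ : GL (Fin n) R ≃* GL (Fin n) ℤ := Units.mapEquiv (e.mapMatrix (m := Fin n)).toMulEquiv
  have hΨ : ∀ g : GL (Fin n) R, (Ψ g : Matrix (Fin n) (Fin n) ℤ) =
      (g : Matrix (Fin n) (Fin n) R).map e := fun g => rfl
  have hmem : ∀ g : GL (Fin n) R, Ψ g ∈ orth (Q.map e) ↔ g ∈ isom Q := fun g => by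
    change (Ψ g : Matrix (Fin n) (Fin n) ℤ)ᵀ * Q.map e * (Ψ g : Matrix (Fin n) (Fin n) ℤ) = _ ↔
      (g : Matrix (Fin n) (Fin n) R)ᴴ * Q * (g : Matrix (Fin n) (Fin n) R) = Q
    rw [hΨ, hT, ← Matrix.transpose_map, ← (e.mapMatrix (m := Fin n)).injective.eq_iff, map_mul,
      map_mul]
    rfl
  have hmap : (isom Q).map (Ψ : GL (Fin n) R →* GL (Fin n) ℤ) = orth (Q.map e) := by
    ext g
    obtain ⟨g, rfl⟩ := Ψ.surjective g
    rw [hmem]
    exact Subgroup.mem_map_iff_mem (f := (Ψ : GL (Fin n) R →* GL (Fin n) ℤ)) Ψ.injective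
  have hmv : ∀ x : Fin n → R, Q.map e *ᵥ (e ∘ x) = e ∘ (Q *ᵥ x) := fun x => by
    funext i
    simp [Matrix.mulVec, dotProduct]
  have hdot : ∀ x y : Fin n → R, (e ∘ x) ⬝ᵥ Q.map e *ᵥ (e ∘ y) = e (x ⬝ᵥ Q *ᵥ y) := fun x y => by
    rw [hmv]
    simp [dotProduct]
  have hdet : (Q.map e).det ≠ 0 := fun h0 => by
    obtain ⟨v, hv0, hv1⟩ := Matrix.exists_mulVec_eq_zero_iff.2 h0
    have h2 : v = e ∘ (e.symm ∘ v) := by funext i; simp
    rw [h2, hmv] at hv1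
    have h3 := hnd _ (funext fun i => e.map_eq_zero_iff.1 (congrFun hv1 i))
    apply hv0
    rw [h2, h3]
    funext i
    simp
  obtain ⟨x, y, hl, h2, h3, h4⟩ := hiso
  rw [hv] at h2 h3 h4
  let θ := Ψ.subgroupMap Γ
  have hN : (K.map θ.toMonoidHom).Normal := Subgroup.Normal.map inferInstance _ θ.surjective
  have key := nst_matrix hn (Q := Q.map e) (by
      rw [Matrix.IsSymm, ← Matrix.transpose_map, ← hT, hQ]) hdet
    ⟨e ∘ x, e ∘ y, LinearIndependent.pair_iff.2 fun a b hab => by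
      have := hl (e.symm a) (e.symm b) fun i => e.map_eq_zero_iff.1 (by
        have h5 := congrFun hab i
        simpa [mul_comm] using h5)
      exact ⟨e.symm.map_eq_zero_iff.1 this.1, e.symm.map_eq_zero_iff.1 this.2⟩,
      by rw [hdot, h2, map_zero], by rw [hdot, h3, map_zero], by rw [hdot, h4, map_zero]⟩
    (Γ := Γ.map (Ψ : GL (Fin n) R →* GL (Fin n) ℤ)) (hmap ▸ Subgroup.map_mono hΓ)
    (by rwa [← hmap, Subgroup.relIndex_map_map_of_injective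
      (f := (Ψ : GL (Fin n) R →* GL (Fin n) ℤ)) _ _ Ψ.injective])
    (K.map θ.toMonoidHom) (d := θ d) ⟨d, hd, rfl⟩
    (fun h0 => h1 (by
      have : (d : GL (Fin n) R) = 1 := Ψ.injective (h0.trans (map_one Ψ).symm)
      exact Subgroup.mem_center_iff.2 fun g => by simp [this]))
    (fun h0 => h1 (by
      have : (d : GL (Fin n) R) = -1 := Ψ.injective (h0.trans (Units.ext (by
        rw [hΨ]
        simp [Matrix.map_neg])))
      exact Subgroup.mem_center_iff.2 fun g => by simp [this]))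
  exact ⟨by rw [← Subgroup.index_map_equiv K θ]; exact key.1⟩

/-- Normal subgroup theorem over the integers, Gaussian integers and integral quaternions. -/
theorem nst_adjoin (S : Set ℍ[ℤ]) (hS : S ⊆ {⟨0, 1, 0, 0⟩, ⟨0, 0, 1, 0⟩}) {n : ℕ}
    (hn : S = ∅ → 5 ≤ n)
    {Q : Matrix (Fin n) (Fin n) (StarAlgebra.adjoin ℤ S)} (hQ : Qᴴ = Q ∨ Qᴴ = -Q)
    (hnd : ∀ x, Q *ᵥ x = 0 → x = 0)
    (hiso : ∃ x y : Fin n → StarAlgebra.adjoin ℤ S,
      (∀ a b, (∀ i, x i * a + y i * b = 0) → a = 0 ∧ b = 0) ∧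
      star x ⬝ᵥ Q *ᵥ x = 0 ∧ star x ⬝ᵥ Q *ᵥ y = 0 ∧ star y ⬝ᵥ Q *ᵥ y = 0)
    {Γ : Subgroup (GL (Fin n) (StarAlgebra.adjoin ℤ S))} (hΓ : Γ ≤ isom Q)
    (hi : Γ.relIndex (isom Q) ≠ 0) (K : Subgroup Γ) [K.Normal] {d : Γ} (hd : d ∈ K)
    (h1 : d.1 ∉ Subgroup.center (GL (Fin n) (StarAlgebra.adjoin ℤ S))) : K.FiniteIndex := by
  obtain ⟨D, _, _, _, ι, O, N, hι, hs, hfg, hfull, A₁, A₂⟩ := exists_Ar S hS
  rcases hQ with hQ | hQ
  · rcases S.eq_empty_or_nonempty with rfl | hne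
    · have hb : Function.Bijective (Int.castRingHom (StarAlgebra.adjoin ℤ (∅ : Set ℍ[ℤ]))) := by
        refine ⟨fun a b hab => ?_, fun x => ?_⟩
        · have := congrArg ι hab
          simpa using this
        · have hx := x.2
          obtain ⟨k, hk⟩ := StarSubalgebra.mem_bot.1
            (StarAlgebra.adjoin_le (S := ⊥) (Set.empty_subset _) hx)
          exact ⟨k, Subtype.ext hk⟩
      exact nst_int (RingEquiv.ofBijective _ hb).symm (hn rfl) hQ hnd hiso hΓ hi K hd h1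
    · refine nst_isom ι hι hs hfg hfull (A₁ hne) (fun i j => ?_) hnd hiso hΓ hi K hd h1
      rw [one_mul, ← hs, ← Matrix.conjTranspose_apply, hQ]
  · refine nst_isom ι hι hs hfg hfull A₂ (fun i j => ?_) hnd hiso hΓ hi K hd h1
    rw [← hs, ← Matrix.conjTranspose_apply, hQ, Matrix.neg_apply, map_neg, neg_one_mul, neg_neg]

end Pool.Agent.P.MP_d483fb_an.U
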