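import Pool.Agent.P.MP_d483fb_an.U.Eich

/-! The norm and the order. -/

set_option autoImplicit false
set_option linter.unusedSectionVars false

namespace Pool.Agent.P.MP_d483fb_an.U

variable {D V : Type} [DivisionRing D] [StarRing D] [CharZero D] [AddCommGroup V] [Module D V]
  {ε : D} {O : Subring D} {N : D → ℚ} {Λ : AddSubgroup V}

/-- Induction over a finitely generated additive subgroup. -/
theorem fg_induction {W : Type} [AddCommGroup W] {P : AddSubgroup W → Prop} (h0 : P ⊥)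
    (h1 : ∀ a L, L.FG → P L → P (AddSubgroup.zmultiples a ⊔ L)) {L : AddSubgroup W} (hL : L.FG) :
    P L := by
  classical
  obtain ⟨s, rfl⟩ := hL
  induction s using Finset.induction_on with
  | empty => simpa using h0
  | insert a s _ ih =>
    rw [Finset.coe_insert, Set.insert_eq, AddSubgroup.closure_union,
      ← AddSubgroup.zmultiples_eq_closure]
    exact h1 a _ ⟨s, rfl⟩ ih

/-- Subgroups of finitely generated abelian groups are finitely generated. -/
theorem fg_of_le {W : Type} [AddCommGroup W] {L L' : AddSubgroup W} (hL : L.FG) (hle : L' ≤ L) :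
    L'.FG := by
  have h1 : (AddSubgroup.toIntSubmodule L).FG := by
    rw [Submodule.fg_iff_addSubgroup_fg]
    exact hL
  have hn : IsNoetherian ℤ (AddSubgroup.toIntSubmodule L) :=
    isNoetherian_of_fg_of_noetherian _ h1
  have h2 : (AddSubgroup.toIntSubmodule L').FG := isNoetherian_submodule.1 hn _ hle
  rw [Submodule.fg_iff_addSubgroup_fg] at h2
  exact h2

theorem finite_mod (hΛ : Λ.FG) {M : ℕ} (hM : 0 < M) :
    ∃ T : Set V, T.Finite ∧ ∀ x ∈ Λ, ∃ t ∈ T, ∃ y ∈ Λ, x = t + (M : D) • y := by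
  refine fg_induction (P := fun L => ∃ T : Set V, T.Finite ∧ ∀ x ∈ L, ∃ t ∈ T, ∃ y ∈ L,
    x = t + (M : D) • y) ⟨{0}, Set.finite_singleton _, fun x hx => ⟨0, rfl, 0, zero_mem _, ?_⟩⟩
    (fun a L _ ih => ?_) hΛ
  · simpa using hx
  · obtain ⟨T, hT, h⟩ := ih
    refine ⟨Set.image2 (fun (c : ℤ) t => c • a + t) (Set.Ico 0 (M : ℤ)) T,
      (Set.finite_Ico _ _).image2 _ hT, fun x hx => ?_⟩
    obtain ⟨_, ⟨c, rfl⟩, z, hz, rfl⟩ := AddSubgroup.mem_sup.1 hx
    obtain ⟨t, ht, y, hy, rfl⟩ := h z hz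
    have hM' : (0 : ℤ) < M := by exact_mod_cast hM
    refine ⟨(c % M) • a + t, ⟨c % M, ⟨Int.emod_nonneg _ hM'.ne', Int.emod_lt_of_pos _ hM'⟩, t, ht,
      rfl⟩, (c / M) • a + y, AddSubgroup.add_mem_sup ⟨_, rfl⟩ hy, ?_⟩
    change c • a + _ = _
    conv_lhs => rw [← Int.emod_add_mul_ediv c M]
    rw [smul_add, Nat.cast_smul_eq_nsmul, Nat.cast_smul_eq_nsmul, add_smul, mul_smul, natCast_zsmul]
    abel

theorem Ar.N_mul (A : Ar ε O N) (x y : D) : N (x * y) = N x * N y := by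
  apply Rat.cast_injective (α := D)
  rw [← A.mul_star, star_mul, mul_assoc, ← mul_assoc y, A.mul_star, (Rat.cast_commute _ _).eq,
    ← mul_assoc, A.mul_star, Rat.cast_mul]

theorem Ar.N_eq_zero (A : Ar ε O N) {x : D} : N x = 0 ↔ x = 0 := by
  rw [← Rat.cast_eq_zero (α := D), ← A.mul_star, mul_eq_zero, star_eq_zero, or_self]

theorem Ar.N_zero (A : Ar ε O N) : N 0 = 0 := A.N_eq_zero.2 rfl

theorem Ar.N_pos (A : Ar ε O N) {x : D} (hx : x ≠ 0) : 0 < N x :=
  (A.nonneg x).lt_of_ne' fun e => hx (A.N_eq_zero.1 e)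

theorem Ar.inv_mul_N (A : Ar ε O N) {x : D} (hx : x ≠ 0) : x⁻¹ * (N x : D) = star x := by
  rw [← A.mul_star, ← mul_assoc, inv_mul_cancel₀ hx, one_mul]

theorem Ar.star_mul_self (A : Ar ε O N) (x : D) : star x * x = (N x : D) := by
  by_cases hx : x = 0
  · rw [hx, A.N_zero, mul_zero, Rat.cast_zero]
  · rw [← A.inv_mul_N hx, mul_assoc, (Rat.cast_commute _ _).eq, ← mul_assoc, inv_mul_cancel₀ hx,
      one_mul]

theorem Ar.N_star (A : Ar ε O N) (x : D) : N (star x) = N x := by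
  apply Rat.cast_injective (α := D)
  rw [← A.mul_star, star_star, A.star_mul_self]

theorem Ar.N_neg (A : Ar ε O N) (x : D) : N (-x) = N x := by
  apply Rat.cast_injective (α := D)
  rw [← A.mul_star, star_neg, neg_mul_neg, A.mul_star]

theorem Ar.N_natCast (A : Ar ε O N) (k : ℕ) : N (k : D) = (k : ℚ) ^ 2 := by
  apply Rat.cast_injective (α := D)
  rw [← A.mul_star, star_natCast, Rat.cast_pow, Rat.cast_natCast, sq]

theorem Ar.N_one (A : Ar ε O N) : N 1 = 1 := by simpa using A.N_natCast 1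

theorem Ar.N_eps (A : Ar ε O N) : N ε = 1 := by
  rcases A.eps with rfl | rfl
  · exact A.N_one
  · rw [A.N_neg, A.N_one]

theorem Ar.parallelogram (A : Ar ε O N) (x y : D) : N (x + y) + N (x - y) = 2 * N x + 2 * N y := by
  apply Rat.cast_injective (α := D)
  push_cast
  simp only [← A.mul_star, star_add, star_sub]
  noncomm_ring

/-- The norm of a nonzero element of `O` is a positive integer. -/
theorem Ar.int_pos (A : Ar ε O N) {x : D} (hx : x ∈ O) (h0 : x ≠ 0) :
    ∃ k : ℕ, 0 < k ∧ N x = k ∧ x * star x = (k : D) ∧ star x * x = (k : D) := by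
  obtain ⟨k, hk⟩ := A.int x hx
  have := A.N_pos h0
  rw [hk] at this
  exact ⟨k, by exact_mod_cast this, hk, by rw [A.mul_star, hk, Rat.cast_natCast],
    by rw [A.star_mul_self, hk, Rat.cast_natCast]⟩

theorem Ar.one_le_N (A : Ar ε O N) {x : D} (hx : x ∈ O) (h0 : x ≠ 0) : 1 ≤ N x := by
  obtain ⟨k, hk, e, -⟩ := A.int_pos hx h0
  rw [e]
  exact_mod_cast hk

/-- Division with remainder. -/
theorem Ar.div (A : Ar ε O N) (a : D) {b : D} (hb : b ≠ 0) : ∃ q ∈ O, N (a - b * q) < N b := by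
  obtain ⟨q, hq, e⟩ := A.euclid (b⁻¹ * a)
  refine ⟨q, hq, ?_⟩
  have : a - b * q = b * (b⁻¹ * a - q) := by
    rw [mul_sub, ← mul_assoc, mul_inv_cancel₀ hb, one_mul]
  rw [this, A.N_mul]
  exact mul_lt_of_lt_one_right (A.N_pos hb) e

/-- Division with a nonzero remainder. -/
theorem Ar.div' (A : Ar ε O N) (a : D) {b : D} (hb : b ≠ 0) :
    ∃ q ∈ O, a - b * q ≠ 0 ∧ N (a - b * q) ≤ N b := by
  obtain ⟨q, hq, e⟩ := A.div a hb
  by_cases h0 : a - b * q = 0
  · have : a - b * (q - 1) = b := by rw [mul_sub, mul_one, ← sub_add, h0, zero_add]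
    exact ⟨q - 1, O.sub_mem hq O.one_mem, by rwa [this], by rw [this]⟩
  · exact ⟨q, hq, h0, e.le⟩

/-- Division with remainder by elements of `L`. -/
theorem Ar.divL (A : Ar ε O N) (a : D) {b : D} (hb : b ≠ 0)
    (hL : star (b⁻¹ * a) + ε * (b⁻¹ * a) = 0) :
    ∃ q ∈ O, star q + ε * q = 0 ∧ N (a - b * q) < N b := by
  obtain ⟨q, hq, hq', e⟩ := A.euclidL (b⁻¹ * a) hL
  refine ⟨q, hq, hq', ?_⟩
  have : a - b * q = b * (b⁻¹ * a - q) := by
    rw [mul_sub, ← mul_assoc, mul_inv_cancel₀ hb, one_mul]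
  rw [this, A.N_mul]
  exact mul_lt_of_lt_one_right (A.N_pos hb) e

/-- Induction on the norm. -/
theorem Ar.induction (A : Ar ε O N) {P : D → Prop}
    (hP : ∀ a ∈ O, (∀ b ∈ O, N b < N a → P b) → P a) : ∀ a ∈ O, P a := by
  have key : ∀ n : ℕ, ∀ a ∈ O, N a < n → P a := by
    intro n
    induction n with
    | zero => exact fun a _ h => absurd (A.nonneg a) (not_le.2 (by exact_mod_cast h))
    | succ n ih =>
      intro a ha h
      refine hP a ha fun b hb hba => ih b hb (hba.trans_le ?_)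
      obtain ⟨k, hk⟩ := A.int a ha
      rw [hk] at h ⊢
      exact_mod_cast Nat.lt_succ_iff.1 (by exact_mod_cast h)
  intro a ha
  obtain ⟨k, hk⟩ := A.int a ha
  exact key (k + 1) a ha (by rw [hk]; push_cast; linarith)

theorem Ar.N_eq_one (A : Ar ε O N) {a b : D} (ha : a ∈ O) (hb : b ∈ O) (e : a * b = 1) :
    N a = 1 := by
  have h1 := A.N_mul a b
  rw [e, A.N_one] at h1
  have h2 := A.one_le_N ha (left_ne_zero_of_mul_eq_one e)
  have h3 := A.one_le_N hb (right_ne_zero_of_mul_eq_one e)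
  nlinarith

theorem Ar.finite_units (A : Ar ε O N) : {a | a ∈ O ∧ N a = 1}.Finite := by
  obtain ⟨T, hT, h⟩ := finite_mod (D := D) (V := D) A.fg (M := 3) (by norm_num)
  choose! t ht y hy e using h
  refine Set.Finite.of_finite_image (f := t) (hT.subset ?_) ?_
  · rintro _ ⟨a, ha, rfl⟩
    exact ht a ha.1
  · intro a ha b hb hab
    by_contra hne
    have h1 : a - b = ((3 : ℕ) : D) * (y a - y b) := by
      conv_lhs => rw [e a ha.1, e b hb.1, hab]
      rw [smul_eq_mul, smul_eq_mul, mul_sub]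
      abel
    have h2 : y a - y b ≠ 0 := fun h0 => hne (sub_eq_zero.1 (by rw [h1, h0, mul_zero]))
    have h3 := A.one_le_N (O.sub_mem (hy a ha.1) (hy b hb.1)) h2
    have h4 := A.parallelogram a b
    have h5 := A.nonneg (a + b)
    rw [h1, A.N_mul, A.N_natCast, ha.2, hb.2] at h4
    push_cast at h4
    linarith

theorem Ar.exL_mem (A : Ar ε O N) : ∃ l ∈ O, l ≠ 0 ∧ star l + ε * l = 0 := by
  obtain ⟨x, hx, hL⟩ := A.exL
  obtain ⟨k, hk, e⟩ := A.full x
  exact ⟨_, e, mul_ne_zero (Nat.cast_ne_zero.2 hk.ne') hx, L_natCast hL k⟩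

end Pool.Agent.P.MP_d483fb_an.U
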