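import Mathlib

/-!
Hermitian forms over a division ring with involution: Eichler transformations, lattices, frames.
Modules are left modules, `h (a • x) (b • y) = a * h x y * star b`, `h y x = ε * star (h x y)`.
-/

set_option autoImplicit false
set_option linter.unusedSectionVars false
set_option linter.unusedSimpArgs false

namespace Pool.Agent.P.MP_d483fb_an.U

noncomputable section

/-- Maps linear in the first and additive in the second variable. -/
abbrev Form (D V : Type) [DivisionRing D] [AddCommGroup V] [Module D V] : Type :=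
  V →ₗ[D] (V →+ D)

variable {D V : Type} [DivisionRing D] [StarRing D] [AddCommGroup V] [Module D V]

/-- The arithmetic data: a definite norm `N` and an order `O` that is Euclidean, also on the set
`L = {x | star x + ε * x = 0}`, which is not zero. -/
structure Ar (ε : D) (O : Subring D) (N : D → ℚ) : Prop where
  eps : ε = 1 ∨ ε = -1
  mul_star : ∀ x, x * star x = (N x : D)
  nonneg : ∀ x, 0 ≤ N x
  star_mem : ∀ x ∈ O, star x ∈ O
  fg : O.toAddSubgroup.FG
  full : ∀ x, ∃ k : ℕ, 0 < k ∧ (k : D) * x ∈ O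
  int : ∀ x ∈ O, ∃ k : ℕ, N x = k
  euclid : ∀ x, ∃ o ∈ O, N (x - o) < 1
  euclidL : ∀ x, star x + ε * x = 0 → ∃ o ∈ O, star o + ε * o = 0 ∧ N (x - o) < 1
  exL : ∃ x, x ≠ 0 ∧ star x + ε * x = 0

/-- `h` is `ε`-hermitian. -/
structure Herm (ε : D) (h : Form D V) : Prop where
  eps : ε = 1 ∨ ε = -1
  conj : ∀ x y, h y x = ε * star (h x y)

/-- Admissible data of an Eichler transformation. -/
structure Val (ε : D) (h : Form D V) (z u : V) (μ : D) : Prop where
  zz : h z z = 0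
  uz : h u z = 0
  mu : star μ + ε * μ = -h u u

/-- The linear form `x ↦ h x z`. -/
def hl (h : Form D V) (z : V) : V →ₗ[D] D where
  toFun x := h x z
  map_add' x y := by rw [map_add, AddMonoidHom.add_apply]
  map_smul' a x := by rw [map_smul, AddMonoidHom.smul_apply, RingHom.id_apply]

theorem hl_apply (h : Form D V) (z x : V) : hl h z x = h x z := rfl

theorem Form.smul_left (h : Form D V) (a : D) (x y : V) : h (a • x) y = a * h x y := by
  rw [map_smul, AddMonoidHom.smul_apply, smul_eq_mul]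

theorem Form.add_left (h : Form D V) (x x' y : V) : h (x + x') y = h x y + h x' y := by
  rw [map_add, AddMonoidHom.add_apply]

theorem Form.sub_left (h : Form D V) (x x' y : V) : h (x - x') y = h x y - h x' y := by
  rw [map_sub, AddMonoidHom.sub_apply]

theorem Form.neg_left (h : Form D V) (x y : V) : h (-x) y = -h x y := by
  rw [map_neg, AddMonoidHom.neg_apply]

theorem Form.zero_left (h : Form D V) (y : V) : h 0 y = 0 := by
  rw [map_zero, AddMonoidHom.zero_apply]

variable {ε : D} {h : Form D V}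

theorem Herm.eps_mul_eps (H : Herm ε h) : ε * ε = 1 := by
  rcases H.eps with rfl | rfl <;> simp

theorem Herm.eps_eps_mul (H : Herm ε h) (a : D) : ε * (ε * a) = a := by
  rw [← mul_assoc, H.eps_mul_eps, one_mul]

theorem Herm.star_eps (H : Herm ε h) : star ε = ε := by
  rcases H.eps with rfl | rfl <;> simp

theorem Herm.comm (H : Herm ε h) (a : D) : a * ε = ε * a := by
  rcases H.eps with rfl | rfl <;> simp

theorem Herm.star_eq (H : Herm ε h) (x y : V) : star (h x y) = ε * h y x := by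
  rw [H.conj x y, H.eps_eps_mul]

theorem Herm.smul_right (H : Herm ε h) (a : D) (x y : V) : h x (a • y) = h x y * star a := by
  rw [H.conj (a • y) x, h.smul_left, star_mul, ← mul_assoc, ← H.conj]

theorem Herm.perp (H : Herm ε h) {x y : V} (e : h x y = 0) : h y x = 0 := by
  rw [H.conj, e, star_zero, mul_zero]

theorem Herm.dual_one (H : Herm ε h) {x y : V} (e : h x y = 1) : h y x = ε := by
  rw [H.conj, e, star_one, mul_one]

/-- The Eichler transformation as a linear map. -/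
def eichL (ε : D) (h : Form D V) (z u : V) (μ : D) : V →ₗ[D] V :=
  LinearMap.id + (hl h z).smulRight (u + μ • z) - (hl h u).smulRight (ε • z)

theorem eichL_apply (ε : D) (h : Form D V) (z u : V) (μ : D) (x : V) :
    eichL ε h z u μ x = x + h x z • u + (h x z * μ - h x u * ε) • z := by
  simp only [eichL, LinearMap.sub_apply, LinearMap.add_apply, LinearMap.id_apply,
    LinearMap.smulRight_apply, hl_apply, smul_add, smul_smul, sub_smul]
  abel

theorem eichL_eichL (H : Herm ε h) {z u u' : V} (μ μ' : D) (hz : h z z = 0) (hu : h u z = 0)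
    (hu' : h u' z = 0) (x : V) : eichL ε h z u μ (eichL ε h z u' μ' x) =
      eichL ε h z (u + u') (μ + μ' - ε * h u' u) x := by
  have h1 : h z u = 0 := H.perp hu
  simp only [eichL_apply, map_add, h.add_left, h.smul_left, hz, hu', h1]
  rcases H.eps with rfl | rfl <;> match_scalars <;> noncomm_ring

theorem eichL_zero (ε : D) (h : Form D V) (z x : V) : eichL ε h z 0 0 x = x := by
  simp [eichL_apply]

open Classical in
/-- The Eichler transformation `x ↦ x + h x z • u + (h x z * μ - h x u * ε) • z` (the identity when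
the data are not admissible). -/
def eich (ε : D) (h : Form D V) (z u : V) (μ : D) : V ≃ₗ[D] V :=
  if H : Herm ε h ∧ Val ε h z u μ then
    LinearEquiv.ofLinearMap (eichL ε h z u μ) (eichL ε h z (-u) (-μ - ε * h u u))
      (LinearMap.ext fun x => by
        rw [LinearMap.comp_apply, eichL_eichL H.1 _ _ H.2.zz H.2.uz
          (by rw [h.neg_left, H.2.uz, neg_zero]), add_neg_cancel, h.neg_left, LinearMap.id_apply]
        convert eichL_zero ε h z x using 2
        noncomm_ring)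
      (LinearMap.ext fun x => by
        rw [LinearMap.comp_apply, eichL_eichL H.1 _ _ H.2.zz (by rw [h.neg_left, H.2.uz, neg_zero])
          H.2.uz, neg_add_cancel, map_neg, LinearMap.id_apply]
        convert eichL_zero ε h z x using 2
        noncomm_ring)
  else 1

theorem eich_apply (H : Herm ε h) {z u : V} {μ : D} (hv : Val ε h z u μ) (x : V) :
    eich ε h z u μ x = x + h x z • u + (h x z * μ - h x u * ε) • z := by
  rw [eich, dif_pos ⟨H, hv⟩, LinearEquiv.coe_ofLinearMap, eichL_apply]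

/-- The unitary group. -/
def UG (h : Form D V) : Subgroup (V ≃ₗ[D] V) where
  carrier := {g | ∀ x y, h (g x) (g y) = h x y}
  one_mem' := fun _ _ => rfl
  mul_mem' := fun {a b} ha hb x y => (ha (b x) (b y)).trans (hb x y)
  inv_mem' := fun {a} ha x y => by
    have e := ha (a⁻¹ x) (a⁻¹ y)
    have h1 : a (a⁻¹ x) = x := a.apply_symm_apply x
    have h2 : a (a⁻¹ y) = y := a.apply_symm_apply y
    rw [← e, h1, h2]

/-- The unitary group of the additive subgroup `Λ`. -/
def UL (h : Form D V) (Λ : AddSubgroup V) : Subgroup (V ≃ₗ[D] V) where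
  carrier := {g | g ∈ UG h ∧ ∀ x, g x ∈ Λ ↔ x ∈ Λ}
  one_mem' := ⟨(UG h).one_mem, fun _ => Iff.rfl⟩
  mul_mem' := fun {a b} ha hb => ⟨(UG h).mul_mem ha.1 hb.1, fun x => (ha.2 (b x)).trans (hb.2 x)⟩
  inv_mem' := fun {a} ha => ⟨(UG h).inv_mem ha.1, fun x => by
    rw [← ha.2 (a⁻¹ x)]
    change a (a.symm x) ∈ Λ ↔ x ∈ Λ
    rw [LinearEquiv.apply_symm_apply]⟩

/-- A nondegenerate hermitian space of finite dimension and Witt index at least two. -/
structure HS (ε : D) (h : Form D V) : Prop extends Herm ε h where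
  dual : ∀ φ : V →ₗ[D] D, ∃ y, ∀ x, φ x = h x y
  fin : Module.Finite D V
  plane : ∃ x y, LinearIndependent D ![x, y] ∧ h x x = 0 ∧ h x y = 0 ∧ h y y = 0

/-- `N` is normalised by `Γ`. -/
def Nrm (Γ N : Subgroup (V ≃ₗ[D] V)) : Prop := ∀ γ ∈ Γ, ∀ x ∈ N, γ * x * γ⁻¹ ∈ N

/-- `N` contains a power of each Eichler transformation along `z`. -/
def Good (ε : D) (h : Form D V) (N : Subgroup (V ≃ₗ[D] V)) (z : V) : Prop :=
  ∀ u μ, Val ε h z u μ → ∃ m : ℕ, 0 < m ∧ eich ε h z u μ ^ m ∈ N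

/-- A subgroup of the unitary group containing a power of each Eichler transformation. -/
def Ample (ε : D) (h : Form D V) (Γ : Subgroup (V ≃ₗ[D] V)) : Prop :=
  Γ ≤ UG h ∧ ∀ z, Good ε h Γ z

/-- Every vector has a multiple in `Λ`. -/
def Full (D : Type) [DivisionRing D] [Module D V] (Λ : AddSubgroup V) : Prop :=
  ∀ x, ∃ k : ℕ, 0 < k ∧ (k : D) • x ∈ Λ

/-- An integral `O`-lattice. -/
structure Lat (ε : D) (h : Form D V) (O : Subring D) (Λ : AddSubgroup V) : Prop
    extends Herm ε h where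
  fg : Λ.FG
  full : Full D Λ
  star_mem : ∀ a ∈ O, star a ∈ O
  smul_mem : ∀ a ∈ O, ∀ x ∈ Λ, a • x ∈ Λ
  int : ∀ x ∈ Λ, ∀ y ∈ Λ, h x y ∈ O

/-- Two orthogonal hyperbolic pairs in the lattice. -/
structure Frame (h : Form D V) (Λ : AddSubgroup V) (e₁ f₁ e₂ f₂ : V) : Prop where
  me₁ : e₁ ∈ Λ
  mf₁ : f₁ ∈ Λ
  me₂ : e₂ ∈ Λ
  mf₂ : f₂ ∈ Λ
  e₁e₁ : h e₁ e₁ = 0
  f₁f₁ : h f₁ f₁ = 0
  e₂e₂ : h e₂ e₂ = 0
  f₂f₂ : h f₂ f₂ = 0
  e₁f₁ : h e₁ f₁ = 1
  e₂f₂ : h e₂ f₂ = 1
  e₁e₂ : h e₁ e₂ = 0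
  e₁f₂ : h e₁ f₂ = 0
  f₁e₂ : h f₁ e₂ = 0
  f₁f₂ : h f₁ f₂ = 0

/-- `x` is orthogonal to the two hyperbolic pairs. -/
def Perp (h : Form D V) (e₁ f₁ e₂ f₂ x : V) : Prop :=
  h x e₁ = 0 ∧ h x f₁ = 0 ∧ h x e₂ = 0 ∧ h x f₂ = 0

/-- A basis `u` of the complement of the two hyperbolic pairs, with a rescaled dual basis `w`. -/
structure Compl (h : Form D V) (Λ : AddSubgroup V) (e₁ f₁ e₂ f₂ : V) {k : ℕ} (u w : Fin k → V) :
    Prop where
  mem : ∀ j, u j ∈ Λ
  perp : ∀ j, Perp h e₁ f₁ e₂ f₂ (u j)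
  mem' : ∀ j, w j ∈ Λ
  orth : ∀ i j, i ≠ j → h (u i) (w j) = 0
  diag : ∀ j, h (u j) (w j) ≠ 0
  span : ∀ x, Perp h e₁ f₁ e₂ f₂ x → (∀ j, h x (u j) = 0) → x = 0

/-- The group generated by four root subgroups. -/
def H4 (ε : D) (h : Form D V) (O : Subring D) (e₁ f₁ e₂ f₂ : V) : Subgroup (V ≃ₗ[D] V) :=
  Subgroup.closure {g | ∃ a ∈ O, g = eich ε h e₁ (a • e₂) 0 ∨ g = eich ε h e₁ (a • f₂) 0 ∨
    g = eich ε h f₁ (a • e₂) 0 ∨ g = eich ε h f₁ (a • f₂) 0}

/-- `K` contains all Eichler transformations of level `m` along `z`. -/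
def Lvl (ε : D) (h : Form D V) (O : Subring D) (Λ : AddSubgroup V) (m : ℕ)
    (K : Subgroup (V ≃ₗ[D] V)) (z : V) : Prop :=
  ∀ u ∈ Λ, ∀ μ ∈ O, Val ε h z ((m : D) • u) ((m : D) * μ) →
    eich ε h z ((m : D) • u) ((m : D) * μ) ∈ K

/-- The principal congruence subgroup of level `M`. -/
def Cong (h : Form D V) (Λ : AddSubgroup V) (M : ℕ) : Subgroup (V ≃ₗ[D] V) where
  carrier := {g | g ∈ UL h Λ ∧ ∀ x ∈ Λ, ∃ y ∈ Λ, g x = x + (M : D) • y}
  one_mem' := ⟨(UL h Λ).one_mem, fun x _ => ⟨0, Λ.zero_mem, by simp⟩⟩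
  mul_mem' := fun {a b} ha hb => ⟨(UL h Λ).mul_mem ha.1 hb.1, fun x hx => by
    obtain ⟨y, hy, e⟩ := hb.2 x hx
    obtain ⟨y', hy', e'⟩ := ha.2 (b x) ((hb.1.2 x).2 hx)
    refine ⟨y + y', Λ.add_mem hy hy', ?_⟩
    change a (b x) = _
    rw [e', e, smul_add, add_assoc]⟩
  inv_mem' := fun {a} ha => ⟨(UL h Λ).inv_mem ha.1, fun x hx => by
    obtain ⟨y, hy, e⟩ := ha.2 (a⁻¹ x) ((((UL h Λ).inv_mem ha.1).2 x).2 hx)
    refine ⟨-y, Λ.neg_mem hy, ?_⟩
    have e' : a (a⁻¹ x) = x := a.apply_symm_apply x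
    rw [e'] at e
    rw [smul_neg, ← sub_eq_add_neg, eq_sub_iff_add_eq, ← e]⟩

/-- `g` is multiplication by a central scalar. -/
def Scal (g : V ≃ₗ[D] V) : Prop := ∃ c : D, (∀ a, a * c = c * a) ∧ ∀ x, g x = c • x

end

end Pool.Agent.P.MP_d483fb_an.U
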