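import Pool.Agent.P.MP_d483fb_an.U.Smith

set_option autoImplicit false
set_option linter.unusedSectionVars false

namespace Pool.Agent.P.MP_d483fb_an.U

variable {D V : Type} [DivisionRing D] [StarRing D] [CharZero D] [AddCommGroup V] [Module D V]
  {ε : D} {h : Form D V} {O : Subring D} {N : D → ℚ} {Λ : AddSubgroup V} {e₁ f₁ e₂ f₂ : V}

theorem Cent_shift (hΛ : Lat ε h O Λ) {m : ℕ} {K : Subgroup (V ≃ₗ[D] V)} {z p p' u : V}
    (hl : Lvl ε h O Λ m K z) (hz : h z z = 0) (hpz : h p z = 0) (hp : h p p = 0)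
    (hpz' : h p' z = 0) (hp' : h p' p' = 0) (hpΛ : p ∈ Λ) (hu : u ∈ Λ) (e : p' = p + (m : D) • u) :
    eich ε h z p' 0 * (eich ε h z p 0)⁻¹ ∈ K := by
  have H := hΛ.toHerm
  have a := Val.iso (ε := ε) hz hpz hp
  have a' := Val.iso (ε := ε) hz hpz' hp'
  have e1 : p' + -p = (m : D) • u := by rw [e]; abel
  have e2 : 0 + ε * star 0 - ε * h (-p) p' = (m : D) * (ε * h p u) := by
    rw [e, h.neg_left, map_add, H.smul_right, hp, star_natCast, star_zero,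
      (Nat.cast_commute m (ε * h p u)).eq]
    noncomm_ring
  have v := a'.add H (a.neg H)
  rw [eich_inv H a, eich_mul H a' (a.neg H)]
  rw [e1, e2] at v ⊢
  exact hl u hu _ (O.mul_mem (H.eps_mem O) (hΛ.int _ hpΛ _ hu)) v

theorem Cent_core (A : Ar ε O N) (hΛ : Lat ε h O Λ) (F : Frame h Λ e₁ f₁ e₂ f₂) {m : ℕ}
    (hm : 0 < m) {K : Subgroup (V ≃ₗ[D] V)} (hK : Nrm (UL h Λ) K) (h₁ : Lvl ε h O Λ m K e₁)
    {v₁ v₂ p q : V} (hp : p ∈ Λ) (hq : q ∈ Λ) (e1 : v₁ = e₁ + (m : D) • p)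
    (e2 : v₂ = e₂ + (m : D) • q) (h11 : h v₁ v₁ = 0) (h21 : h v₂ v₁ = 0) (h22 : h v₂ v₂ = 0)
    (hv : Lvl ε h O Λ m K v₁) {a r s : D} (ha : a ∈ O) (hr : r ∈ O) (hs : s ∈ O)
    (hw : h (((m : D) * r) • e₁ + (a + (m : D) * s) • e₂) v₁ = 0) :
    eich ε h v₁ (a • v₂) 0 * (eich ε h e₁ (a • e₂) 0)⁻¹ ∈ K := by
  have H := hΛ.toHerm
  have hmO : (m : D) ∈ O := natCast_mem O m
  have he := H.eps_mem O
  have s21 := H.perp F.e₁e₂
  set w := ((m : D) * r) • e₁ + (a + (m : D) * s) • e₂ with hwd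
  have hwΛ : w ∈ Λ := Λ.add_mem (hΛ.smul_mem _ (O.mul_mem hmO hr) _ F.me₁)
    (hΛ.smul_mem _ (O.add_mem ha (O.mul_mem hmO hs)) _ F.me₂)
  have hww : h w w = 0 := by
    simp only [hwd, map_add, AddMonoidHom.add_apply, h.smul_left, H.smul_right, F.e₁e₁, F.e₂e₂,
      F.e₁e₂, s21, zero_mul, mul_zero, add_zero]
  have hwe : h w e₁ = 0 := by
    simp only [hwd, h.add_left, h.smul_left, F.e₁e₁, s21, mul_zero, add_zero]
  have hc : ∀ x : D, x * (m : D) = m * x := fun x => (Nat.cast_commute m x).eq.symm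
  have k1 : eich ε h v₁ (a • v₂) 0 * (eich ε h v₁ w 0)⁻¹ ∈ K := by
    refine Cent_shift hΛ hv h11 hw hww (by rw [h.smul_left, h21, mul_zero])
      (by rw [h.smul_left, H.smul_right, h22, zero_mul, mul_zero]) hwΛ
      (u := a • q - r • e₁ - s • e₂) (Λ.sub_mem (Λ.sub_mem (hΛ.smul_mem _ ha _ hq)
        (hΛ.smul_mem _ hr _ F.me₁)) (hΛ.smul_mem _ hs _ F.me₂)) ?_
    rw [e2, hwd, smul_add, smul_smul, hc, add_smul, smul_sub, smul_sub, smul_smul, smul_smul,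
      smul_smul]
    abel
  have k2 : eich ε h w (-(ε • v₁)) 0 * (eich ε h w (-(ε • e₁)) 0)⁻¹ ∈ K := by
    refine Cent_shift hΛ (lvl_plane A hΛ F hm hK h₁ (O.mul_mem hmO hr)
      (O.add_mem ha (O.mul_mem hmO hs))) hww
      (by rw [h.neg_left, h.smul_left, H.perp hwe, mul_zero, neg_zero])
      (by rw [h.neg_left, h.smul_left, map_neg, H.smul_right, F.e₁e₁]; simp)
      (by rw [h.neg_left, h.smul_left, H.perp hw, mul_zero, neg_zero])
      (by rw [h.neg_left, h.smul_left, map_neg, H.smul_right, h11]; simp)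
      (Λ.neg_mem (hΛ.smul_mem _ he _ F.me₁)) (u := -(ε • p)) (Λ.neg_mem (hΛ.smul_mem _ he _ hp)) ?_
    rw [e1, smul_add, smul_neg, smul_smul, smul_smul, hc]
    abel
  have k3 : eich ε h e₁ w 0 * (eich ε h e₁ (a • e₂) 0)⁻¹ ∈ K := by
    refine Cent_shift hΛ h₁ F.e₁e₁ (by rw [h.smul_left, s21, mul_zero])
      (by rw [h.smul_left, H.smul_right, F.e₂e₂, zero_mul, mul_zero]) hwe hww
      (hΛ.smul_mem _ ha _ F.me₂) (u := r • e₁ + s • e₂)
      (Λ.add_mem (hΛ.smul_mem _ hr _ F.me₁) (hΛ.smul_mem _ hs _ F.me₂)) ?_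
    rw [hwd, smul_add, add_smul, smul_smul, smul_smul]
    abel
  rw [← eich_swap H h11 hw hww, ← eich_swap H F.e₁e₁ hwe hww] at k2
  have := K.mul_mem (K.mul_mem k1 k2) k3
  simpa only [mul_assoc, inv_mul_cancel_left] using this

/-- A congruence subgroup centralises the root elements modulo `K`. -/
theorem cent (A : Ar ε O N) (hΛ : Lat ε h O Λ) (F : Frame h Λ e₁ f₁ e₂ f₂) {m : ℕ} (hm : 0 < m)
    {K : Subgroup (V ≃ₗ[D] V)} (hK : Nrm (UL h Λ) K) (h₁ : Lvl ε h O Λ m K e₁)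
    (h₁' : Lvl ε h O Λ m K f₁) :
    ∃ M : ℕ, 0 < M ∧ ∀ a ∈ O, ∀ g ∈ Cong h Λ M,
      g * eich ε h e₁ (a • e₂) 0 * g⁻¹ * (eich ε h e₁ (a • e₂) 0)⁻¹ ∈ K := by
  have H := hΛ.toHerm
  obtain ⟨l, hlO, hl0, hl⟩ := A.exL_mem
  obtain ⟨k, hk, -, hk1, hk2⟩ := A.int_pos hlO hl0
  refine ⟨m * m * k, by positivity, fun a ha g hg => ?_⟩
  have hmO : (m : D) ∈ O := natCast_mem O m
  have hkO : (k : D) ∈ O := natCast_mem O k
  have he := H.eps_mem O
  have hc : ∀ x : D, x * (m : D) = m * x := fun x => (Nat.cast_commute m x).eq.symm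
  have hc' : ∀ x y : D, x * ((m : D) * y) = m * (x * y) := fun x y => by
    rw [← mul_assoc, hc, mul_assoc]
  have hck : ∀ x y : D, x * ((k : D) * y) = k * (x * y) := fun x y => by
    rw [← mul_assoc, ← (Nat.cast_commute k x).eq, mul_assoc]
  have hml := L_natCast hl m
  have hn : eich ε h f₁ 0 ((m : D) * l) ∈ K := by
    have := h₁' 0 Λ.zero_mem l hlO
    rw [smul_zero] at this
    exact this (Val.tv F.f₁f₁ hml)
  have hnU : eich ε h f₁ 0 ((m : D) * l) ∈ UL h Λ :=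
    eich_mem_UL hΛ F.mf₁ Λ.zero_mem (O.mul_mem hmO hlO)
  set n := eich ε h f₁ 0 ((m : D) * l) with hnd
  have hna : ∀ x, n x = x + (m : D) • (h x f₁ * l) • f₁ := fun x => by
    rw [hnd, tv_apply H F.f₁f₁ hml, smul_smul, hc']
  have hγ : n * g ∈ UL h Λ := (UL h Λ).mul_mem hnU hg.1
  obtain ⟨x₁, hx₁, e1⟩ := hg.2 e₁ F.me₁
  obtain ⟨x₂, hx₂, e2⟩ := hg.2 e₂ F.me₂
  have g1 : g e₁ ∈ Λ := (hg.1.2 _).2 F.me₁
  have g2 : g e₂ ∈ Λ := (hg.1.2 _).2 F.me₂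
  have hM : ((m * m * k : ℕ) : D) = m * (m * k) := by rw [Nat.cast_mul, Nat.cast_mul, mul_assoc]
  rw [hM] at e1 e2
  have v0 := Val.iso (ε := ε) F.e₁e₁ (u := a • e₂) (by rw [h.smul_left, H.perp F.e₁e₂, mul_zero])
    (by rw [h.smul_left, H.smul_right, F.e₂e₂, zero_mul, mul_zero])
  have hs := hΛ.int _ hx₁ _ F.mf₁
  have ht' := hΛ.int _ hx₁ _ F.me₁
  have ht := hΛ.int _ hx₁ _ F.me₂
  obtain ⟨y₀, hy₀⟩ : ∃ y₀, y₀ = (m : D) * (k * h x₁ f₁) + h x₁ e₁ * ε * star l := ⟨_, rfl⟩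
  have hy₀O : y₀ ∈ O := hy₀ ▸ O.add_mem (O.mul_mem hmO (O.mul_mem hkO hs))
    (O.mul_mem (O.mul_mem ht' he) (hΛ.star_mem _ hlO))
  obtain ⟨y, hy⟩ : ∃ y, y = 1 + (m : D) * y₀ := ⟨_, rfl⟩
  have hyO : y ∈ O := hy ▸ O.add_mem O.one_mem (O.mul_mem hmO hy₀O)
  have hY : y * star y = 1 + (m : D) * (y₀ + star y₀ + m * (y₀ * star y₀)) := by
    rw [hy, star_add, star_one, star_mul, star_natCast, hc]
    simp only [mul_add, add_mul, one_mul, mul_one, mul_assoc, hc' y₀]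
    abel
  have p1 : h ((n * g) e₁) e₁ = m * (y * l * ε) := by
    have : star l * (l * ε) = k * ε := by rw [← mul_assoc, hk2]
    rw [mul_apply', hna, e1, hy, hy₀]
    simp only [h.add_left, h.smul_left, F.e₁e₁, F.e₁f₁, H.dual_one F.e₁f₁, mul_add, add_mul,
      mul_assoc, one_mul, zero_add, this, hck _ ε, H.eps_mul_eps, mul_one]
    rw [← (Nat.cast_commute k (h x₁ e₁)).eq]
    abel
  have p2 : h ((n * g) e₁) e₂ = m * (m * (k * h x₁ e₂)) := by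
    rw [mul_apply', hna, e1]
    simp only [h.add_left, h.smul_left, F.e₁e₂, F.f₁e₂, mul_zero, add_zero, zero_add, mul_assoc]
  have key := Cent_core A hΛ F hm hK h₁ (v₁ := (n * g) e₁) (v₂ := (n * g) e₂)
    (p := ((m : D) * k) • x₁ + (h (g e₁) f₁ * l) • f₁)
    (q := ((m : D) * k) • x₂ + (h (g e₂) f₁ * l) • f₁)
    (Λ.add_mem (hΛ.smul_mem _ (O.mul_mem hmO hkO) _ hx₁)
      (hΛ.smul_mem _ (O.mul_mem (hΛ.int _ g1 _ F.mf₁) hlO) _ F.mf₁))
    (Λ.add_mem (hΛ.smul_mem _ (O.mul_mem hmO hkO) _ hx₂)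
      (hΛ.smul_mem _ (O.mul_mem (hΛ.int _ g2 _ F.mf₁) hlO) _ F.mf₁))
    (by rw [mul_apply', hna, smul_add, ← add_assoc, smul_smul (m : D) (_ * _) x₁, ← e1])
    (by rw [mul_apply', hna, smul_add, ← add_assoc, smul_smul (m : D) (_ * _) x₂, ← e2])
    ((hγ.1 _ _).trans F.e₁e₁) ((hγ.1 _ _).trans (H.perp F.e₁e₂)) ((hγ.1 _ _).trans F.e₂e₂)
    (h₁.conj hΛ hK hγ) ha
    (r := star (-(ε * star l * star y * h x₁ e₂ * star a)))
    (s := a * (y₀ + star y₀ + m * (y₀ * star y₀)))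
    (hΛ.star_mem _ (O.neg_mem (O.mul_mem (O.mul_mem (O.mul_mem (O.mul_mem he (hΛ.star_mem _ hlO))
      (hΛ.star_mem _ hyO)) ht) (hΛ.star_mem _ ha))))
    (O.mul_mem ha (O.add_mem (O.add_mem hy₀O (hΛ.star_mem _ hy₀O))
      (O.mul_mem hmO (O.mul_mem hy₀O (hΛ.star_mem _ hy₀O))))) (by
      apply H.perp
      have q1 : a + (m : D) * (a * (y₀ + star y₀ + m * (y₀ * star y₀))) = a * (y * star y) := by
        rw [hY, mul_add a 1, mul_one, hc' a]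
      have q2 : l * (star l * (star y * (h x₁ e₂ * star a))) =
          k * (star y * (h x₁ e₂ * star a)) := by rw [← mul_assoc, hk1]
      have q3 : h x₁ e₂ * (y * (star y * star a)) = y * (star y * (h x₁ e₂ * star a)) := by
        rw [← mul_assoc y, ← mul_assoc y, A.mul_star, ← mul_assoc, ← mul_assoc,
          (Rat.cast_commute (N y) (h x₁ e₂)).eq]
      rw [q1, map_add, H.smul_right, H.smul_right, p1, p2, star_mul, star_star, star_natCast,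
        star_mul a, star_mul y, star_star, hc]
      simp only [mul_assoc, mul_neg, hc', H.eps_eps_mul, q2, hck y]
      rw [q3, neg_add_cancel])
  rw [← map_smul, ← eich_conj H hγ.1 v0] at key
  have r0 : eich ε h e₁ (a • e₂) 0 ∈ UL h Λ :=
    eich_mem_UL hΛ F.me₁ (hΛ.smul_mem _ ha _ F.me₂) O.zero_mem
  set r := eich ε h e₁ (a • e₂) 0
  have k1 := K.mul_mem (K.mul_mem (K.inv_mem hn) key) (hK r r0 n hn)
  have : n⁻¹ * (n * g * r * (n * g)⁻¹ * r⁻¹) * (r * n * r⁻¹) = g * r * g⁻¹ * r⁻¹ := by group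
  rwa [this] at k1

end Pool.Agent.P.MP_d483fb_an.U
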