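import Pool.Agent.P.MP_d483fb_an.U.Arith
import Pool.Agent.P.MP_d483fb_an.Congr

set_option autoImplicit false
set_option linter.unusedSectionVars false

namespace Pool.Agent.P.MP_d483fb_an.U

variable {D V : Type} [DivisionRing D] [StarRing D] [CharZero D] [AddCommGroup V] [Module D V]
  {ε : D} {h : Form D V} {O : Subring D} {N : D → ℚ} {Λ : AddSubgroup V} {e₁ f₁ e₂ f₂ : V}

theorem congr_dvd_smul {k n : ℕ} (hk : k ∣ n) {v : V} (hv : (k : D) • v ∈ Λ) :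
    (n : D) • v ∈ Λ := by
  obtain ⟨c, rfl⟩ := hk
  rw [mul_comm, Nat.cast_mul, mul_smul]
  exact natCast_smul_mem hv c

theorem congr_fg_map (hΛ : Λ.FG) (φ : V →+ V) : (Λ.map φ).FG := by
  classical
  obtain ⟨s, rfl⟩ := hΛ
  exact ⟨s.image φ, by rw [Finset.coe_image, AddMonoidHom.map_closure]⟩

theorem cong_le {M M' : ℕ} (hM : M ∣ M') : Cong h Λ M' ≤ Cong h Λ M := by
  obtain ⟨k, rfl⟩ := hM
  refine fun g hg => ⟨hg.1, fun x hx => ?_⟩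
  obtain ⟨y, hy, e⟩ := hg.2 x hx
  exact ⟨(k : D) • y, natCast_smul_mem hy k, by rw [e, Nat.cast_mul, mul_smul]⟩

theorem cong_nrm (M : ℕ) : Nrm (UL h Λ) (Cong h Λ M) := by
  refine fun γ hγ g hg => ⟨(UL h Λ).mul_mem ((UL h Λ).mul_mem hγ hg.1) ((UL h Λ).inv_mem hγ),
    fun x hx => ?_⟩
  obtain ⟨y, hy, e⟩ := hg.2 (γ⁻¹ x) ((((UL h Λ).inv_mem hγ).2 x).2 hx)
  refine ⟨γ y, (hγ.2 y).2 hy, ?_⟩
  rw [mul_apply', mul_apply', e, map_add, map_smul, apply_inv_apply']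

theorem cong_relIndex (hΛ : Λ.FG) {M : ℕ} (hM : 0 < M) :
    (Cong h Λ M).relIndex (UL h Λ) ≠ 0 := by
  obtain ⟨T, hT, h'⟩ := finite_mod (D := D) hΛ hM
  obtain ⟨s, hs⟩ := hΛ
  have := hT.to_subtype
  choose t ht y hy e using h'
  have hm : ∀ (g : UL h Λ) (x : s), (g : V ≃ₗ[D] V) x ∈ Λ := fun g x =>
    (g.2.2 x).2 (hs ▸ AddSubgroup.subset_closure x.2)
  refine Congr_relIndex_ne_zero (F := s → T) (fun g x => ⟨t _ (hm g x), ht _ _⟩)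
    fun g g' hg => ⟨(g⁻¹ * g').2, fun x hx => ?_⟩
  rw [← hs] at hx
  induction hx using AddSubgroup.closure_induction with
  | mem x hx =>
    have h1 : t _ (hm g ⟨x, hx⟩) = t _ (hm g' ⟨x, hx⟩) :=
      congrArg Subtype.val (congrFun hg ⟨x, hx⟩)
    have h2 := e _ (hm g ⟨x, hx⟩)
    have h3 := e _ (hm g' ⟨x, hx⟩)
    refine ⟨(g : V ≃ₗ[D] V)⁻¹ (y _ (hm g' ⟨x, hx⟩) - y _ (hm g ⟨x, hx⟩)),
      (((UL h Λ).inv_mem g.2).2 _).2 (Λ.sub_mem (hy _ _) (hy _ _)), ?_⟩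
    have h4 : (g' : V ≃ₗ[D] V) x = (g : V ≃ₗ[D] V) x +
        (M : D) • (y _ (hm g' ⟨x, hx⟩) - y _ (hm g ⟨x, hx⟩)) := by
      rw [smul_sub, ← sub_eq_iff_eq_add'.2 h2, ← sub_eq_iff_eq_add'.2 h3, h1]
      abel
    refine (congrArg (fun v => (g : V ≃ₗ[D] V)⁻¹ v) h4).trans ?_
    simp only [map_add, map_smul, inv_apply_apply']
  | zero => exact ⟨0, Λ.zero_mem, by simp⟩
  | add x x' _ _ h1 h2 =>
    obtain ⟨a, ha, e1⟩ := h1
    obtain ⟨b, hb, e2⟩ := h2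
    refine ⟨a + b, Λ.add_mem ha hb, ?_⟩
    rw [map_add, e1, e2, smul_add]
    abel
  | neg x _ h1 =>
    obtain ⟨a, ha, e1⟩ := h1
    refine ⟨-a, Λ.neg_mem ha, ?_⟩
    rw [map_neg, e1, smul_neg, neg_add]

theorem exists_smul_mem {L : AddSubgroup V} (hL : Full D L) (hΛ : Λ.FG) :
    ∃ k : ℕ, 0 < k ∧ ∀ x ∈ Λ, (k : D) • x ∈ L := by
  refine fg_induction (P := fun Λ' => ∃ k : ℕ, 0 < k ∧ ∀ x ∈ Λ', (k : D) • x ∈ L)
    ⟨1, one_pos, fun x hx => ?_⟩ (fun a Λ' _ ih => ?_) hΛ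
  · have : x = 0 := by simpa using hx
    simp [this]
  · obtain ⟨k, hk, h1⟩ := ih
    obtain ⟨l, hl, h2⟩ := hL a
    refine ⟨k * l, mul_pos hk hl, fun x hx => ?_⟩
    obtain ⟨_, ⟨c, rfl⟩, z, hz, rfl⟩ := AddSubgroup.mem_sup.1 hx
    rw [smul_add]
    refine L.add_mem (congr_dvd_smul (Dvd.intro_left k rfl) ?_)
      (congr_dvd_smul (Dvd.intro l rfl) (h1 z hz))
    change (l : D) • (c • a) ∈ L
    rw [smul_comm]
    exact L.zsmul_mem h2 c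

/-- The groups of two lattices are commensurable. -/
theorem UL_relIndex {L : AddSubgroup V} (hL : L.FG) (hL' : Full D L) (hΛ : Λ.FG) (hΛ' : Full D Λ) :
    (UL h L).relIndex (UL h Λ) ≠ 0 := by
  obtain ⟨k, hk, h1⟩ := exists_smul_mem hL' hΛ
  obtain ⟨l, hl, h2⟩ := exists_smul_mem hΛ' hL
  have key : ∀ g ∈ Cong h Λ (l * k), ∀ x ∈ L, g x ∈ L := by
    intro g hg x hx
    obtain ⟨y, hy, e⟩ := hg.2 _ (h2 x hx)
    have hl' : (l : D) ≠ 0 := by exact_mod_cast hl.ne'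
    rw [map_smul, Nat.cast_mul, mul_smul, ← smul_add] at e
    rw [smul_right_injective V hl' e]
    exact L.add_mem hx (h1 y hy)
  have hle : Cong h Λ (l * k) ≤ UL h L := fun g hg => ⟨hg.1.1, fun x => ⟨fun hx => by
    have := key g⁻¹ ((Cong h Λ (l * k)).inv_mem hg) _ hx
    rwa [inv_apply_apply'] at this, key g hg x⟩⟩
  exact fun h0 => cong_relIndex hΛ (mul_pos hl hk) (Subgroup.relIndex_eq_zero_of_le_left hle h0)

theorem congr_pow_mem (H : Herm ε h) (hΛ : Λ.FG) (hΛ' : Full D Λ) {z u : V} {μ : D}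
    (a : Val ε h z u μ) :
    ∃ k : ℕ, 0 < k ∧ ∀ n : ℕ, k ∣ n → ∀ x ∈ Λ, (eich ε h z u μ ^ n) x ∈ Λ := by
  have h0 : ∀ (y : V) (c : D) (w : V), ∃ k : ℕ, 0 < k ∧ ∀ x ∈ Λ,
      (k : D) • ((h x y * c) • w) ∈ Λ := by
    intro y c w
    obtain ⟨k, hk, h'⟩ := exists_smul_mem hΛ'
      (congr_fg_map hΛ ((hl h y).smulRight (c • w)).toAddMonoidHom)
    refine ⟨k, hk, fun x hx => ?_⟩
    rw [mul_smul]
    exact h' _ (AddSubgroup.mem_map_of_mem _ hx)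
  obtain ⟨k₁, hk₁, h1⟩ := h0 z 1 u
  obtain ⟨k₂, hk₂, h2⟩ := h0 z μ z
  obtain ⟨k₃, hk₃, h3⟩ := h0 z (ε * h u u) z
  obtain ⟨k₄, hk₄, h4⟩ := h0 u ε z
  refine ⟨2 * (k₁ * k₂ * k₃ * k₄), by positivity, fun n hn x hx => ?_⟩
  obtain ⟨j, rfl⟩ := hn
  obtain ⟨b, e⟩ := eich_pow H a (2 * (k₁ * k₂ * k₃ * k₄) * j)
  have hc : k₃ ∣ (2 * (k₁ * k₂ * k₃ * k₄) * j).choose 2 := by
    rw [Nat.choose_two_right, mul_assoc 2, mul_assoc 2, Nat.mul_div_cancel_left _ two_pos]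
    exact ⟨k₁ * k₂ * k₄ * j * (2 * (k₁ * k₂ * k₃ * k₄ * j) - 1), by ring⟩
  have d1 : k₁ ∣ 2 * (k₁ * k₂ * k₃ * k₄) * j := ⟨2 * k₂ * k₃ * k₄ * j, by ring⟩
  have d2 : k₂ ∣ 2 * (k₁ * k₂ * k₃ * k₄) * j := ⟨2 * k₁ * k₃ * k₄ * j, by ring⟩
  have d4 : k₄ ∣ 2 * (k₁ * k₂ * k₃ * k₄) * j := ⟨2 * k₁ * k₂ * k₃ * j, by ring⟩
  rw [e, eich_apply H b]
  generalize (2 * (k₁ * k₂ * k₃ * k₄) * j).choose 2 = C at hc ⊢
  generalize 2 * (k₁ * k₂ * k₃ * k₄) * j = n at d1 d2 d4 ⊢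
  have e' : x + h x z • (n : D) • u +
      (h x z * ((n : D) * μ - (C : D) * (ε * h u u)) - h x ((n : D) • u) * ε) • z =
      x + (n : D) • ((h x z * 1) • u) + (n : D) • ((h x z * μ) • z) -
        (C : D) • ((h x z * (ε * h u u)) • z) - (n : D) • ((h x u * ε) • z) := by
    rw [H.smul_right, star_natCast, mul_sub, ← mul_assoc (h x z), ← mul_assoc (h x z),
      ← (Nat.cast_commute n (h x z)).eq, ← (Nat.cast_commute C (h x z)).eq,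
      ← (Nat.cast_commute n (h x u)).eq, mul_one, smul_smul (h x z),
      ← (Nat.cast_commute n (h x z)).eq]
    simp only [sub_smul, smul_smul, mul_assoc]
    abel
  rw [e']
  exact Λ.sub_mem (Λ.sub_mem (Λ.add_mem (Λ.add_mem hx (congr_dvd_smul d1 (h1 x hx)))
    (congr_dvd_smul d2 (h2 x hx))) (congr_dvd_smul hc (h3 x hx))) (congr_dvd_smul d4 (h4 x hx))

theorem ample_of_relIndex (H : Herm ε h) (hΛ : Λ.FG) (hΛ' : Full D Λ) {Γ : Subgroup (V ≃ₗ[D] V)}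
    (hΓ : Γ ≤ UL h Λ) (hi : Γ.relIndex (UL h Λ) ≠ 0) : Ample ε h Γ := by
  refine ⟨fun g hg => (hΓ hg).1, fun z u μ a => ?_⟩
  obtain ⟨k, hk, h1⟩ := congr_pow_mem H hΛ hΛ' a
  obtain ⟨l, hl, h2⟩ := congr_pow_mem H hΛ hΛ' (a.neg H)
  have hmem : eich ε h z u μ ^ (k * l) ∈ UL h Λ := by
    refine ⟨(UG h).pow_mem (eich_mem_UG z u μ) _, fun x => ⟨fun hx => ?_, fun hx =>
      h1 _ (Dvd.intro l rfl) x hx⟩⟩
    have := h2 (k * l) (Dvd.intro_left k rfl) _ hx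
    rwa [← eich_inv H a, inv_pow, inv_apply_apply'] at this
  obtain ⟨n, hn, -, h'⟩ := Subgroup.exists_pow_mem_of_relIndex_ne_zero hi hmem
  refine ⟨k * l * n, by positivity, ?_⟩
  rw [pow_mul]
  exact h'.1

end Pool.Agent.P.MP_d483fb_an.U
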