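import Pool.Agent.P.MP_d483fb_an.U.Base

/-! Basic properties of Eichler transformations and of the norm. -/

set_option autoImplicit false
set_option linter.unusedSectionVars false
set_option linter.unusedSimpArgs false

namespace Pool.Agent.P.MP_d483fb_an.U

variable {D V : Type} [DivisionRing D] [StarRing D] [AddCommGroup V] [Module D V]
  {ε : D} {h : Form D V} {O : Subring D} {N : D → ℚ} {Λ : AddSubgroup V}

theorem mul_apply' (g g' : V ≃ₗ[D] V) (x : V) : (g * g') x = g (g' x) := rfl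

theorem one_apply' (x : V) : (1 : V ≃ₗ[D] V) x = x := rfl

theorem apply_inv_apply' (g : V ≃ₗ[D] V) (x : V) : g (g⁻¹ x) = x := g.apply_symm_apply x

theorem inv_apply_apply' (g : V ≃ₗ[D] V) (x : V) : g⁻¹ (g x) = x := g.symm_apply_apply x

theorem mem_UG {g : V ≃ₗ[D] V} : g ∈ UG h ↔ ∀ x y, h (g x) (g y) = h x y := Iff.rfl

theorem mem_UL {g : V ≃ₗ[D] V} : g ∈ UL h Λ ↔ g ∈ UG h ∧ ∀ x, g x ∈ Λ ↔ x ∈ Λ := Iff.rfl

theorem mem_Cong {M : ℕ} {g : V ≃ₗ[D] V} :
    g ∈ Cong h Λ M ↔ g ∈ UL h Λ ∧ ∀ x ∈ Λ, ∃ y ∈ Λ, g x = x + (M : D) • y := Iff.rfl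

theorem UG_left {g : V ≃ₗ[D] V} (hg : g ∈ UG h) (x y : V) : h (g x) y = h x (g⁻¹ y) := by
  rw [← hg x (g⁻¹ y), apply_inv_apply']

theorem UG_right {g : V ≃ₗ[D] V} (hg : g ∈ UG h) (x y : V) : h x (g y) = h (g⁻¹ x) y := by
  rw [← hg (g⁻¹ x) y, apply_inv_apply']

/-! ### Admissible data -/

theorem Val.add (H : Herm ε h) {z u u' : V} {μ μ' : D} (a : Val ε h z u μ) (b : Val ε h z u' μ') :
    Val ε h z (u + u') (μ + μ' - ε * h u' u) := by
  refine ⟨a.zz, by rw [h.add_left, a.uz, b.uz, add_zero], ?_⟩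
  have h1 := eq_sub_of_add_eq a.mu
  have h2 := eq_sub_of_add_eq b.mu
  simp only [star_sub, star_add, star_mul, H.star_eps, H.star_eq, h1, h2, map_add,
    AddMonoidHom.add_apply]
  rcases H.eps with rfl | rfl <;> noncomm_ring

theorem Val.neg (H : Herm ε h) {z u : V} {μ : D} (a : Val ε h z u μ) :
    Val ε h z (-u) (ε * star μ) := by
  refine ⟨a.zz, by rw [h.neg_left, a.uz, neg_zero], ?_⟩
  rw [star_mul, star_star, H.star_eps, H.eps_eps_mul, H.comm, add_comm, a.mu, h.neg_left, map_neg,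
    neg_neg]

/-- Data of a transvection. -/
theorem Val.tv {z : V} {l : D} (hz : h z z = 0) (hl : star l + ε * l = 0) : Val ε h z 0 l :=
  ⟨hz, h.zero_left z, by rw [hl, h.zero_left, neg_zero]⟩

theorem Val.tv_L {z : V} {l : D} (a : Val ε h z 0 l) : star l + ε * l = 0 := by
  rw [a.mu, h.zero_left, neg_zero]

/-- Data given by two orthogonal isotropic vectors. -/
theorem Val.iso {z u : V} (hz : h z z = 0) (huz : h u z = 0) (hu : h u u = 0) : Val ε h z u 0 :=
  ⟨hz, huz, by rw [hu, star_zero, mul_zero, add_zero, neg_zero]⟩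

theorem Val.sub_L {z u : V} {μ μ' : D} (a : Val ε h z u μ) (b : Val ε h z u μ') :
    star (μ - μ') + ε * (μ - μ') = 0 := by
  rw [star_sub, mul_sub, sub_add_sub_comm, a.mu, b.mu, sub_self]

theorem Val.add_L {z u : V} {μ l : D} (a : Val ε h z u μ) (hl : star l + ε * l = 0) :
    Val ε h z u (μ + l) :=
  ⟨a.zz, a.uz, by rw [star_add, mul_add, add_add_add_comm, a.mu, hl, add_zero]⟩

theorem Val.conj {g : V ≃ₗ[D] V} (hg : g ∈ UG h) {z u : V} {μ : D} (a : Val ε h z u μ) :
    Val ε h (g z) (g u) μ :=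
  ⟨by rw [hg, a.zz], by rw [hg, a.uz], by rw [hg, a.mu]⟩

theorem Val.smul_left (H : Herm ε h) {z u : V} {μ : D} (c : D) (hz : h z z = 0) (hu : h u z = 0)
    (a : Val ε h (c • z) u μ) : Val ε h z (star c • u) (star c * μ * c) := by
  refine ⟨hz, by rw [h.smul_left, hu, mul_zero], ?_⟩
  have h1 := eq_sub_of_add_eq a.mu
  simp only [star_mul, star_star, h.smul_left, H.smul_right, h1]
  rcases H.eps with rfl | rfl <;> noncomm_ring

theorem Val.add_smul (H : Herm ε h) {z u : V} {μ : D} (c : D)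
    (a : Val ε h z u (μ + c - ε * star c)) : Val ε h z (u + c • z) μ := by
  refine ⟨a.zz, by rw [h.add_left, h.smul_left, a.uz, a.zz, mul_zero, add_zero], ?_⟩
  have h1 := a.mu
  simp only [map_add, AddMonoidHom.add_apply, h.smul_left, H.smul_right, a.uz, a.zz, H.perp a.uz,
    mul_zero, zero_mul, add_zero]
  rw [← h1]
  simp only [star_sub, star_add, star_mul, star_star, H.star_eps]
  rcases H.eps with rfl | rfl <;> noncomm_ring

theorem L_conj (H : Herm ε h) {l : D} (hl : star l + ε * l = 0) (a : D) :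
    star (star a * l * a) + ε * (star a * l * a) = 0 := by
  have h1 := eq_neg_of_add_eq_zero_left hl
  simp only [star_mul, star_star, h1]
  rcases H.eps with rfl | rfl <;> noncomm_ring

theorem L_sub (H : Herm ε h) (x : D) : star (x - ε * star x) + ε * (x - ε * star x) = 0 := by
  simp only [star_sub, star_mul, star_star, H.star_eps]
  rcases H.eps with rfl | rfl <;> noncomm_ring

theorem L_natCast {l : D} (hl : star l + ε * l = 0) (k : ℕ) :
    star ((k : D) * l) + ε * ((k : D) * l) = 0 := by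
  rw [star_mul, star_natCast, ← (Nat.cast_commute k (star l)).eq, ← mul_assoc,
    ← (Nat.cast_commute k ε).eq, mul_assoc, ← mul_add, hl, mul_zero]

theorem L_neg {l : D} (hl : star l + ε * l = 0) : star (-l) + ε * (-l) = 0 := by
  rw [star_neg, mul_neg, ← neg_add, hl, neg_zero]

theorem L_add {l l' : D} (hl : star l + ε * l = 0) (hl' : star l' + ε * l' = 0) :
    star (l + l') + ε * (l + l') = 0 := by
  rw [star_add, mul_add, add_add_add_comm, hl, hl', add_zero]

/-- The canonical third argument. -/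
theorem Val.can [CharZero D] (H : Herm ε h) {z u : V} (hz : h z z = 0) (hu : h u z = 0) :
    Val ε h z u (-(ε * h u u * 2⁻¹)) := by
  refine ⟨hz, hu, ?_⟩
  have h2 : star (2⁻¹ : D) = 2⁻¹ := by rw [star_inv₀, star_ofNat]
  have h3 : ∀ a : D, (2⁻¹ : D) * a = a * 2⁻¹ := fun a => (Commute.ofNat_left 2 a).inv_left₀.eq
  have h4 : (2⁻¹ : D) + 2⁻¹ = 1 := by
    rw [← two_mul, mul_inv_cancel₀ two_ne_zero]
  simp only [star_neg, star_mul, h2, H.star_eps, H.star_eq, h3]
  rw [H.comm, H.eps_eps_mul, mul_neg, mul_assoc, H.eps_eps_mul, ← neg_add, ← mul_add, h4, mul_one]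

/-! ### Eichler transformations -/

theorem eich_mem_UG (z u : V) (μ : D) : eich ε h z u μ ∈ UG h := by
  by_cases H : Herm ε h ∧ Val ε h z u μ
  · obtain ⟨H, a⟩ := H
    intro x y
    have h1 := eq_sub_of_add_eq a.mu
    simp only [eich_apply H a, map_add, AddMonoidHom.add_apply, h.smul_left, H.smul_right, a.zz,
      a.uz, H.perp a.uz, star_sub, star_mul, H.star_eps, H.star_eq, h1]
    rcases H.eps with rfl | rfl <;> noncomm_ring
  · rw [eich, dif_neg H]
    exact (UG h).one_mem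

theorem eich_mul (H : Herm ε h) {z u u' : V} {μ μ' : D} (a : Val ε h z u μ) (b : Val ε h z u' μ') :
    eich ε h z u μ * eich ε h z u' μ' = eich ε h z (u + u') (μ + μ' - ε * h u' u) := by
  ext x
  have e := eichL_eichL H μ μ' a.zz a.uz b.uz x
  simp only [eichL_apply] at e
  rw [mul_apply', eich_apply H (a.add H b), eich_apply H a, eich_apply H b]
  exact e

theorem eich_zero_right (z : V) : eich ε h z 0 0 = 1 := by
  by_cases H : Herm ε h ∧ Val ε h z 0 0
  · ext x
    simp [eich_apply H.1 H.2]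
  · rw [eich, dif_neg H]

theorem eich_zero_left (u : V) (μ : D) : eich ε h 0 u μ = 1 := by
  by_cases H : Herm ε h ∧ Val ε h 0 u μ
  · ext x
    simp [eich_apply H.1 H.2]
  · rw [eich, dif_neg H]

theorem eich_inv (H : Herm ε h) {z u : V} {μ : D} (a : Val ε h z u μ) :
    (eich ε h z u μ)⁻¹ = eich ε h z (-u) (ε * star μ) := by
  rw [inv_eq_iff_mul_eq_one, eich_mul H a (a.neg H), add_neg_cancel, h.neg_left,
    eq_sub_of_add_eq a.mu, ← eich_zero_right (ε := ε) (h := h) z]
  congr 1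
  rcases H.eps with rfl | rfl <;> noncomm_ring

/-- Transvections along `z` split off. -/
theorem eich_add_L (H : Herm ε h) {z u : V} {μ l : D} (a : Val ε h z u μ)
    (hl : star l + ε * l = 0) : eich ε h z u (μ + l) = eich ε h z u μ * eich ε h z 0 l := by
  rw [eich_mul H a (Val.tv a.zz hl), add_zero, h.zero_left, mul_zero, sub_zero]

theorem eich_add_L' (H : Herm ε h) {z u : V} {μ l : D} (a : Val ε h z u μ)
    (hl : star l + ε * l = 0) : eich ε h z u (μ + l) = eich ε h z 0 l * eich ε h z u μ := by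
  rw [eich_mul H (Val.tv a.zz hl) a, zero_add, map_zero, mul_zero, sub_zero, add_comm]

theorem tv_apply (H : Herm ε h) {z : V} {l : D} (hz : h z z = 0) (hl : star l + ε * l = 0) (x : V) :
    eich ε h z 0 l x = x + (h x z * l) • z := by
  rw [eich_apply H (Val.tv hz hl), smul_zero, add_zero, map_zero, zero_mul, sub_zero]

theorem tv_inv (H : Herm ε h) {z : V} {l : D} (hz : h z z = 0) (hl : star l + ε * l = 0) :
    (eich ε h z 0 l)⁻¹ = eich ε h z 0 (-l) := by
  rw [eich_inv H (Val.tv hz hl), neg_zero, eq_neg_of_add_eq_zero_left hl, mul_neg, H.eps_eps_mul]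

theorem tv_pow (H : Herm ε h) {z : V} {l : D} (hz : h z z = 0) (hl : star l + ε * l = 0) (k : ℕ) :
    eich ε h z 0 l ^ k = eich ε h z 0 ((k : D) * l) := by
  induction k with
  | zero => simp [eich_zero_right]
  | succ k ih =>
    rw [pow_succ, ih, ← eich_add_L H (Val.tv hz (L_natCast hl k)) hl, Nat.cast_succ, add_mul,
      one_mul]

theorem iso_apply (H : Herm ε h) {z u : V} (hz : h z z = 0) (huz : h u z = 0) (hu : h u u = 0)
    (x : V) : eich ε h z u 0 x = x + h x z • u - (h x u * ε) • z := by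
  rw [eich_apply H (Val.iso hz huz hu), mul_zero, zero_sub, neg_smul, sub_eq_add_neg]

/-- Powers have the form `E (z, k u, k μ - ε (k choose 2) h u u)`. -/
theorem eich_pow (H : Herm ε h) {z u : V} {μ : D} (a : Val ε h z u μ) (k : ℕ) :
    Val ε h z ((k : D) • u) ((k : D) * μ - (k.choose 2 : D) * (ε * h u u)) ∧
      eich ε h z u μ ^ k =
        eich ε h z ((k : D) • u) ((k : D) * μ - (k.choose 2 : D) * (ε * h u u)) := by
  induction k with
  | zero =>
    simp only [Nat.cast_zero, zero_smul, zero_mul, Nat.choose_zero_succ, sub_zero, pow_zero,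
      eich_zero_right, and_true]
    exact Val.tv a.zz (by simp)
  | succ k ih =>
    have e1 : ((k + 1 : ℕ) : D) • u = (k : D) • u + u := by rw [Nat.cast_succ, add_smul, one_smul]
    have e2 : ((k + 1 : ℕ) : D) * μ - ((k + 1).choose 2 : D) * (ε * h u u) =
        (k : D) * μ - (k.choose 2 : D) * (ε * h u u) + μ - ε * h u ((k : D) • u) := by
      rw [H.smul_right, star_natCast, ← (Nat.cast_commute k (h u u)).eq, Nat.choose_succ_succ',
        Nat.choose_one_right, Nat.cast_add k (k.choose (1 + 1)), Nat.cast_succ]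
      rcases H.eps with rfl | rfl <;> noncomm_ring
    rw [e1, e2, pow_succ, ih.2]
    exact ⟨ih.1.add H a, eich_mul H ih.1 a⟩

theorem iso_pow (H : Herm ε h) {z u : V} (hz : h z z = 0) (huz : h u z = 0) (hu : h u u = 0)
    (k : ℕ) : eich ε h z u 0 ^ k = eich ε h z ((k : D) • u) 0 := by
  rw [(eich_pow H (Val.iso hz huz hu) k).2, hu]
  simp

theorem eich_conj (H : Herm ε h) {g : V ≃ₗ[D] V} (hg : g ∈ UG h) {z u : V} {μ : D}
    (a : Val ε h z u μ) : g * eich ε h z u μ * g⁻¹ = eich ε h (g z) (g u) μ := by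
  ext x
  rw [mul_apply', mul_apply', eich_apply H a, eich_apply H (a.conj hg), UG_right hg x z,
    UG_right hg x u]
  simp only [map_add, map_smul, apply_inv_apply']

theorem eich_smul_left (H : Herm ε h) {z u : V} {μ : D} (c : D) (hz : h z z = 0) (hu : h u z = 0)
    (a : Val ε h (c • z) u μ) :
    eich ε h (c • z) u μ = eich ε h z (star c • u) (star c * μ * c) := by
  ext x
  rw [eich_apply H a, eich_apply H (a.smul_left H c hz hu)]
  simp only [H.smul_right, star_star]
  rcases H.eps with rfl | rfl <;> match_scalars <;> noncomm_ring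

theorem eich_add_smul (H : Herm ε h) {z u : V} {μ : D} (c : D)
    (a : Val ε h z u (μ + c - ε * star c)) :
    eich ε h z (u + c • z) μ = eich ε h z u (μ + c - ε * star c) := by
  ext x
  rw [eich_apply H a, eich_apply H (a.add_smul H c)]
  simp only [map_add, H.smul_right]
  rcases H.eps with rfl | rfl <;> match_scalars <;> noncomm_ring

theorem eich_swap (H : Herm ε h) {z u : V} (hz : h z z = 0) (huz : h u z = 0) (hu : h u u = 0) :
    eich ε h z u 0 = eich ε h u (-(ε • z)) 0 := by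
  ext x
  rw [iso_apply H hz huz hu, iso_apply H hu (by rw [h.neg_left, h.smul_left, H.perp huz]; simp)
    (by rw [h.neg_left, h.smul_left, map_neg, H.smul_right, hz]; simp)]
  simp only [map_neg, H.smul_right, H.star_eps]
  rcases H.eps with rfl | rfl <;> match_scalars <;> noncomm_ring

/-- The commutator of two Eichler transformations along `z` is a transvection. -/
theorem eich_comm (H : Herm ε h) {z u u' : V} {μ μ' : D} (a : Val ε h z u μ)
    (b : Val ε h z u' μ') :
    star (ε * h u u' - ε * h u' u) + ε * (ε * h u u' - ε * h u' u) = 0 ∧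
      eich ε h z u μ * eich ε h z u' μ' * (eich ε h z u μ)⁻¹ * (eich ε h z u' μ')⁻¹ =
        eich ε h z 0 (ε * h u u' - ε * h u' u) := by
  have hl : star (ε * h u u' - ε * h u' u) + ε * (ε * h u u' - ε * h u' u) = 0 := by
    simp only [star_sub, star_mul, H.star_eps, H.star_eq]
    rcases H.eps with rfl | rfl <;> noncomm_ring
  refine ⟨hl, ?_⟩
  rw [mul_inv_eq_iff_eq_mul, mul_inv_eq_iff_eq_mul, mul_assoc, eich_mul H a b, eich_mul H b a,
    ← eich_add_L' H (b.add H a) hl, add_comm u' u]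
  congr 1
  noncomm_ring

/-- A transvection along a sum of two orthogonal isotropic vectors. -/
theorem tv_add (H : Herm ε h) {x y : V} {l : D} (hx : h x x = 0) (hyx : h y x = 0) (hy : h y y = 0)
    (hl : star l + ε * l = 0) :
    eich ε h (x + y) 0 l = eich ε h y 0 l * eich ε h x (l • y) 0 * eich ε h x 0 l := by
  ext v
  have hxy := H.perp hyx
  have h1 := eq_neg_of_add_eq_zero_left hl
  rw [mul_apply', mul_apply', tv_apply H hy hl, tv_apply H hx hl,
    tv_apply H (by simp [hx, hy, hxy, hyx]) hl,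
    iso_apply H hx (by rw [h.smul_left, hyx, mul_zero])
      (by rw [h.smul_left, H.smul_right, hy, zero_mul, mul_zero])]
  simp only [map_add, map_sub, AddMonoidHom.add_apply, AddMonoidHom.sub_apply, h.smul_left,
    H.smul_right, hx, hy, hxy, hyx, h1]
  rcases H.eps with rfl | rfl <;> match_scalars <;> noncomm_ring

theorem eich_fix (H : Herm ε h) {z u x : V} {μ : D} (hx : h x z = 0) (hx' : h x u = 0) :
    eich ε h z u μ x = x := by
  by_cases a : Val ε h z u μ
  · simp [eich_apply H a, hx, hx']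
  · rw [eich, dif_neg fun b => a b.2, one_apply']

/-! ### Lattices -/

theorem Herm.eps_mem (H : Herm ε h) (O : Subring D) : ε ∈ O := by
  rcases H.eps with rfl | rfl
  exacts [O.one_mem, O.neg_mem O.one_mem]

theorem natCast_smul_mem {x : V} (hx : x ∈ Λ) (k : ℕ) : (k : D) • x ∈ Λ := by
  rw [Nat.cast_smul_eq_nsmul]
  exact Λ.nsmul_mem hx k

theorem eich_apply_mem (hΛ : Lat ε h O Λ) {z u x : V} {μ : D} (hz : z ∈ Λ) (hu : u ∈ Λ)
    (hμ : μ ∈ O) (hx : x ∈ Λ) : eich ε h z u μ x ∈ Λ := by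
  by_cases a : Val ε h z u μ
  · rw [eich_apply hΛ.toHerm a]
    exact Λ.add_mem (Λ.add_mem hx (hΛ.smul_mem _ (hΛ.int _ hx _ hz) _ hu))
      (hΛ.smul_mem _ (O.sub_mem (O.mul_mem (hΛ.int _ hx _ hz) hμ)
        (O.mul_mem (hΛ.int _ hx _ hu) (hΛ.toHerm.eps_mem O))) _ hz)
  · rwa [eich, dif_neg fun b => a b.2, one_apply']

theorem eich_mem_UL (hΛ : Lat ε h O Λ) {z u : V} {μ : D} (hz : z ∈ Λ) (hu : u ∈ Λ) (hμ : μ ∈ O) :
    eich ε h z u μ ∈ UL h Λ := by
  refine ⟨eich_mem_UG z u μ, fun x => ⟨fun hx => ?_, eich_apply_mem hΛ hz hu hμ⟩⟩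
  by_cases a : Val ε h z u μ
  · have := eich_apply_mem hΛ hz (Λ.neg_mem hu)
      (O.mul_mem (hΛ.toHerm.eps_mem O) (hΛ.star_mem _ hμ)) hx
    rwa [← eich_inv hΛ.toHerm a, inv_apply_apply'] at this
  · rwa [eich, dif_neg fun b => a b.2] at hx

theorem Frame.swap₁ {e₁ f₁ e₂ f₂ : V} (hΛ : Lat ε h O Λ) (F : Frame h Λ e₁ f₁ e₂ f₂) :
    Frame h Λ f₁ (ε • e₁) e₂ f₂ := by
  have H := hΛ.toHerm
  refine ⟨F.mf₁, hΛ.smul_mem _ (H.eps_mem O) _ F.me₁, F.me₂, F.mf₂, F.f₁f₁, ?_, F.e₂e₂, F.f₂f₂, ?_,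
    F.e₂f₂, F.f₁e₂, F.f₁f₂, ?_, ?_⟩
  · rw [h.smul_left, H.smul_right, F.e₁e₁, zero_mul, mul_zero]
  · rw [H.smul_right, H.dual_one F.e₁f₁, H.star_eps, H.eps_mul_eps]
  · rw [h.smul_left, F.e₁e₂, mul_zero]
  · rw [h.smul_left, F.e₁f₂, mul_zero]

theorem Frame.symm {e₁ f₁ e₂ f₂ : V} (H : Herm ε h) (F : Frame h Λ e₁ f₁ e₂ f₂) :
    Frame h Λ e₂ f₂ e₁ f₁ :=
  ⟨F.me₂, F.mf₂, F.me₁, F.mf₁, F.e₂e₂, F.f₂f₂, F.e₁e₁, F.f₁f₁, F.e₂f₂, F.e₁f₁, H.perp F.e₁e₂,
    H.perp F.f₁e₂, H.perp F.e₁f₂, H.perp F.f₁f₂⟩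

theorem Frame.swap₂ {e₁ f₁ e₂ f₂ : V} (hΛ : Lat ε h O Λ) (F : Frame h Λ e₁ f₁ e₂ f₂) :
    Frame h Λ e₁ f₁ f₂ (ε • e₂) :=
  ((F.symm hΛ.toHerm).swap₁ hΛ).symm hΛ.toHerm

/-! ### Duality -/

/-- A vector orthogonal to a subspace with prescribed product with a vector outside of it. -/
theorem HS.exists_dual' (hB : HS ε h) {W : Submodule D V} {y : V} (hy : y ∉ W) (c : D) :
    ∃ x, (∀ w ∈ W, h w x = 0) ∧ h y x = c := by
  obtain ⟨φ, h1, h2⟩ := W.exists_le_ker_of_notMem hy
  obtain ⟨x, hx⟩ := hB.dual φ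
  refine ⟨star ((φ y)⁻¹ * c) • x, fun w hw => ?_, ?_⟩
  · rw [hB.toHerm.smul_right, ← hx, LinearMap.mem_ker.1 (h2 hw), zero_mul]
  · rw [hB.toHerm.smul_right, ← hx, star_star, ← mul_assoc, mul_inv_cancel₀ h1, one_mul]

theorem HS.exists_dual (hB : HS ε h) {z y : V} (hy : y ∉ Submodule.span D {z}) (c : D) :
    ∃ x, h z x = 0 ∧ h y x = c := by
  obtain ⟨x, h1, h2⟩ := hB.exists_dual' hy c
  exact ⟨x, h1 z (Submodule.mem_span_singleton_self z), h2⟩

theorem HS.nondeg (hB : HS ε h) {y : V} (hy : ∀ x, h y x = 0) : y = 0 := by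
  by_contra h0
  obtain ⟨x, -, h2⟩ := hB.exists_dual' (W := ⊥) (y := y) (by simpa using h0) 1
  exact zero_ne_one ((hy x).symm.trans h2)

/-- An isotropic vector orthogonal to `z` and not proportional to it. -/
theorem HS.exists_iso (hB : HS ε h) (z : V) :
    ∃ e, h e e = 0 ∧ h e z = 0 ∧ e ∉ Submodule.span D {z} := by
  have H := hB.toHerm
  obtain ⟨x, y, hl, hx, hxy, hy⟩ := hB.plane
  have hyx := H.perp hxy
  rw [LinearIndependent.pair_iff] at hl
  have iso : ∀ a b : D, h (a • x + b • y) (a • x + b • y) = 0 := fun a b => by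
    simp only [map_add, AddMonoidHom.add_apply, h.smul_left, H.smul_right, hx, hy, hxy, hyx,
      zero_mul, mul_zero, add_zero]
  by_cases h0 : h x z = 0 ∧ h y z = 0
  · by_cases h1 : x ∈ Submodule.span D {z}
    · refine ⟨y, hy, h0.2, fun h2 => ?_⟩
      obtain ⟨a, rfl⟩ := Submodule.mem_span_singleton.1 h1
      obtain ⟨b, rfl⟩ := Submodule.mem_span_singleton.1 h2
      by_cases ha : a = 0
      · exact one_ne_zero (hl 1 0 (by simp [ha])).1
      · exact one_ne_zero (hl (-(b * a⁻¹)) 1 (by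
          rw [smul_smul, neg_mul, mul_assoc, inv_mul_cancel₀ ha, mul_one, one_smul, neg_smul,
            neg_add_cancel])).2
    · exact ⟨x, hx, h0.1, h1⟩
  · obtain ⟨a, b, hab, h1⟩ : ∃ a b : D, ¬(a = 0 ∧ b = 0) ∧ h (a • x + b • y) z = 0 := by
      by_cases h2 : h x z = 0
      · exact ⟨1, 0, by simp, by simp [h2]⟩
      · refine ⟨-(h y z * (h x z)⁻¹), 1, by simp, ?_⟩
        rw [h.add_left, h.smul_left, h.smul_left, neg_mul, mul_assoc, inv_mul_cancel₀ h2, mul_one,
          one_mul, neg_add_cancel]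
    refine ⟨_, iso a b, h1, fun h2 => ?_⟩
    obtain ⟨c, hc⟩ := Submodule.mem_span_singleton.1 h2
    have hc0 : c ≠ 0 := by
      rintro rfl
      exact hab (hl a b (by rw [← hc, zero_smul]))
    have hz : z = c⁻¹ • (a • x + b • y) := by rw [← hc, smul_smul, inv_mul_cancel₀ hc0, one_smul]
    apply h0
    rw [hz]
    constructor <;>
      simp only [map_add, H.smul_right, hx, hy, hxy, hyx, zero_mul, add_zero, smul_add]

/-- A nonzero isotropic vector orthogonal to two isotropic vectors that are not orthogonal. -/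
theorem HS.exists_iso₂ (hB : HS ε h) {z y : V} (hz : h z z = 0) (hzy : h z y ≠ 0) :
    ∃ e, e ≠ 0 ∧ h e e = 0 ∧ h e z = 0 ∧ h e y = 0 := by
  have H := hB.toHerm
  obtain ⟨e, he, hez, he'⟩ := hB.exists_iso z
  refine ⟨e - (h e y * (h z y)⁻¹) • z, fun h0 => he' ?_, ?_, ?_, ?_⟩
  · rw [sub_eq_zero.1 h0]
    exact Submodule.smul_mem _ _ (Submodule.mem_span_singleton_self z)
  · simp only [map_sub, AddMonoidHom.sub_apply, h.smul_left, H.smul_right, he, hez, H.perp hez, hz,
      zero_mul, mul_zero, sub_zero]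
  · rw [h.sub_left, h.smul_left, hez, hz, mul_zero, sub_zero]
  · rw [h.sub_left, h.smul_left, mul_assoc, inv_mul_cancel₀ hzy, mul_one, sub_self]

/-- Correction of a dual vector to an isotropic one. -/
theorem Herm.exists_hyp [CharZero D] (H : Herm ε h) {e f : V} (he : h e e = 0) (hef : h e f = 1) :
    ∃ a : D, h (f + a • e) (f + a • e) = 0 := by
  have h1 := (Val.can H (z := 0) (u := f) (by simp) (by simp)).mu
  refine ⟨ε * -(ε * h f f * 2⁻¹), ?_⟩
  generalize -(ε * h f f * 2⁻¹) = μ at h1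
  have h2 := eq_sub_of_add_eq h1
  simp only [map_add, AddMonoidHom.add_apply, h.smul_left, H.smul_right, he, hef, H.dual_one hef,
    star_mul, H.star_eps, h2]
  rcases H.eps with rfl | rfl <;> noncomm_ring

end Pool.Agent.P.MP_d483fb_an.U
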