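import Pool.Agent.P.MP_d483fb_an.U.OrbA

set_option autoImplicit false
set_option linter.unusedSectionVars false

namespace Pool.Agent.P.MP_d483fb_an.U

variable {D V : Type} [DivisionRing D] [StarRing D] [CharZero D] [AddCommGroup V] [Module D V]
  {ε : D} {h : Form D V} {O : Subring D} {N : D → ℚ} {Λ : AddSubgroup V} {e₁ f₁ e₂ f₂ : V}

theorem OrbB_perp {g : V ≃ₗ[D] V} (hg : g ∈ UL h Λ) {p : V} (hp : g p = p) (x : V) :
    h p (g x) = h p x := by
  conv_lhs => rw [← hp]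
  exact hg.1 p x

theorem OrbB_val₁ (H : Herm ε h) {e y : V} (he : h e e = 0) (hy : h y e = 0) (m : ℕ) :
    Val ε h e ((m : D) • ((-2 : D) • y)) ((m : D) * -(2 * (m : D) * ε * h y y)) := by
  refine ⟨he, by rw [h.smul_left, h.smul_left, hy, mul_zero, mul_zero], ?_⟩
  simp only [h.smul_left, H.smul_right, star_mul, star_neg, star_natCast, star_ofNat, H.star_eps,
    H.star_eq]
  generalize h y y = q
  rcases H.eps with rfl | rfl
  · simp only [← nsmul_eq_mul, ← nsmul_eq_mul', smul_mul_assoc, mul_smul_comm, one_mul,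
      mul_one, mul_neg, neg_mul, smul_neg, neg_neg]
    rw [← neg_add, ← smul_add, ← smul_add]
    congr 3
    noncomm_ring
  · simp only [← nsmul_eq_mul, ← nsmul_eq_mul', smul_mul_assoc, mul_smul_comm, one_mul,
      mul_one, mul_neg, neg_mul, smul_neg, neg_neg]
    rw [← neg_add, ← smul_add, ← smul_add]
    congr 3
    noncomm_ring

theorem OrbB_val₂ (H : Herm ε h) {f y v : V} (hf : h f f = 0) (hy : h y f = 0) (m k : ℕ) (κ : D)
    (e : ε * star (h v y) + h v y = -(((m * (k * k) : ℕ) : D) * h y y)) :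
    Val ε h f ((m : D) • (((k : D) * star κ) • y)) ((m : D) * (star κ * h v y * κ * ε)) := by
  refine ⟨hf, by rw [h.smul_left, h.smul_left, hy, mul_zero, mul_zero], ?_⟩
  simp only [h.smul_left, H.smul_right, star_mul, star_star, star_natCast, H.star_eps]
  generalize h y y = b at e
  generalize h v y = a at e
  have e1 : ε * (star κ * (star a * κ)) * (m : D) + ε * ((m : D) * (star κ * a * κ * ε)) =
      m • (star κ * (ε * star a + a) * κ) := by
    simp only [← nsmul_eq_mul, ← nsmul_eq_mul', mul_smul_comm]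
    rw [← smul_add]
    congr 1
    rcases H.eps with rfl | rfl <;> noncomm_ring
  rw [e1, e]
  simp only [← nsmul_eq_mul, ← nsmul_eq_mul', smul_mul_assoc, mul_smul_comm, mul_assoc, mul_neg,
    neg_mul, smul_neg, smul_smul]
  congr 2
  ring

/-- One more vector of the complement. -/
theorem orb_u (A : Ar ε O N) (hΛ : Lat ε h O Λ) (F : Frame h Λ e₁ f₁ e₂ f₂) {m : ℕ} (hm : 0 < m)
    {E : Subgroup (V ≃ₗ[D] V)} (hE : Nrm (UL h Λ) E) (h4 : H4 ε h O e₁ f₁ e₂ f₂ ≤ E)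
    (h₂ : Lvl ε h O Λ m E e₂) (h₂' : Lvl ε h O Λ m E f₂) {P : Set V} {x y : V}
    (hx : x ∈ Λ) (hy : y ∈ Λ) (hxy : h x y ≠ 0)
    (hP : ∀ p ∈ P, Perp h e₁ f₁ e₂ f₂ p) (hPy : ∀ p ∈ P, h p y = 0)
    (hc : OrbCov h Λ E (insert x P)) : OrbCov h Λ E P := by
  have H := hΛ.toHerm
  have hm0 : (m : D) ≠ 0 := Nat.cast_ne_zero.2 hm.ne'
  have hε0 : ε ≠ 0 := left_ne_zero_of_mul_eq_one H.eps_mul_eps
  have hmO : (m : D) ∈ O := natCast_mem O m
  have h2O : (2 : D) ∈ O := by exact_mod_cast natCast_mem O 2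
  obtain ⟨κ, hκ⟩ : ∃ κ : D, κ = h x y * 2 * (m : D) * ε := ⟨_, rfl⟩
  have hκO : κ ∈ O := hκ ▸
    O.mul_mem (O.mul_mem (O.mul_mem (hΛ.int _ hx _ hy) h2O) hmO) (H.eps_mem O)
  have hκ0 : κ ≠ 0 := hκ ▸ mul_ne_zero (mul_ne_zero (mul_ne_zero hxy two_ne_zero) hm0) hε0
  obtain ⟨k, hk, -, hk1, hk2⟩ := A.int_pos hκO hκ0
  obtain ⟨T, hT, hTA, hT'⟩ := orb_mod (D := D) hΛ.fg (M := m * (k * k)) (by positivity)
    (A := {v | v ∈ Λ ∧ h v f₂ = κ ∧ h v v = h x x ∧ ∀ p ∈ P, h p v = h p x})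
    (fun v hv => hv.1)
  have hM0 : ((m * (k * k) : ℕ) : D) ≠ 0 := Nat.cast_ne_zero.2 (by positivity)
  refine orb_step hE x hT (fun g hg hgP => ?_) hc
  obtain ⟨s, hs, ha, hb⟩ := smith A hΛ F ((hg.2 _).2 hx)
  have hsO := H4_le_UL hΛ F hs
  have hsP : ∀ p ∈ P, s p = p := fun p hp => H4_fix H hs (hP p hp)
  set v := s (g x) with hvdef
  have hvΛ : v ∈ Λ := (hsO.2 _).2 ((hg.2 _).2 hx)
  have hvv : h v v = h x x := by rw [hvdef, hsO.1, hg.1]
  have hvP : ∀ p ∈ P, h p v = h p x := fun p hp => by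
    rw [hvdef, OrbB_perp hsO (hsP p hp), OrbB_perp hg (hgP p hp)]
  have hy'Λ : s (g y) ∈ Λ := (hsO.2 _).2 ((hg.2 _).2 hy)
  set y'' := s (g y) - (h (s (g y)) e₂ * ε) • f₂ with hy''
  have hy''Λ : y'' ∈ Λ := Λ.sub_mem hy'Λ
    (hΛ.smul_mem _ (O.mul_mem (hΛ.int _ hy'Λ _ F.me₂) (H.eps_mem O)) _ F.mf₂)
  have hy''e : h y'' e₂ = 0 := by
    rw [hy'', h.sub_left, h.smul_left, H.dual_one F.e₂f₂, mul_assoc, H.eps_mul_eps, mul_one,
      sub_self]
  have hvy : h v y'' = h x y := by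
    rw [hy'', map_sub, H.smul_right, hb, zero_mul, sub_zero, hvdef, hsO.1, hg.1]
  have hPy'' : ∀ p ∈ P, h p y'' = 0 := fun p hp => by
    rw [hy'', map_sub, H.smul_right, (hP p hp).2.2.2, zero_mul, sub_zero,
      OrbB_perp hsO (hsP p hp), OrbB_perp hg (hgP p hp), hPy p hp]
  have hval₁ := OrbB_val₁ H F.e₂e₂ hy''e m
  have hu₁ : (-2 : D) • y'' ∈ Λ := hΛ.smul_mem _ (O.neg_mem h2O) _ hy''Λ
  have hμ₁ : -(2 * (m : D) * ε * h y'' y'') ∈ O :=
    O.neg_mem (O.mul_mem (O.mul_mem (O.mul_mem h2O hmO) (H.eps_mem O)) (hΛ.int _ hy''Λ _ hy''Λ))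
  have hn₁E := h₂ _ hu₁ _ hμ₁ hval₁
  have hn₁O := eich_mem_UL hΛ F.me₂ (natCast_smul_mem (D := D) hu₁ m) (O.mul_mem hmO hμ₁)
  have hv' := eich_apply H hval₁ v
  have hn₁P : ∀ p ∈ P, eich ε h e₂ ((m : D) • ((-2 : D) • y''))
      ((m : D) * -(2 * (m : D) * ε * h y'' y'')) p = p := fun p hp =>
    eich_fix H (hP p hp).2.2.1 (by rw [H.smul_right, H.smul_right, hPy'' p hp, zero_mul, zero_mul])
  set n₁ := eich ε h e₂ ((m : D) • ((-2 : D) • y'')) ((m : D) * -(2 * (m : D) * ε * h y'' y''))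
    with hn₁
  set v' := n₁ v with hv'def
  replace hv' : v' = v + κ • e₂ := by
    rw [hv', ha, zero_smul, add_zero, zero_mul, zero_sub, H.smul_right, H.smul_right, hvy, hκ,
      star_natCast, star_neg, star_ofNat]
    congr 2
    noncomm_ring
  have hb' : h v' f₂ = κ := by
    rw [hv', h.add_left, h.smul_left, hb, F.e₂f₂, zero_add, mul_one]
  have hvv' : h v' v' = h x x := by rw [hv'def, hn₁O.1, hvv]
  have hvP' : ∀ p ∈ P, h p v' = h p x := fun p hp => by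
    rw [hv'def, OrbB_perp hn₁O (hn₁P p hp), hvP p hp]
  have hv'Λ : v' ∈ Λ := (hn₁O.2 _).2 hvΛ
  obtain ⟨t, ht, y₀, hy₀, e⟩ := hT' v' ⟨hv'Λ, hb', hvv', hvP'⟩
  obtain ⟨-, htb, htt, htP⟩ := hTA t ht
  have hzf : h y₀ f₂ = 0 := by
    rw [e, h.add_left, h.smul_left, hb', add_eq_left] at htb
    exact (mul_eq_zero.1 htb).resolve_left hM0
  have hzP : ∀ p ∈ P, h p y₀ = 0 := fun p hp => by
    have := htP p hp
    rw [e, map_add, H.smul_right, hvP' p hp, add_eq_left, star_natCast] at this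
    exact (mul_eq_zero.1 this).resolve_right hM0
  have hn : ε * star (h v' y₀) + h v' y₀ = -(((m * (k * k) : ℕ) : D) * h y₀ y₀) := by
    rw [e] at htt
    simp only [map_add, AddMonoidHom.add_apply, h.smul_left, H.smul_right, star_natCast] at htt
    rw [hvv', H.conj v' y₀] at htt
    apply mul_left_cancel₀ hM0
    generalize ((m * (k * k) : ℕ)) = M at htt ⊢
    rw [← (Nat.cast_commute M (h v' y₀)).eq, ← (Nat.cast_commute M (h y₀ y₀)).eq] at htt
    rw [← sub_eq_zero] at htt ⊢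
    rw [← htt]
    noncomm_ring
  have hval₂ := OrbB_val₂ H F.f₂f₂ hzf m k κ hn
  have hu₂ : ((k : D) * star κ) • y₀ ∈ Λ :=
    hΛ.smul_mem _ (O.mul_mem (natCast_mem O k) (hΛ.star_mem _ hκO)) _ hy₀
  have hμ₂ : star κ * h v' y₀ * κ * ε ∈ O :=
    O.mul_mem (O.mul_mem (O.mul_mem (hΛ.star_mem _ hκO) (hΛ.int _ hv'Λ _ hy₀)) hκO) (H.eps_mem O)
  have hn₂E := h₂' _ hu₂ _ hμ₂ hval₂
  have hn₂O := eich_mem_UL hΛ F.mf₂ (natCast_smul_mem (D := D) hu₂ m) (O.mul_mem hmO hμ₂)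
  have hn₂P : ∀ p ∈ P, eich ε h f₂ ((m : D) • (((k : D) * star κ) • y₀))
      ((m : D) * (star κ * h v' y₀ * κ * ε)) p = p := fun p hp =>
    eich_fix H (hP p hp).2.2.2 (by rw [H.smul_right, H.smul_right, hzP p hp, zero_mul, zero_mul])
  refine ⟨_ * (n₁ * s), E.mul_mem hn₂E (E.mul_mem hn₁E (h4 hs)),
    (UL h Λ).mul_mem hn₂O ((UL h Λ).mul_mem hn₁O hsO), fun p hp => ?_, ?_⟩
  · rw [mul_apply', mul_apply', hsP p hp, hn₁P p hp, hn₂P p hp]
  · rw [mul_apply', mul_apply', ← hvdef, ← hv'def, eich_apply H hval₂, hb']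
    have e1 : κ • (m : D) • ((k : D) * star κ) • y₀ = ((m * (k * k) : ℕ) : D) • y₀ := by
      rw [smul_smul, smul_smul]
      congr 1
      rw [← (Nat.cast_commute m κ).eq, mul_assoc, ← mul_assoc κ, ← (Nat.cast_commute k κ).eq,
        mul_assoc, hk1]
      push_cast
      rfl
    have e2 : κ * ((m : D) * (star κ * h v' y₀ * κ * ε)) -
        h v' ((m : D) • ((k : D) * star κ) • y₀) * ε = 0 := by
      rw [H.smul_right, H.smul_right, star_mul, star_star, star_natCast, star_natCast, sub_eq_zero]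
      have : κ * ((m : D) * (star κ * h v' y₀ * κ * ε)) =
          (m : D) * ((κ * star κ) * (h v' y₀ * κ * ε)) := by
        rw [← mul_assoc κ, ← (Nat.cast_commute m κ).eq]
        simp only [mul_assoc]
      rw [this, hk1]
      simp only [← nsmul_eq_mul, ← nsmul_eq_mul', smul_mul_assoc, mul_smul_comm, mul_assoc]
      exact smul_comm _ _ _
    rw [e1, e2, zero_smul, add_zero, ← e]
    exact ht

theorem relIndex_of_H4_le (A : Ar ε O N) (hΛ : Lat ε h O Λ) (F : Frame h Λ e₁ f₁ e₂ f₂) {k : ℕ}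
    {u w : Fin k → V} (hu : Compl h Λ e₁ f₁ e₂ f₂ u w) {m : ℕ} (hm : 0 < m)
    {E : Subgroup (V ≃ₗ[D] V)} (hE : Nrm (UL h Λ) E) (h4 : H4 ε h O e₁ f₁ e₂ f₂ ≤ E)
    (h₂ : Lvl ε h O Λ m E e₂) (h₂' : Lvl ε h O Λ m E f₂) : E.relIndex (UL h Λ) ≠ 0 := by
  classical
  have key : ∀ s : Finset (Fin k), OrbCov h Λ E (u '' s) → OrbCov h Λ E ∅ := by
    intro s
    induction s using Finset.induction_on with
    | empty => simp
    | insert j s hj ih =>
      intro hc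
      rw [Finset.coe_insert, Set.image_insert_eq] at hc
      refine ih (orb_u A hΛ F hm hE h4 h₂ h₂' (hu.mem j) (hu.mem' j) (hu.diag j) ?_ ?_ hc)
      · rintro _ ⟨i, _, rfl⟩
        exact hu.perp i
      · rintro _ ⟨i, hi, rfl⟩
        exact hu.orth i j fun h => hj (h ▸ hi)
  refine orb_fin (key Finset.univ ?_)
  rw [Finset.coe_univ, Set.image_univ]
  exact orb_frame A hΛ F hu hE h4

end Pool.Agent.P.MP_d483fb_an.U
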