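import Pool.Agent.P.MP_d483fb_an.U.Cent
import Pool.Agent.P.MP_d483fb_an.U.OrbB
import Pool.Agent.P.MP_d483fb_an.U.Congr
import Pool.Agent.P.MP_d483fb_an.Dietz

set_option autoImplicit false
set_option linter.unusedSectionVars false

namespace Pool.Agent.P.MP_d483fb_an.U

variable {D V : Type} [DivisionRing D] [StarRing D] [CharZero D] [AddCommGroup V] [Module D V]
  {ε : D} {h : Form D V} {O : Subring D} {N : D → ℚ} {Λ : AddSubgroup V} {e₁ f₁ e₂ f₂ : V}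

theorem FI_root (H : Herm ε h) {z z' : V} (hz : h z z = 0) (hz' : h z' z = 0) (hzz : h z' z' = 0)
    {E : Subgroup (V ≃ₗ[D] V)} {s : Set D} (hs : ∀ a ∈ s, eich ε h z (a • z') 0 ∈ E) {a : D}
    (ha : a ∈ AddSubgroup.closure s) : eich ε h z (a • z') 0 ∈ E := by
  have v : ∀ a : D, Val ε h z (a • z') 0 := fun a => Val.iso hz (by rw [h.smul_left, hz', mul_zero])
    (by rw [h.smul_left, H.smul_right, hzz, zero_mul, mul_zero])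
  induction ha using AddSubgroup.closure_induction with
  | mem a ha => exact hs a ha
  | zero => rw [zero_smul, eich_zero_right]; exact E.one_mem
  | add a b _ _ h1 h2 =>
    have := E.mul_mem h1 h2
    rwa [eich_mul H (v a) (v b), ← add_smul, h.smul_left, H.smul_right, hzz, zero_mul, mul_zero,
      mul_zero, add_zero, sub_zero] at this
  | neg a _ h1 =>
    have := E.inv_mem h1
    rwa [eich_inv H (v a), ← neg_smul, star_zero, mul_zero] at this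

theorem FI_pow (hΛ : Lat ε h O Λ) {z z' : V} (hz : h z z = 0) (hz' : h z' z = 0) (hzz : h z' z' = 0)
    (hm : z' ∈ Λ) {m : ℕ} {K : Subgroup (V ≃ₗ[D] V)} (hl : Lvl ε h O Λ m K z) {a : D} (ha : a ∈ O) :
    eich ε h z (a • z') 0 ^ m ∈ K := by
  have H := hΛ.toHerm
  have h1 : h (a • z') z = 0 := by rw [h.smul_left, hz', mul_zero]
  have h2 : h (a • z') (a • z') = 0 := by rw [h.smul_left, H.smul_right, hzz, zero_mul, mul_zero]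
  have := hl _ (hΛ.smul_mem _ ha _ hm) 0 O.zero_mem
  rw [mul_zero] at this
  rw [iso_pow H hz h1 h2]
  exact this (Val.iso hz (by rw [h.smul_left, h1, mul_zero])
    (by rw [h.smul_left, H.smul_right, h2, zero_mul, mul_zero]))

/-- The normal subgroup generated by Eichler transformations of level `m` has finite index. -/
theorem relIndex_of_lvl (A : Ar ε O N) (hΛ : Lat ε h O Λ) (F : Frame h Λ e₁ f₁ e₂ f₂) {k : ℕ}
    {u w : Fin k → V} (hu : Compl h Λ e₁ f₁ e₂ f₂ u w) {m : ℕ} (hm : 0 < m)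
    {K : Subgroup (V ≃ₗ[D] V)} (hK : Nrm (UL h Λ) K) (h₁ : Lvl ε h O Λ m K e₁) :
    K.relIndex (UL h Λ) ≠ 0 := by
  have H := hΛ.toHerm
  obtain ⟨h₁', h₂, h₂'⟩ := lvl_frame A hΛ F hm hK h₁
  have h₃ := h₁.smul hΛ hm (H.eps_mem O)
  obtain ⟨M₁, hM₁, c₁⟩ := cent A hΛ F hm hK h₁ h₁'
  obtain ⟨M₂, hM₂, c₂⟩ := cent A hΛ (F.swap₂ hΛ) hm hK h₁ h₁'
  obtain ⟨M₃, hM₃, c₃⟩ := cent A hΛ (F.swap₁ hΛ) hm hK h₁' h₃
  obtain ⟨M₄, hM₄, c₄⟩ := cent A hΛ ((F.swap₁ hΛ).swap₂ hΛ) hm hK h₁' h₃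
  set M := M₁ * M₂ * M₃ * M₄ with hM
  have hM0 : 0 < M := by positivity
  have d₁ : M₁ ∣ M := ⟨M₂ * M₃ * M₄, by rw [hM]; ring⟩
  have d₂ : M₂ ∣ M := ⟨M₁ * M₃ * M₄, by rw [hM]; ring⟩
  have d₃ : M₃ ∣ M := ⟨M₁ * M₂ * M₄, by rw [hM]; ring⟩
  have d₄ : M₄ ∣ M := ⟨M₁ * M₂ * M₃, by rw [hM]; ring⟩
  obtain ⟨s, hs⟩ := A.fg
  have hsO : ∀ a ∈ s, a ∈ O := fun a ha => by
    have : a ∈ O.toAddSubgroup := hs ▸ AddSubgroup.subset_closure ha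
    exact this
  let K' : Subgroup (UL h Λ) := K.subgroupOf (UL h Λ)
  let Z : Subgroup (UL h Λ) := (Cong h Λ M).subgroupOf (UL h Λ)
  have : K'.Normal := ⟨fun x hx g => hK g.1 g.2 x.1 hx⟩
  have : Z.Normal := ⟨fun x hx g => cong_nrm M g.1 g.2 x.1 hx⟩
  have : Z.FiniteIndex := ⟨cong_relIndex hΛ.fg hM0⟩
  let R : Set (UL h Λ) := Subtype.val ⁻¹' ⋃ a ∈ (s : Set D), {eich ε h e₁ (a • e₂) 0,
    eich ε h e₁ (a • f₂) 0, eich ε h f₁ (a • e₂) 0, eich ε h f₁ (a • f₂) 0}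
  have hR : R.Finite := Set.Finite.preimage Subtype.val_injective.injOn
    (s.finite_toSet.biUnion fun _ _ => Set.toFinite _)
  have h1 : ∀ r ∈ R, r ^ m ∈ K' := by
    intro r hr
    change r.1 ^ m ∈ K
    obtain ⟨a, ha, hr⟩ := Set.mem_iUnion₂.1 hr
    rcases hr with e | e | e | e <;> rw [e]
    · exact FI_pow hΛ F.e₁e₁ (H.perp F.e₁e₂) F.e₂e₂ F.me₂ h₁ (hsO a ha)
    · exact FI_pow hΛ F.e₁e₁ (H.perp F.e₁f₂) F.f₂f₂ F.mf₂ h₁ (hsO a ha)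
    · exact FI_pow hΛ F.f₁f₁ (H.perp F.f₁e₂) F.e₂e₂ F.me₂ h₁' (hsO a ha)
    · exact FI_pow hΛ F.f₁f₁ (H.perp F.f₁f₂) F.f₂f₂ F.mf₂ h₁' (hsO a ha)
  have h2 : ∀ r ∈ R, ∀ z ∈ Z, z * r * z⁻¹ * r⁻¹ ∈ K' := by
    intro r hr z hz
    change z.1 * r.1 * z.1⁻¹ * r.1⁻¹ ∈ K
    have hz' : z.1 ∈ Cong h Λ M := hz
    obtain ⟨a, ha, hr⟩ := Set.mem_iUnion₂.1 hr
    rcases hr with e | e | e | e <;> rw [e]
    · exact c₁ a (hsO a ha) _ (cong_le d₁ hz')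
    · exact c₂ a (hsO a ha) _ (cong_le d₂ hz')
    · exact c₃ a (hsO a ha) _ (cong_le d₃ hz')
    · exact c₄ a (hsO a ha) _ (cong_le d₄ hz')
  have hd := dietz K' Z hR hm h1 h2
  let E' : Subgroup (UL h Λ) := Subgroup.normalClosure R ⊔ K'
  have hE' : E'.Normal := inferInstance
  let E : Subgroup (V ≃ₗ[D] V) := E'.map (UL h Λ).subtype
  have hE : Nrm (UL h Λ) E := by
    rintro g hg _ ⟨x, hx, rfl⟩
    exact ⟨_, hE'.conj_mem x hx ⟨g, hg⟩, rfl⟩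
  have hRE : ∀ x (hx : x ∈ UL h Λ), (⟨x, hx⟩ : UL h Λ) ∈ R → x ∈ E := fun x hx h =>
    ⟨⟨x, hx⟩, Subgroup.mem_sup_left (Subgroup.subset_normalClosure h), rfl⟩
  have hU : ∀ {z z' : V}, z ∈ Λ → z' ∈ Λ → ∀ a ∈ s, eich ε h z (a • z') 0 ∈ UL h Λ :=
    fun hz hz' a ha => eich_mem_UL hΛ hz (hΛ.smul_mem _ (hsO a ha) _ hz') O.zero_mem
  have h4 : H4 ε h O e₁ f₁ e₂ f₂ ≤ E := by
    rw [H4, Subgroup.closure_le]
    rintro x ⟨a, ha, hx⟩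
    have ha' : a ∈ AddSubgroup.closure (s : Set D) := hs ▸ ha
    rcases hx with rfl | rfl | rfl | rfl
    · exact FI_root H F.e₁e₁ (H.perp F.e₁e₂) F.e₂e₂ (fun a ha => hRE _ (hU F.me₁ F.me₂ a ha)
        (Set.mem_iUnion₂.2 ⟨a, ha, by simp⟩)) ha'
    · exact FI_root H F.e₁e₁ (H.perp F.e₁f₂) F.f₂f₂ (fun a ha => hRE _ (hU F.me₁ F.mf₂ a ha)
        (Set.mem_iUnion₂.2 ⟨a, ha, by simp⟩)) ha'
    · exact FI_root H F.f₁f₁ (H.perp F.f₁e₂) F.e₂e₂ (fun a ha => hRE _ (hU F.mf₁ F.me₂ a ha)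
        (Set.mem_iUnion₂.2 ⟨a, ha, by simp⟩)) ha'
    · exact FI_root H F.f₁f₁ (H.perp F.f₁f₂) F.f₂f₂ (fun a ha => hRE _ (hU F.mf₁ F.mf₂ a ha)
        (Set.mem_iUnion₂.2 ⟨a, ha, by simp⟩)) ha'
  have hl : ∀ z ∈ Λ, Lvl ε h O Λ m K z → Lvl ε h O Λ m E z := fun z hz hl v hv μ hμ hzv =>
    ⟨⟨_, eich_mem_UL hΛ hz (natCast_smul_mem hv m) (O.mul_mem (natCast_mem O m) hμ)⟩,
      Subgroup.mem_sup_right (hl v hv μ hμ hzv), rfl⟩
  have hi := relIndex_of_H4_le A hΛ F hu hm hE h4 (hl _ F.me₂ h₂) (hl _ F.mf₂ h₂')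
  have hEE : E.subgroupOf (UL h Λ) = E' :=
    Subgroup.comap_map_eq_self_of_injective (UL h Λ).subtype_injective E'
  rw [Subgroup.relIndex, hEE] at hi
  change K'.index ≠ 0
  rw [← Subgroup.relIndex_mul_index (show K' ≤ E' from le_sup_right)]
  exact mul_ne_zero hd hi

end Pool.Agent.P.MP_d483fb_an.U
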