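import Pool.Agent.P.MP_d483fb_an.U.Arith

set_option autoImplicit false
set_option linter.unusedSectionVars false

namespace Pool.Agent.P.MP_d483fb_an.U

variable {D V : Type} [DivisionRing D] [StarRing D] [CharZero D] [AddCommGroup V] [Module D V]
  {ε : D} {h : Form D V} {O : Subring D} {N : D → ℚ} {Λ : AddSubgroup V} {e₁ f₁ e₂ f₂ : V}

theorem first_not_mem {z w : V} (hw : w ∉ Submodule.span D {z}) {q : D} (hq : q ≠ 0) :
    q • w ∉ Submodule.span D {z} := fun h0 => hw (by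
  have := Submodule.smul_mem _ q⁻¹ h0
  rwa [smul_smul, inv_mul_cancel₀ hq, one_smul] at this)

theorem first_indep {z w : V} (hz : z ≠ 0) (hw : w ∉ Submodule.span D {z}) {p q : D}
    (e : p • z = q • w) : p = 0 ∧ q = 0 := by
  have hq : q = 0 := by
    by_contra hq
    exact first_not_mem hw hq (e ▸ Submodule.smul_mem _ _ (Submodule.mem_span_singleton_self z))
  rw [hq, zero_smul, smul_eq_zero] at e
  exact ⟨e.resolve_right hz, hq⟩

theorem first_pair (H : Herm ε h) {d : V ≃ₗ[D] V}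
    (hd : ∀ z, h z z = 0 → d z ∈ Submodule.span D {z}) {z w : V} (hz0 : z ≠ 0)
    (hw : w ∉ Submodule.span D {z}) (hz : h z z = 0) (hww : h w w = 0) (hwz : h w z = 0) {a a' : D}
    (ha : d z = a • z) (ha' : d w = a' • w) (b : D) : a * b = b * a' := by
  have hzw := H.perp hwz
  have hi : h (z + b • w) (z + b • w) = 0 := by
    simp only [map_add, AddMonoidHom.add_apply, h.smul_left, H.smul_right, hz, hww, hwz, hzw,
      zero_mul, mul_zero, add_zero]
  obtain ⟨c, hc⟩ := Submodule.mem_span_singleton.1 (hd _ hi)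
  rw [map_add, map_smul, ha, ha'] at hc
  have e : (c - a) • z = (b * a' - c * b) • w := by
    rw [sub_smul, sub_smul, sub_eq_sub_iff_add_eq_add, mul_smul, mul_smul, ← smul_add, hc, add_comm]
  obtain ⟨h1, h2⟩ := first_indep hz0 hw e
  rw [← sub_eq_zero.1 h1, sub_eq_zero.1 h2]

theorem first_step (H : Herm ε h) {d : V ≃ₗ[D] V}
    (hd : ∀ z, h z z = 0 → d z ∈ Submodule.span D {z}) {c : D} (hc : ∀ a, a * c = c * a) {x z : V}
    (hx0 : x ≠ 0) (hx : h x x = 0) (hdx : d x = c • x) (hz : h z z = 0) (hzx : h z x = 0) :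
    d z = c • z := by
  by_cases h1 : z ∈ Submodule.span D {x}
  · obtain ⟨b, rfl⟩ := Submodule.mem_span_singleton.1 h1
    rw [map_smul, hdx, smul_smul, smul_smul, hc]
  · obtain ⟨a, ha⟩ := Submodule.mem_span_singleton.1 (hd z hz)
    have := first_pair H hd hx0 h1 hx hz hzx hdx ha.symm 1
    rw [mul_one, one_mul] at this
    rw [this, ha]

/-- A linear automorphism fixing all isotropic lines is a central scalar. -/
theorem scal_of_iso (hB : HS ε h) {d : V ≃ₗ[D] V}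
    (hd : ∀ z, h z z = 0 → d z ∈ Submodule.span D {z}) : Scal d := by
  have H := hB.toHerm
  obtain ⟨x, y, hl, hx, hxy, hy⟩ := hB.plane
  rw [LinearIndependent.pair_iff] at hl
  have hx0 : x ≠ 0 := fun h0 => one_ne_zero (hl 1 0 (by simp [h0])).1
  have hyx : y ∉ Submodule.span D {x} := fun h0 => by
    obtain ⟨b, rfl⟩ := Submodule.mem_span_singleton.1 h0
    exact one_ne_zero (hl (-b) 1 (by simp)).2
  obtain ⟨c, hc⟩ := Submodule.mem_span_singleton.1 (hd x hx)
  obtain ⟨c', hc'⟩ := Submodule.mem_span_singleton.1 (hd y hy)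
  have key := first_pair H hd hx0 hyx hx hy (H.perp hxy) hc.symm hc'.symm
  have hcc : c = c' := by simpa using key 1
  have cen : ∀ a, a * c = c * a := fun a => by rw [key a, hcc]
  have iso : ∀ z, h z z = 0 → d z = c • z := fun z hz => by
    by_cases h0 : h x z = 0
    · exact first_step H hd cen hx0 hx hc.symm hz (H.perp h0)
    · obtain ⟨e, he0, he, hex, hez⟩ := hB.exists_iso₂ hx h0
      exact first_step H hd cen he0 he (first_step H hd cen hx0 hx hc.symm he hex) hz (H.perp hez)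
  have one : ∀ v, h x v = 1 → d v = c • v := fun v hv => by
    obtain ⟨a, ha⟩ := H.exists_hyp hx hv
    have h1 := iso _ ha
    rw [map_add, map_smul, ← hc, smul_add, smul_smul, smul_smul, cen a] at h1
    exact add_right_cancel h1
  have gen : ∀ v, h x v ≠ 0 → d v = c • v := fun v hv => by
    have h1 := one (star (h x v)⁻¹ • v) (by rw [H.smul_right, star_star, mul_inv_cancel₀ hv])
    have h2 : star (h x v)⁻¹ ≠ 0 := by simpa using hv
    rw [map_smul, smul_smul, ← cen, ← smul_smul] at h1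
    exact smul_right_injective V h2 h1
  refine ⟨c, cen, fun v => ?_⟩
  by_cases h0 : h x v = 0
  · obtain ⟨f, -, hf⟩ := hB.exists_dual' (W := ⊥) (y := x) (by simpa using hx0) 1
    have h1 := one (v + f) (by rw [map_add, h0, hf, zero_add])
    rw [map_add, one f hf, smul_add] at h1
    exact add_right_cancel h1
  · exact gen v h0

theorem first_comm_mem {Γ K : Subgroup (V ≃ₗ[D] V)} (hK : Nrm Γ K) {c γ : V ≃ₗ[D] V} (hc : c ∈ K)
    (hγ : γ ∈ Γ) : c * γ * c⁻¹ * γ⁻¹ ∈ K := by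
  have := K.mul_mem hc (hK γ hγ c⁻¹ (K.inv_mem hc))
  simpa only [mul_assoc] using this

theorem first_pow (H : Herm ε h) {Γ : Subgroup (V ≃ₗ[D] V)} (hΓ : Ample ε h Γ) {e u : V}
    (he : h e e = 0) (hu : h u e = 0) :
    ∃ (m : ℕ) (μ : D), 0 < m ∧ Val ε h e ((m : D) • u) μ ∧ eich ε h e ((m : D) • u) μ ∈ Γ := by
  obtain ⟨m, hm, h1⟩ := hΓ.2 e u _ (Val.can H he hu)
  obtain ⟨h2, h3⟩ := eich_pow H (Val.can H he hu) m
  exact ⟨m, _, hm, h2, h3 ▸ h1⟩

theorem first_fix (hB : HS ε h) {l₀ : D} (hl0 : l₀ ≠ 0) (hl : star l₀ + ε * l₀ = 0)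
    {Γ K : Subgroup (V ≃ₗ[D] V)} (hΓ : Ample ε h Γ) (hK : Nrm Γ K) {c : V ≃ₗ[D] V} (hc : c ∈ K)
    (hU : c ∈ UG h) {e u : V} (he : h e e = 0) (hce : c e = e) (hu : h u e = 0)
    (h1 : c u - u ∉ Submodule.span D {e}) :
    ∃ l, l ≠ 0 ∧ star l + ε * l = 0 ∧ eich ε h e 0 l ∈ K := by
  have H := hB.toHerm
  obtain ⟨m, μ, hm, a, hγ⟩ := first_pow H hΓ he hu
  have h2 := first_comm_mem hK hc hγ
  have a' := a.conj hU
  rw [eich_conj H hU a, eich_inv H a] at h2
  rw [hce] at h2 a'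
  rw [eich_mul H a' (a.neg H)] at h2
  have b := a'.add H (a.neg H)
  have h3 : c ((m : D) • u) + -((m : D) • u) ∉ Submodule.span D {e} := by
    rw [map_smul, ← sub_eq_add_neg, ← smul_sub]
    exact first_not_mem h1 (Nat.cast_ne_zero.2 hm.ne')
  generalize c ((m : D) • u) + -((m : D) • u) = y at h2 b h3
  obtain ⟨w, hew, hyw⟩ := hB.exists_dual h3 l₀
  obtain ⟨k, ν, hk, a₂, hγ₂⟩ := first_pow H hΓ he (H.perp hew)
  have h4 := first_comm_mem hK h2 hγ₂
  obtain ⟨h5, h6⟩ := eich_comm H b a₂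
  rw [h6] at h4
  refine ⟨_, ?_, h5, h4⟩
  rw [H.smul_right, h.smul_left, H.conj y w, hyw, star_natCast, eq_neg_of_add_eq_zero_left hl,
    mul_neg, H.eps_eps_mul, ← (Nat.cast_commute k l₀).eq, mul_neg, mul_neg, sub_neg_eq_add,
    ← two_mul]
  refine mul_ne_zero two_ne_zero (mul_ne_zero ?_ (mul_ne_zero (Nat.cast_ne_zero.2 hk.ne') hl0))
  rcases H.eps with rfl | rfl <;> simp

/-- A normalised subgroup with a nonscalar unitary element contains a transvection. -/
theorem exists_tv_mem (hB : HS ε h) (hL : ∃ x : D, x ≠ 0 ∧ star x + ε * x = 0)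
    {Γ K : Subgroup (V ≃ₗ[D] V)} (hΓ : Ample ε h Γ) (hK : Nrm Γ K) {d : V ≃ₗ[D] V} (hd : d ∈ K)
    (hU : d ∈ UG h) (h1 : ¬Scal d) :
    ∃ z l, z ≠ 0 ∧ l ≠ 0 ∧ h z z = 0 ∧ star l + ε * l = 0 ∧ eich ε h z 0 l ∈ K := by
  have H := hB.toHerm
  obtain ⟨l₀, hl0, hl⟩ := hL
  obtain ⟨z, hz, hy⟩ : ∃ z, h z z = 0 ∧ d z ∉ Submodule.span D {z} := by
    by_contra h0
    exact h1 (scal_of_iso hB fun z hz => by
      by_contra h2
      exact h0 ⟨z, hz, h2⟩)
  have hz0 : z ≠ 0 := by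
    rintro rfl
    exact hy (by simp)
  have hyy : h (d z) (d z) = 0 := by rw [hU, hz]
  obtain ⟨m, hm, ht⟩ := hΓ.2 z 0 l₀ (Val.tv hz hl)
  rw [tv_pow H hz hl] at ht
  have hml := L_natCast hl m
  have hml0 : (m : D) * l₀ ≠ 0 := mul_ne_zero (Nat.cast_ne_zero.2 hm.ne') hl0
  generalize (m : D) * l₀ = l at ht hml hml0
  have hc := first_comm_mem hK hd ht
  rw [eich_conj H hU (Val.tv hz hml), tv_inv H hz hml, map_zero] at hc
  generalize d z = y at hy hyy hc
  have hcU : eich ε h y 0 l * eich ε h z 0 (-l) ∈ UG h :=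
    (UG h).mul_mem (eich_mem_UG _ _ _) (eich_mem_UG _ _ _)
  have ap : ∀ x, h x z = 0 → (eich ε h y 0 l * eich ε h z 0 (-l)) x = x + (h x y * l) • y :=
    fun x hx => by
      rw [mul_apply', eich_fix H hx (map_zero _), tv_apply H hyy hml]
  generalize eich ε h y 0 l * eich ε h z 0 (-l) = c at hc hcU ap
  by_cases h0 : h z y = 0
  · obtain ⟨u, hzu, hyu⟩ := hB.exists_dual hy 1
    obtain ⟨l', h2, h3, h4⟩ := first_fix hB hl0 hl hΓ hK hc hcU hz
      (by rw [ap z hz, h0, zero_mul, zero_smul, add_zero]) (H.perp hzu) (by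
        rw [ap u (H.perp hzu), add_sub_cancel_left, H.dual_one hyu]
        refine first_not_mem hy (mul_ne_zero ?_ hml0)
        rcases H.eps with rfl | rfl <;> simp)
    exact ⟨z, l', hz0, h2, hz, h3, h4⟩
  · obtain ⟨e, he0, he, hez, hey⟩ := hB.exists_iso₂ hz h0
    obtain ⟨l', h2, h3, h4⟩ := first_fix hB hl0 hl hΓ hK hc hcU he
      (by rw [ap e hez, hey, zero_mul, zero_smul, add_zero]) (H.perp hez) (by
        rw [ap z hz, add_sub_cancel_left]
        refine first_not_mem (fun h5 => h0 ?_) (mul_ne_zero h0 hml0)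
        obtain ⟨b, rfl⟩ := Submodule.mem_span_singleton.1 h5
        rw [H.smul_right, H.perp hez, zero_mul])
    exact ⟨e, l', he0, h2, he, h3, h4⟩

end Pool.Agent.P.MP_d483fb_an.U
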