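import Pool.Agent.P.MP_d483fb_an.U.Arith

set_option autoImplicit false
set_option linter.unusedSectionVars false

namespace Pool.Agent.P.MP_d483fb_an.U

variable {D V : Type} [DivisionRing D] [StarRing D] [CharZero D] [AddCommGroup V] [Module D V]
  {ε : D} {h : Form D V} {O : Subring D} {N : D → ℚ} {Λ : AddSubgroup V} {e₁ f₁ e₂ f₂ : V}

theorem FrameEx_lat (A : Ar ε O N) (H : Herm ε h) {S : Set V} (hS : S.Finite)
    (h1 : ∀ x ∈ S, ∀ y ∈ S, h x y ∈ O) (h2 : Submodule.span D S = ⊤) :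
    ∃ Λ : AddSubgroup V, Lat ε h O Λ ∧ ∀ x ∈ S, x ∈ Λ := by
  let Λ : AddSubgroup V := AddSubgroup.closure (Set.image2 (fun (a : D) (t : V) => a • t) O S)
  have mS : ∀ x ∈ S, x ∈ Λ := fun x hx =>
    AddSubgroup.subset_closure ⟨1, O.one_mem, x, hx, one_smul _ _⟩
  have sm : ∀ a ∈ O, ∀ x ∈ Λ, a • x ∈ Λ := by
    intro a ha x hx
    induction hx using AddSubgroup.closure_induction with
    | mem x hx =>
      obtain ⟨b, hb, t, ht, rfl⟩ := hx
      exact AddSubgroup.subset_closure ⟨a * b, O.mul_mem ha hb, t, ht, mul_smul _ _ _⟩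
    | zero => rw [smul_zero]; exact Λ.zero_mem
    | add x y _ _ a b => rw [smul_add]; exact Λ.add_mem a b
    | neg x _ a => rw [smul_neg]; exact Λ.neg_mem a
  refine ⟨Λ, ⟨H, ?_, ?_, A.star_mem, sm, ?_⟩, mS⟩
  · obtain ⟨s, hs⟩ := A.fg
    refine fg_of_le (L := AddSubgroup.closure
      (Set.image2 (fun (a : D) (t : V) => a • t) (s : Set D) S))
      ((AddSubgroup.fg_iff _).2 ⟨_, rfl, s.finite_toSet.image2 _ hS⟩) ?_
    refine (AddSubgroup.closure_le _).2 ?_
    rintro _ ⟨a, ha, t, ht, rfl⟩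
    have ha' : a ∈ AddSubgroup.closure (s : Set D) := by rw [hs]; exact ha
    clear ha
    induction ha' using AddSubgroup.closure_induction with
    | mem x hx => exact AddSubgroup.subset_closure ⟨x, hx, t, ht, rfl⟩
    | zero => simp
    | add x y _ _ a b => simpa only [add_smul, SetLike.mem_coe] using AddSubgroup.add_mem _ a b
    | neg x _ a => simpa only [neg_smul, SetLike.mem_coe] using AddSubgroup.neg_mem _ a
  · intro x
    have hx : x ∈ Submodule.span D S := by rw [h2]; trivial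
    induction hx using Submodule.span_induction with
    | mem x hx => exact ⟨1, one_pos, by simpa using mS x hx⟩
    | zero => exact ⟨1, one_pos, by simp⟩
    | add x y _ _ a b =>
      obtain ⟨k, hk, a⟩ := a
      obtain ⟨l, hl, b⟩ := b
      refine ⟨k * l, Nat.mul_pos hk hl, ?_⟩
      rw [smul_add]
      refine Λ.add_mem ?_ ?_
      · rw [Nat.mul_comm, Nat.cast_mul, mul_smul]
        exact sm _ (natCast_mem O l) _ a
      · rw [Nat.cast_mul, mul_smul]
        exact sm _ (natCast_mem O k) _ b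
    | smul c x _ a =>
      obtain ⟨k, hk, a⟩ := a
      obtain ⟨l, hl, b⟩ := A.full c
      refine ⟨l * k, Nat.mul_pos hl hk, ?_⟩
      rw [smul_smul, Nat.cast_mul, mul_assoc, (Nat.cast_commute k c).eq, ← mul_assoc, mul_smul]
      exact sm _ b _ a
  · intro x hx y hy
    induction hx using AddSubgroup.closure_induction with
    | mem x hx =>
      obtain ⟨a, ha, t, ht, rfl⟩ := hx
      induction hy using AddSubgroup.closure_induction with
      | mem y hy =>
        obtain ⟨b, hb, t', ht', rfl⟩ := hy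
        simp only [h.smul_left, H.smul_right]
        exact O.mul_mem ha (O.mul_mem (h1 t ht t' ht') (A.star_mem b hb))
      | zero => rw [map_zero]; exact O.zero_mem
      | add x y _ _ a b => rw [map_add]; exact O.add_mem a b
      | neg x _ a => rw [map_neg]; exact O.neg_mem a
    | zero => rw [h.zero_left]; exact O.zero_mem
    | add x y _ _ a b => rw [h.add_left]; exact O.add_mem a b
    | neg x _ a => rw [h.neg_left]; exact O.neg_mem a

theorem FrameEx_pairs (hB : HS ε h) : ∃ e₁ f₁ e₂ f₂ : V, Frame h ⊤ e₁ f₁ e₂ f₂ := by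
  obtain ⟨x, y, hl, xx, xy, yy⟩ := hB.plane
  have H := hB.toHerm
  have yx := H.perp xy
  rw [LinearIndependent.pair_iff] at hl
  obtain ⟨f, yf, xf⟩ := hB.exists_dual (z := y) (y := x) (fun e => by
    obtain ⟨c, hc⟩ := Submodule.mem_span_singleton.1 e
    simpa using (hl 1 (-c) (by rw [← hc]; simp)).1) 1
  obtain ⟨g, xg, yg⟩ := hB.exists_dual (z := x) (y := y) (fun e => by
    obtain ⟨c, hc⟩ := Submodule.mem_span_singleton.1 e
    simpa using (hl (-c) 1 (by rw [← hc]; simp)).2) 1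
  obtain ⟨f₁, xf1, yf1, ff1⟩ : ∃ f₁, h x f₁ = 1 ∧ h y f₁ = 0 ∧ h f₁ f₁ = 0 := by
    obtain ⟨a, ha⟩ := H.exists_hyp xx xf
    exact ⟨f + a • x, by rw [map_add, H.smul_right, xf, xx, zero_mul, add_zero],
      by rw [map_add, H.smul_right, yf, yx, zero_mul, add_zero], ha⟩
  obtain ⟨g', xg', yg', fg'⟩ : ∃ g', h x g' = 0 ∧ h y g' = 1 ∧ h f₁ g' = 0 :=
    ⟨g - h g f₁ • x, by rw [map_sub, H.smul_right, xg, xx, zero_mul, sub_zero],
      by rw [map_sub, H.smul_right, yg, yx, zero_mul, sub_zero],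
      H.perp (by rw [h.sub_left, h.smul_left, xf1, mul_one, sub_self])⟩
  obtain ⟨a, ha⟩ := H.exists_hyp yy yg'
  exact ⟨x, f₁, y, g' + a • y, trivial, trivial, trivial, trivial, xx, ff1, yy, ha, xf1,
    by rw [map_add, H.smul_right, yg', yy, zero_mul, add_zero], xy,
    by rw [map_add, H.smul_right, xg', xy, zero_mul, add_zero], H.perp yf1,
    by rw [map_add, H.smul_right, fg', H.perp yf1, zero_mul, add_zero]⟩

theorem FrameEx_den (A : Ar ε O N) {ι : Type} [Fintype ι] (c : ι → D) :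
    ∃ k : ℕ, 0 < k ∧ ∀ i, (k : D) * c i ∈ O := by
  choose k hk hO using fun i => A.full (c i)
  refine ⟨∏ i, k i, Finset.prod_pos fun i _ => hk i, fun i => ?_⟩
  obtain ⟨m, hm⟩ := Finset.dvd_prod_of_mem k (Finset.mem_univ i)
  rw [hm, Nat.mul_comm, Nat.cast_mul, mul_assoc]
  exact O.mul_mem (natCast_mem O m) (hO i)

theorem exists_frame (A : Ar ε O N) (hB : HS ε h) :
    ∃ (Λ : AddSubgroup V) (e₁ f₁ e₂ f₂ : V) (k : ℕ) (u w : Fin k → V), Lat ε h O Λ ∧
      Frame h Λ e₁ f₁ e₂ f₂ ∧ Compl h Λ e₁ f₁ e₂ f₂ u w := by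
  obtain ⟨e₁, f₁, e₂, f₂, -, -, -, -, a1, a2, a3, a4, a5, a6, a7, a8, a9, a10⟩ := FrameEx_pairs hB
  have H := hB.toHerm
  have := hB.fin
  have b5 := H.dual_one a5
  have b6 := H.dual_one a6
  have b7 := H.perp a7
  have b8 := H.perp a8
  have b9 := H.perp a9
  have b10 := H.perp a10
  have hε : ε ∈ O := by
    rcases H.eps with rfl | rfl
    exacts [O.one_mem, O.neg_mem O.one_mem]
  let W : Submodule D V :=
    { carrier := {v | Perp h e₁ f₁ e₂ f₂ v}
      add_mem' := fun ha hb => by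
        obtain ⟨h1, h2, h3, h4⟩ := ha; obtain ⟨k1, k2, k3, k4⟩ := hb
        refine ⟨?_, ?_, ?_, ?_⟩ <;> simp only [h.add_left, add_zero, *]
      zero_mem' := ⟨h.zero_left _, h.zero_left _, h.zero_left _, h.zero_left _⟩
      smul_mem' := fun c _ ha => by
        obtain ⟨h1, h2, h3, h4⟩ := ha
        refine ⟨?_, ?_, ?_, ?_⟩ <;> simp only [h.smul_left, mul_zero, *] }
  have hp : ∀ v, v - h v f₁ • e₁ - (h v e₁ * ε) • f₁ - h v f₂ • e₂ - (h v e₂ * ε) • f₂ ∈ W :=
    fun v => by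
      refine ⟨?_, ?_, ?_, ?_⟩ <;>
        simp only [h.sub_left, h.smul_left, a1, a2, a3, a4, a5, a6, a7, a8, a9, a10, b5, b6, b7,
          b8, b9, b10, mul_zero, sub_zero, mul_one, mul_assoc, H.eps_mul_eps, sub_self]
  let b := Module.finBasis D W
  obtain ⟨k₀, hk₀, hO⟩ := FrameEx_den A
    (fun p : Fin (Module.finrank D W) × Fin (Module.finrank D W) => h (b p.1) (b p.2))
  have hk : (k₀ : D) ≠ 0 := Nat.cast_ne_zero.2 hk₀.ne'
  let u : Fin (Module.finrank D W) → V := fun j => (k₀ : D) • (b j : V)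
  have up : ∀ j, Perp h e₁ f₁ e₂ f₂ (u j) := fun j => W.smul_mem _ (b j).2
  let S : Set V := {e₁, f₁, e₂, f₂} ∪ Set.range u
  obtain ⟨Λ, hΛ, mS⟩ := FrameEx_lat A H (S := S) ((Set.toFinite _).union (Set.finite_range u))
    (by
      have k2 : ∀ j, ∀ x ∈ ({e₁, f₁, e₂, f₂} : Set V), h (u j) x = 0 := by
        rintro j x (rfl | rfl | rfl | rfl)
        exacts [(up j).1, (up j).2.1, (up j).2.2.1, (up j).2.2.2]
      have k0 : ∀ q : D, q = 0 → q ∈ O := fun q e => e ▸ O.zero_mem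
      have k1 : ∀ q : D, q = 1 → q ∈ O := fun q e => e ▸ O.one_mem
      have k3 : ∀ q : D, q = ε → q ∈ O := fun q e => e ▸ hε
      rintro x (hx | ⟨i, rfl⟩) y (hy | ⟨j, rfl⟩)
      · rcases hx with rfl | rfl | rfl | rfl <;> rcases hy with rfl | rfl | rfl | rfl <;>
          first
          | exact k0 _ ‹_›
          | exact k1 _ ‹_›
          | exact k3 _ ‹_›
      · exact k0 _ (H.perp (k2 j x hx))
      · exact k0 _ (k2 i y hy)
      · simp only [u, h.smul_left, H.smul_right, star_natCast, ← mul_assoc]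
        exact O.mul_mem (hO (i, j)) (natCast_mem O k₀))
    (by
      set T := Submodule.span D S
      have mT : ∀ x ∈ S, x ∈ T := fun x hx => Submodule.subset_span hx
      have hW : ∀ w : W, (w : V) ∈ T := fun w => by
        rw [← b.sum_repr w]
        simp only [AddSubmonoidClass.coe_finsetSum, Submodule.coe_smul]
        exact T.sum_mem fun j _ => T.smul_mem _ ((T.smul_mem_iff hk).1 (mT (u j) (by simp [S])))
      refine eq_top_iff.2 fun v _ => ?_
      have := T.add_mem (T.add_mem (T.add_mem (T.add_mem (hW ⟨_, hp v⟩)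
        (T.smul_mem (h v e₂ * ε) (mT f₂ (by simp [S])))) (T.smul_mem (h v f₂) (mT e₂ (by simp [S]))))
        (T.smul_mem (h v e₁ * ε) (mT f₁ (by simp [S])))) (T.smul_mem (h v f₁) (mT e₁ (by simp [S])))
      simpa using this)
  have hli : LinearIndependent D fun j => (b j : V) :=
    b.linearIndependent.map' W.subtype W.ker_subtype
  have hw : ∀ j, ∃ w ∈ Λ, (∀ i, i ≠ j → h (u i) w = 0) ∧ h (u j) w ≠ 0 := by
    intro j
    obtain ⟨x, h1, h2⟩ := hB.exists_dual' (hli.notMem_span_image (s := {i | i ≠ j}) (x := j)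
      (by simp)) 1
    obtain ⟨l, hl, hx⟩ := hΛ.full x
    refine ⟨_, hx, fun i hi => ?_, ?_⟩
    · simp only [u, h.smul_left, H.smul_right]
      rw [h1 _ (Submodule.subset_span ⟨i, hi, rfl⟩), zero_mul, mul_zero]
    · simp only [u, h.smul_left, H.smul_right, star_natCast]
      rw [h2, one_mul]
      exact mul_ne_zero hk (Nat.cast_ne_zero.2 hl.ne')
  choose w hw1 hw2 hw3 using hw
  refine ⟨Λ, e₁, f₁, e₂, f₂, _, u, w, hΛ,
    ⟨mS _ (by simp [S]), mS _ (by simp [S]), mS _ (by simp [S]), mS _ (by simp [S]),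
      a1, a2, a3, a4, a5, a6, a7, a8, a9, a10⟩,
    ⟨fun j => mS _ (by simp [S]), up, hw1, fun i j e => hw2 j i e, hw3, fun x hx hu => ?_⟩⟩
  have k1 : hl h x ∘ₗ W.subtype = 0 := b.ext fun j => by
    have e := hu j
    simp only [u, H.smul_right, star_natCast] at e
    exact H.perp ((mul_eq_zero.1 e).resolve_right hk)
  refine hB.nondeg fun v => H.perp ?_
  have k2 : h _ x = 0 := congrArg (fun g => g ⟨_, hp v⟩) k1
  obtain ⟨h1, h2, h3, h4⟩ := hx
  simpa only [Submodule.subtype_apply, h.sub_left, h.smul_left, H.perp h1, H.perp h2, H.perp h3,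
    H.perp h4, mul_zero, sub_zero] using k2

end Pool.Agent.P.MP_d483fb_an.U
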