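import Pool.Agent.P.MP_d483fb_an.U.Arith

set_option autoImplicit false
set_option linter.unusedSectionVars false
set_option linter.unusedSimpArgs false

namespace Pool.Agent.P.MP_d483fb_an.U

variable {D V : Type} [DivisionRing D] [StarRing D] [CharZero D] [AddCommGroup V] [Module D V]
  {ε : D} {h : Form D V} {O : Subring D} {N : D → ℚ} {Λ : AddSubgroup V} {e₁ f₁ e₂ f₂ : V}

/-- `K` contains a multiple of the transvection along `w` with parameter `κ`. -/
def spreadT (ε : D) (h : Form D V) (K : Subgroup (V ≃ₗ[D] V)) (w : V) (κ : D) : Prop :=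
  ∃ m : ℕ, 0 < m ∧ eich ε h w 0 ((m : D) * κ) ∈ K

theorem spread_mul (H : Herm ε h) {K : Subgroup (V ≃ₗ[D] V)} {w : V} {κ : D} (hw : h w w = 0)
    (hκ : star κ + ε * κ = 0) {m : ℕ} (hm : eich ε h w 0 ((m : D) * κ) ∈ K) {n : ℕ} (hd : m ∣ n) :
    eich ε h w 0 ((n : D) * κ) ∈ K := by
  obtain ⟨j, rfl⟩ := hd
  have := K.pow_mem hm j
  rwa [tv_pow H hw (L_natCast hκ m), ← mul_assoc, ← Nat.cast_mul, mul_comm j m] at this

theorem spreadT_add (H : Herm ε h) {K : Subgroup (V ≃ₗ[D] V)} {w : V} {κ κ' : D} (hw : h w w = 0)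
    (hκ : star κ + ε * κ = 0) (hκ' : star κ' + ε * κ' = 0) (a : spreadT ε h K w κ)
    (b : spreadT ε h K w κ') : spreadT ε h K w (κ + κ') := by
  obtain ⟨m, hm, a⟩ := a
  obtain ⟨n, hn, b⟩ := b
  refine ⟨m * n, Nat.mul_pos hm hn, ?_⟩
  rw [mul_add, eich_add_L H (Val.tv hw (L_natCast hκ _)) (L_natCast hκ' _)]
  exact K.mul_mem (spread_mul H hw hκ a (dvd_mul_right m n))
    (spread_mul H hw hκ' b (dvd_mul_left n m))

theorem spreadT_neg (H : Herm ε h) {K : Subgroup (V ≃ₗ[D] V)} {w : V} {κ : D} (hw : h w w = 0)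
    (hκ : star κ + ε * κ = 0) (a : spreadT ε h K w κ) : spreadT ε h K w (-κ) := by
  obtain ⟨m, hm, a⟩ := a
  refine ⟨m, hm, ?_⟩
  rw [mul_neg, ← tv_inv H hw (L_natCast hκ m)]
  exact K.inv_mem a

theorem spreadT_sat {K : Subgroup (V ≃ₗ[D] V)} {w : V} {κ : D} {k : ℕ} (hk : 0 < k)
    (a : spreadT ε h K w ((k : D) * κ)) : spreadT ε h K w κ := by
  obtain ⟨m, hm, a⟩ := a
  refine ⟨m * k, Nat.mul_pos hm hk, ?_⟩
  rwa [Nat.cast_mul, mul_assoc]

theorem spread_pm (H : Herm ε h) {e y : V} {l : D} (he : h e e = 0) (hy : h y y = 0)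
    (hye : h y e = 0) (hl : star l + ε * l = 0) :
    eich ε h (e + y) 0 l * eich ε h (e - y) 0 l = eich ε h e 0 (l + l) * eich ε h y 0 (l + l) := by
  have hey := H.perp hye
  ext x
  rw [mul_apply', mul_apply', tv_apply H (z := e + y) (by simp [he, hy, hye, hey]) hl,
    tv_apply H (z := e - y) (by simp [he, hy, hye, hey]) hl, tv_apply H he (L_add hl hl),
    tv_apply H hy (L_add hl hl)]
  simp only [map_add, map_sub, AddMonoidHom.add_apply, AddMonoidHom.sub_apply, h.smul_left,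
    H.smul_right, he, hy, hye, hey]
  match_scalars <;> noncomm_ring

theorem spread_conj (hB : HS ε h) {Γ K : Subgroup (V ≃ₗ[D] V)} (hΓ : Ample ε h Γ) (hK : Nrm Γ K)
    {e w : V} {l : D} (he : h e e = 0) (hl : star l + ε * l = 0) (hm : eich ε h e 0 l ∈ K)
    (hw : h w w = 0) (hwe : h w e = 0) (hn : e ∉ Submodule.span D {w}) (a : D) :
    spreadT ε h K w (star a * l * a) := by
  have H := hB.toHerm
  have hew := H.perp hwe
  obtain ⟨u, hwu, heu⟩ := hB.exists_dual hn (-(a * ε))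
  have huw := H.perp hwu
  have hv := Val.can H hw huw
  obtain ⟨k, hk, hγ⟩ := hΓ.2 w u _ hv
  obtain ⟨hv', hp⟩ := eich_pow H hv k
  rw [hp] at hγ
  generalize (k : D) * -(ε * h u u * 2⁻¹) - (k.choose 2 : D) * (ε * h u u) = μ at hv' hγ
  have hkc : ∀ b : D, b * (k : D) = (k : D) * b := fun b => (Nat.cast_commute k b).eq.symm
  have g1 : eich ε h w ((k : D) • u) μ e = e + ((k : D) * a) • w := by
    rw [eich_apply H hv', hew, zero_smul, add_zero, zero_mul, zero_sub, H.smul_right, heu,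
      star_natCast, hkc]
    congr 2
    rcases H.eps with rfl | rfl <;> noncomm_ring
  have g2 : (eich ε h w ((k : D) • u) μ)⁻¹ e = e - ((k : D) * a) • w := by
    rw [eich_inv H hv', eich_apply H (hv'.neg H), hew, zero_smul, add_zero, zero_mul, zero_sub,
      map_neg, H.smul_right, heu, star_natCast, hkc, sub_eq_add_neg, ← neg_smul]
    congr 2
    rcases H.eps with rfl | rfl <;> noncomm_ring
  have b1 := hK _ hγ _ hm
  have b2 := hK _ (Γ.inv_mem hγ) _ hm
  rw [eich_conj H (hΓ.1 hγ) (Val.tv he hl), g1, map_zero] at b1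
  rw [eich_conj H (hΓ.1 (Γ.inv_mem hγ)) (Val.tv he hl), g2, map_zero] at b2
  have hy : h (((k : D) * a) • w) (((k : D) * a) • w) = 0 := by
    rw [h.smul_left, H.smul_right, hw, zero_mul, mul_zero]
  have hye : h (((k : D) * a) • w) e = 0 := by rw [h.smul_left, hwe, mul_zero]
  have b3 := K.mul_mem b1 b2
  rw [spread_pm H he hy hye hl] at b3
  have b4 : eich ε h e 0 (l + l) ∈ K := by
    rw [eich_add_L H (Val.tv he hl) hl]
    exact K.mul_mem hm hm
  have b5 := (K.mul_mem_cancel_left b4).1 b3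
  rw [eich_smul_left H _ hw (h.zero_left w) (Val.tv hy (L_add hl hl)), smul_zero] at b5
  refine ⟨2 * k * k, by positivity, ?_⟩
  convert b5 using 2
  rw [star_mul, star_natCast, hkc (star a)]
  have e1 : (k : D) * star a * (l + l) * ((k : D) * a) =
      (k : D) * ((star a * (l + l)) * (k : D)) * a := by noncomm_ring
  rw [e1, hkc]
  push_cast
  noncomm_ring

theorem spread_step (hB : HS ε h) {Γ K : Subgroup (V ≃ₗ[D] V)} (hΓ : Ample ε h Γ) (hK : Nrm Γ K)
    {e w : V} {l : D} (he : h e e = 0) (hl0 : l ≠ 0) (hl : star l + ε * l = 0)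
    (hm : eich ε h e 0 l ∈ K) (hw : h w w = 0) (hwe : h w e = 0) (hn : e ∉ Submodule.span D {w})
    (κ : D) (hκ : star κ + ε * κ = 0) : spreadT ε h K w κ := by
  have H := hB.toHerm
  have s := spread_conj hB hΓ hK he hl hm hw hwe hn
  have c1 := L_conj H hl (1 + l⁻¹ * κ)
  have c2 := L_conj H hl 1
  have c3 := L_conj H hl (l⁻¹ * κ)
  have s1 := spreadT_add H hw (L_add c1 (L_neg c2)) (L_neg c3)
    (spreadT_add H hw c1 (L_neg c2) (s _) (spreadT_neg H hw c2 (s _))) (spreadT_neg H hw c3 (s _))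
  have q1 : l * (l⁻¹ * κ) = κ := by rw [← mul_assoc, mul_inv_cancel₀ hl0, one_mul]
  have q2 : star (l⁻¹ * κ) * l = κ := by
    have r1 : star l * (l⁻¹ * κ) = -(ε * κ) := by
      rw [eq_neg_of_add_eq_zero_left hl, neg_mul, mul_assoc, q1]
    have r2 := congrArg star r1
    rw [star_mul, star_star, star_neg, star_mul ε, H.star_eps,
      eq_neg_of_add_eq_zero_left hκ] at r2
    rw [r2]
    rcases H.eps with rfl | rfl <;> noncomm_ring
  refine spreadT_sat (k := 2) two_pos ?_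
  convert s1 using 1
  generalize l⁻¹ * κ = b at q1 q2
  have e1 : star (1 + b) * l * (1 + b) + -(star 1 * l * 1) + -(star b * l * b) =
      l * b + star b * l := by
    rw [star_add, star_one]
    noncomm_ring
  rw [e1, q1, q2, Nat.cast_ofNat, two_mul]

theorem spread_not_mem {e z : V} (hz : z ≠ 0) (he : e ∉ Submodule.span D {z}) :
    z ∉ Submodule.span D {e} := by
  intro h1
  obtain ⟨c, hc⟩ := Submodule.mem_span_singleton.1 h1
  have hc0 : c ≠ 0 := by
    rintro rfl
    exact hz (by rw [← hc, zero_smul])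
  exact he (Submodule.mem_span_singleton.2 ⟨c⁻¹, by
    rw [← hc, smul_smul, inv_mul_cancel₀ hc0, one_smul]⟩)

/-- From one transvection to multiples of all transvections. -/
theorem tv_all (hB : HS ε h) {Γ K : Subgroup (V ≃ₗ[D] V)} (hΓ : Ample ε h Γ) (hK : Nrm Γ K)
    {z : V} {l : D} (hz0 : z ≠ 0) (hl0 : l ≠ 0) (hz : h z z = 0) (hl : star l + ε * l = 0)
    (hm : eich ε h z 0 l ∈ K) (w : V) (hw : h w w = 0) (κ : D) (hκ : star κ + ε * κ = 0) :
    ∃ m : ℕ, 0 < m ∧ eich ε h w 0 ((m : D) * κ) ∈ K := by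
  have H := hB.toHerm
  have two : ∀ e, h e e = 0 → h e z = 0 → z ∉ Submodule.span D {e} → h w e = 0 →
      e ∉ Submodule.span D {w} → spreadT ε h K w κ := by
    intro e he hez hn hwe hn'
    obtain ⟨m, hm0, a⟩ := spread_step hB hΓ hK hz hl0 hl hm he hez hn l hl
    exact spread_step hB hΓ hK he (mul_ne_zero (Nat.cast_ne_zero.2 hm0.ne') hl0) (L_natCast hl m) a
      hw hwe hn' κ hκ
  by_cases h1 : h w z = 0
  · by_cases h2 : z ∈ Submodule.span D {w}
    · obtain ⟨e, he, hew, hn⟩ := hB.exists_iso w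
      obtain ⟨c, rfl⟩ := Submodule.mem_span_singleton.1 h2
      refine two e he (by rw [H.smul_right, hew, zero_mul]) (spread_not_mem hz0 fun h3 => hn ?_)
        (H.perp hew) hn
      obtain ⟨d, hd⟩ := Submodule.mem_span_singleton.1 h3
      exact Submodule.mem_span_singleton.2 ⟨d * c, by rw [← hd, smul_smul]⟩
    · exact spread_step hB hΓ hK hz hl0 hl hm hw h1 h2 κ hκ
  · have h1' : h z w ≠ 0 := fun h3 => h1 (H.perp h3)
    obtain ⟨e, he0, he, hez, hew⟩ := hB.exists_iso₂ hz h1'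
    refine two e he hez (fun h3 => ?_) (H.perp hew) (fun h3 => ?_)
    · obtain ⟨c, hc⟩ := Submodule.mem_span_singleton.1 h3
      exact h1' (by rw [← hc, h.smul_left, hew, mul_zero])
    · obtain ⟨c, hc⟩ := Submodule.mem_span_singleton.1 h3
      have hc0 : c ≠ 0 := by
        rintro rfl
        exact he0 (by rw [← hc, zero_smul])
      rw [← hc, h.smul_left] at hez
      exact h1 ((mul_eq_zero.1 hez).resolve_left hc0)

theorem spread_pow_comm {G : Type} [Group G] {a b c : G} (hab : b * a = a * b * c)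
    (hbc : Commute b c) (n : ℕ) : b ^ n * a = a * b ^ n * c ^ n := by
  induction n with
  | zero => simp
  | succ n ih =>
    rw [pow_succ', mul_assoc, ih, ← mul_assoc, ← mul_assoc, hab, mul_assoc (a * b) c,
      (hbc.pow_left n).eq.symm, pow_succ' c n]
    simp only [mul_assoc]

theorem spread_mul_pow {G : Type} [Group G] {a b c : G} (hab : b * a = a * b * c)
    (hac : Commute a c) (hbc : Commute b c) (n : ℕ) :
    (a * b) ^ n = a ^ n * b ^ n * c ^ n.choose 2 := by
  induction n with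
  | zero => simp
  | succ n ih =>
    have e1 : (n + 1).choose 2 = n + n.choose 2 := by
      rw [Nat.choose_succ_succ', Nat.choose_one_right]
    have e2 : c ^ n.choose 2 * (a * b) = a * b * c ^ n.choose 2 :=
      ((hac.mul_left hbc).pow_right _).eq.symm
    have e3 : c ^ n * b = b * c ^ n := (hbc.pow_right n).eq.symm
    calc (a * b) ^ (n + 1) = a ^ n * b ^ n * (c ^ n.choose 2 * (a * b)) := by
          rw [pow_succ, ih, mul_assoc]
      _ = a ^ n * (b ^ n * a) * b * c ^ n.choose 2 := by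
          rw [e2]; simp only [mul_assoc]
      _ = a ^ n * a * b ^ n * (c ^ n * b) * c ^ n.choose 2 := by
          rw [spread_pow_comm hab hbc]; simp only [mul_assoc]
      _ = a ^ (n + 1) * b ^ (n + 1) * c ^ (n + 1).choose 2 := by
          rw [e3, e1, pow_add c, pow_succ a, pow_succ b]; simp only [mul_assoc]

/-- `K` contains a power of some Eichler transformation with data `z`, `u`. -/
def spreadY (ε : D) (h : Form D V) (K : Subgroup (V ≃ₗ[D] V)) (z u : V) : Prop :=
  ∃ μ, Val ε h z u μ ∧ ∃ m : ℕ, 0 < m ∧ eich ε h z u μ ^ m ∈ K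

theorem spread_pow_dvd {G : Type} [Group G] {K : Subgroup G} {a : G} {m n : ℕ} (hm : a ^ m ∈ K)
    (hd : m ∣ n) : a ^ n ∈ K := by
  obtain ⟨j, rfl⟩ := hd
  rw [pow_mul]
  exact K.pow_mem hm j

theorem spread_commute (H : Herm ε h) {z u : V} {μ l : D} (a : Val ε h z u μ)
    (hl : star l + ε * l = 0) : Commute (eich ε h z u μ) (eich ε h z 0 l) :=
  (eich_add_L H a hl).symm.trans (eich_add_L' H a hl)

theorem spreadY_add (H : Herm ε h) {K : Subgroup (V ≃ₗ[D] V)}
    (hK : ∀ w, h w w = 0 → ∀ κ, star κ + ε * κ = 0 →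
      ∃ m : ℕ, 0 < m ∧ eich ε h w 0 ((m : D) * κ) ∈ K) {z u u' : V} (a : spreadY ε h K z u)
    (b : spreadY ε h K z u') : spreadY ε h K z (u + u') := by
  obtain ⟨μ, a, m, hm, a'⟩ := a
  obtain ⟨μ', b, m', hm', b'⟩ := b
  have hκ := (eich_comm H b a).1
  obtain ⟨n, hn, c⟩ := hK z a.zz _ hκ
  rw [← tv_pow H a.zz hκ] at c
  refine ⟨_, a.add H b, 2 * (m * m' * n), by positivity, ?_⟩
  have e1 : eich ε h z u' μ' * eich ε h z u μ =
      eich ε h z u μ * eich ε h z u' μ' * eich ε h z 0 (ε * h u' u - ε * h u u') := by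
    rw [eich_mul H b a, eich_mul H a b, ← eich_add_L H (a.add H b) hκ, add_comm u' u]
    congr 1
    noncomm_ring
  rw [← eich_mul H a b, spread_mul_pow e1 (spread_commute H a hκ) (spread_commute H b hκ)]
  refine K.mul_mem (K.mul_mem (spread_pow_dvd a' ⟨2 * (m' * n), by ring⟩)
    (spread_pow_dvd b' ⟨2 * (m * n), by ring⟩)) (spread_pow_dvd c ?_)
  rw [Nat.choose_two_right, mul_assoc, Nat.mul_div_cancel_left _ two_pos]
  exact Dvd.dvd.mul_right (dvd_mul_left n _) _

theorem spreadY_iso (H : Herm ε h) (hL : ∃ x : D, x ≠ 0 ∧ star x + ε * x = 0)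
    {K : Subgroup (V ≃ₗ[D] V)}
    (hK : ∀ w, h w w = 0 → ∀ κ, star κ + ε * κ = 0 →
      ∃ m : ℕ, 0 < m ∧ eich ε h w 0 ((m : D) * κ) ∈ K) {z u : V} (hz : h z z = 0)
    (huz : h u z = 0) (hu : h u u = 0) (c : D) : spreadY ε h K z (c • u) := by
  have huz' : h (c • u) z = 0 := by rw [h.smul_left, huz, mul_zero]
  have hu' : h (c • u) (c • u) = 0 := by rw [h.smul_left, H.smul_right, hu, zero_mul, mul_zero]
  generalize c • u = v at huz' hu'
  obtain ⟨l, hl0, hl⟩ := hL
  have hyz : h (l⁻¹ • v) z = 0 := by rw [h.smul_left, huz', mul_zero]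
  have hy : h (l⁻¹ • v) (l⁻¹ • v) = 0 := by rw [h.smul_left, H.smul_right, hu', zero_mul, mul_zero]
  have hs : h (z + l⁻¹ • v) (z + l⁻¹ • v) = 0 := by
    simp only [map_add, AddMonoidHom.add_apply, hz, hy, hyz, H.perp hyz, add_zero]
  obtain ⟨k₁, hk₁, c₁⟩ := hK _ hs l hl
  obtain ⟨k₂, hk₂, c₂⟩ := hK _ hy l hl
  obtain ⟨k₃, hk₃, c₃⟩ := hK _ hz l hl
  refine ⟨0, Val.iso hz huz' hu', k₁ * k₂ * k₃, by positivity, ?_⟩
  have d₁ := spread_mul H hs hl c₁ (n := k₁ * k₂ * k₃) ⟨k₂ * k₃, by ring⟩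
  have d₂ := spread_mul H hy hl c₂ (n := k₁ * k₂ * k₃) ⟨k₁ * k₃, by ring⟩
  have d₃ := spread_mul H hz hl c₃ (n := k₁ * k₂ * k₃) ⟨k₁ * k₂, by ring⟩
  rw [tv_add H hz hyz hy (L_natCast hl _), K.mul_mem_cancel_right d₃, K.mul_mem_cancel_left d₂,
    smul_smul, mul_assoc, mul_inv_cancel₀ hl0, mul_one] at d₁
  rwa [iso_pow H hz huz' hu']

/-- From multiples of all transvections to powers of all Eichler transformations. -/
theorem good_of_tv (hB : HS ε h) (hL : ∃ x : D, x ≠ 0 ∧ star x + ε * x = 0)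
    {K : Subgroup (V ≃ₗ[D] V)}
    (hK : ∀ w, h w w = 0 → ∀ κ, star κ + ε * κ = 0 →
      ∃ m : ℕ, 0 < m ∧ eich ε h w 0 ((m : D) * κ) ∈ K) (z : V) : Good ε h K z := by
  have H := hB.toHerm
  intro u μ hv
  have hz := hv.zz
  have hY : spreadY ε h K z u := by
    obtain ⟨e, he, hez, hn⟩ := hB.exists_iso z
    obtain ⟨x, hzx, hex⟩ := hB.exists_dual hn 1
    obtain ⟨a, hf⟩ := H.exists_hyp he hex
    have hfz : h (x + a • e) z = 0 := by
      rw [h.add_left, h.smul_left, hez, H.perp hzx, mul_zero, add_zero]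
    have hef : h e (x + a • e) = 1 := by
      rw [map_add, H.smul_right, he, hex, zero_mul, add_zero]
    generalize x + a • e = f at hf hfz hef
    have hfe := H.dual_one hef
    obtain ⟨w, hw⟩ : ∃ w, w = u - h u f • e - (h u e * ε) • f := ⟨_, rfl⟩
    have hwe : h w e = 0 := by
      rw [hw, h.sub_left, h.sub_left, h.smul_left, h.smul_left, he, hfe, mul_zero, sub_zero,
        mul_assoc, H.eps_mul_eps, mul_one, sub_self]
    have hwf : h w f = 0 := by
      rw [hw, h.sub_left, h.sub_left, h.smul_left, h.smul_left, hef, hf, mul_one, sub_self,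
        mul_zero, sub_zero]
    have hwz : h w z = 0 := by
      rw [hw, h.sub_left, h.sub_left, h.smul_left, h.smul_left, hez, hfz, hv.uz, mul_zero,
        mul_zero, sub_zero, sub_zero]
    have hc := Val.can H he hwe
    generalize -(ε * h w w * 2⁻¹) = ν at hc
    have g1 : eich ε h e w ν f = f + ε • w + (ε * ν) • e := by
      rw [eich_apply H hc, hfe, H.perp hwf, zero_mul, sub_zero]
    have g2 : h (eich ε h e w ν f) (eich ε h e w ν f) = 0 := by
      rw [eich_mem_UG e w ν f f, hf]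
    have g3 : h (eich ε h e w ν f) z = 0 := by
      rw [g1, h.add_left, h.add_left, h.smul_left, h.smul_left, hfz, hwz, hez, mul_zero, mul_zero,
        add_zero, add_zero]
    have g4 : u = (h u f - ν) • e + (h u e * ε - ε) • f + ε • eich ε h e w ν f := by
      rw [g1, smul_add, smul_add, smul_smul, smul_smul, H.eps_mul_eps, H.eps_eps_mul, one_smul, hw,
        sub_smul, sub_smul]
      abel
    rw [g4]
    exact spreadY_add H hK (spreadY_add H hK (spreadY_iso H hL hK hz hez he _)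
      (spreadY_iso H hL hK hz hfz hf _)) (spreadY_iso H hL hK hz g3 g2 _)
  obtain ⟨μ', hv', m, hm, a⟩ := hY
  have hκ := hv.sub_L hv'
  obtain ⟨n, hn, c⟩ := hK z hz _ hκ
  rw [← tv_pow H hz hκ] at c
  refine ⟨m * n, Nat.mul_pos hm hn, ?_⟩
  have e1 : eich ε h z u μ = eich ε h z u μ' * eich ε h z 0 (μ - μ') := by
    rw [← eich_add_L H hv' hκ, add_sub_cancel]
  rw [e1, (spread_commute H hv' hκ).mul_pow]
  exact K.mul_mem (spread_pow_dvd a (dvd_mul_right m n)) (spread_pow_dvd c (dvd_mul_left n m))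

end Pool.Agent.P.MP_d483fb_an.U
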