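import Pool.Agent.P.MP_d483fb_an.U.First
import Pool.Agent.P.MP_d483fb_an.U.Spread
import Pool.Agent.P.MP_d483fb_an.U.FI
import Pool.Agent.P.MP_d483fb_an.U.FrameEx
import Pool.Agent.P.MP_d483fb_an.NST

set_option autoImplicit false
set_option linter.unusedSectionVars false

namespace Pool.Agent.P.MP_d483fb_an.U

variable {D V : Type} [DivisionRing D] [StarRing D] [CharZero D] [AddCommGroup V] [Module D V]
  {ε : D} {h : Form D V} {O : Subring D} {N : D → ℚ} {Λ : AddSubgroup V} {e₁ f₁ e₂ f₂ : V}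

/-- A finitely generated group covered by a directed family of subgroups lies in one of them. -/
theorem NST_unif {W : Type} [AddCommGroup W] (S : ℕ → AddSubgroup W)
    (hS : ∀ m k, 0 < k → S m ≤ S (k * m)) {P : AddSubgroup W} (hP : P.FG) :
    (∀ x ∈ P, ∃ m : ℕ, 0 < m ∧ x ∈ S m) → ∃ m : ℕ, 0 < m ∧ P ≤ S m := by
  refine fg_induction (P := fun P => (∀ x ∈ P, ∃ m : ℕ, 0 < m ∧ x ∈ S m) →
    ∃ m : ℕ, 0 < m ∧ P ≤ S m) (fun _ => ⟨1, one_pos, bot_le⟩) (fun a L _ ih hx => ?_) hP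
  obtain ⟨m₁, hm₁, h₁⟩ := ih fun x hx' => hx x (AddSubgroup.mem_sup_right hx')
  obtain ⟨m₂, hm₂, h₂⟩ := hx a (AddSubgroup.mem_sup_left (AddSubgroup.mem_zmultiples a))
  refine ⟨m₁ * m₂, Nat.mul_pos hm₁ hm₂, sup_le ?_ ?_⟩
  · exact (AddSubgroup.zmultiples_le_of_mem h₂).trans (hS m₂ m₁ hm₁)
  · rw [mul_comm]
    exact h₁.trans (hS m₁ m₂ hm₂)

theorem NST_h_cast (H : Herm ε h) (a b : ℕ) (u u' : V) :
    h ((a : D) • u) ((b : D) • u') = ((a * b : ℕ) : D) * h u u' := by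
  rw [h.smul_left, H.smul_right, star_natCast, ← (Nat.cast_commute b (h u u')).eq, Nat.cast_mul,
    mul_assoc]

theorem NST_eps_cast (a : ℕ) (x : D) : ε * ((a : D) * x) = (a : D) * (ε * x) := by
  rw [← mul_assoc, ← (Nat.cast_commute a ε).eq, mul_assoc]

/-- The parameters of transvections of level `m` in `K`. -/
def NST_tv (H : Herm ε h) (K : Subgroup (V ≃ₗ[D] V)) {z : V} (hz : h z z = 0) (m : ℕ) :
    AddSubgroup D where
  carrier := {l | star l + ε * l = 0 ∧ eich ε h z 0 ((m : D) * l) ∈ K}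
  zero_mem' := ⟨by simp, by rw [mul_zero, eich_zero_right]; exact K.one_mem⟩
  add_mem' := fun {a b} ha hb => ⟨L_add ha.1 hb.1, by
    rw [mul_add, eich_add_L H (Val.tv hz (L_natCast ha.1 m)) (L_natCast hb.1 m)]
    exact K.mul_mem ha.2 hb.2⟩
  neg_mem' := fun {a} ha => ⟨L_neg ha.1, by
    rw [mul_neg, ← tv_inv H hz (L_natCast ha.1 m)]
    exact K.inv_mem ha.2⟩

theorem NST_tv_level (A : Ar ε O N) (H : Herm ε h) {K : Subgroup (V ≃ₗ[D] V)} {z : V}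
    (hz : h z z = 0) (hg : Good ε h K z) : ∃ m : ℕ, 0 < m ∧
      ∀ l ∈ O, star l + ε * l = 0 → eich ε h z 0 ((m : D) * l) ∈ K := by
  obtain ⟨m, hm, hle⟩ := NST_unif (NST_tv H K hz) (fun m k _ l hl => ⟨hl.1, by
      rw [Nat.cast_mul, mul_assoc, ← tv_pow H hz (L_natCast hl.1 m)]
      exact K.pow_mem hl.2 k⟩)
    (fg_of_le A.fg (inf_le_left : O.toAddSubgroup ⊓ NST_tv H ⊤ hz 0 ≤ O.toAddSubgroup))
    (fun l hl => by
      obtain ⟨m, hm, e⟩ := hg 0 l (Val.tv hz hl.2.1)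
      exact ⟨m, hm, hl.2.1, by rwa [tv_pow H hz hl.2.1] at e⟩)
  exact ⟨m, hm, fun l hl hl' => (hle (x := l) ⟨hl, hl', Subgroup.mem_top _⟩).2⟩

/-- The vectors `u` with an Eichler transformation `E (z, j m u, m μ)` in `K`. -/
def NST_ei (hΛ : Lat ε h O Λ) (K : Subgroup (V ≃ₗ[D] V)) {z : V} (hz : h z z = 0) (m j : ℕ) :
    AddSubgroup V where
  carrier := {u | u ∈ Λ ∧ ∃ μ ∈ O, Val ε h z (((j * m : ℕ) : D) • u) ((m : D) * μ) ∧
    eich ε h z (((j * m : ℕ) : D) • u) ((m : D) * μ) ∈ K}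
  zero_mem' := ⟨Λ.zero_mem, 0, O.zero_mem, by
    rw [smul_zero, mul_zero, eich_zero_right]
    exact ⟨Val.tv hz (by simp), K.one_mem⟩⟩
  add_mem' := fun {a b} ha hb => by
    have H := hΛ.toHerm
    obtain ⟨ha, μ, hμ, va, ka⟩ := ha
    obtain ⟨hb, ν, hν, vb, kb⟩ := hb
    have e : (m : D) * (μ + ν - ((j * (j * m) : ℕ) : D) * (ε * h b a)) =
        (m : D) * μ + (m : D) * ν - ε * h (((j * m : ℕ) : D) • b) (((j * m : ℕ) : D) • a) := by
      rw [NST_h_cast H, NST_eps_cast, mul_sub, mul_add, ← mul_assoc (m : D), ← Nat.cast_mul,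
        show m * (j * (j * m)) = j * m * (j * m) by ring]
    refine ⟨Λ.add_mem ha hb, μ + ν - ((j * (j * m) : ℕ) : D) * (ε * h b a),
      O.sub_mem (O.add_mem hμ hν) (O.mul_mem (natCast_mem O _)
        (O.mul_mem (H.eps_mem O) (hΛ.int _ hb _ ha))), ?_⟩
    rw [e, smul_add, ← eich_mul H va vb]
    exact ⟨va.add H vb, K.mul_mem ka kb⟩
  neg_mem' := fun {a} ha => by
    have H := hΛ.toHerm
    obtain ⟨ha, μ, hμ, va, ka⟩ := ha
    have e : (m : D) * (ε * star μ) = ε * star ((m : D) * μ) := by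
      rw [star_mul, star_natCast, ← (Nat.cast_commute m (star μ)).eq, NST_eps_cast]
    refine ⟨Λ.neg_mem ha, ε * star μ, O.mul_mem (H.eps_mem O) (hΛ.star_mem _ hμ), ?_⟩
    rw [e, smul_neg, ← eich_inv H va]
    exact ⟨va.neg H, K.inv_mem ka⟩

theorem NST_ei_mono (hΛ : Lat ε h O Λ) (K : Subgroup (V ≃ₗ[D] V)) {z : V} (hz : h z z = 0)
    (m j k : ℕ) : NST_ei hΛ K hz m j ≤ NST_ei hΛ K hz m (k * j) := by
  have H := hΛ.toHerm
  rintro a ⟨ha, μ, hμ, va, ka⟩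
  obtain ⟨v, e⟩ := eich_pow H va k
  have e1 : (k : D) • ((j * m : ℕ) : D) • a = ((k * j * m : ℕ) : D) • a := by
    rw [smul_smul, ← Nat.cast_mul, mul_assoc]
  have e2 : (k : D) * ((m : D) * μ) - (k.choose 2 : D) *
      (ε * h (((j * m : ℕ) : D) • a) (((j * m : ℕ) : D) • a)) =
      (m : D) * ((k : D) * μ - ((k.choose 2 * (j * (j * m)) : ℕ) : D) * (ε * h a a)) := by
    rw [NST_h_cast H, NST_eps_cast (j * m * (j * m))]
    simp only [← nsmul_eq_mul]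
    module
  rw [e2, e1] at v e
  exact ⟨ha, _, O.sub_mem (O.mul_mem (natCast_mem O _) hμ) (O.mul_mem (natCast_mem O _)
    (O.mul_mem (H.eps_mem O) (hΛ.int _ ha _ ha))), v, e ▸ K.pow_mem ka k⟩

theorem NST_ei_mem (hΛ : Lat ε h O Λ) {K : Subgroup (V ≃ₗ[D] V)} {z : V} (hz : h z z = 0)
    (hg : Good ε h K z) (m : ℕ) {a : V} (ha : a ∈ Λ) (haz : h a z = 0) :
    ∃ j : ℕ, 0 < j ∧ a ∈ NST_ei hΛ K hz m j := by
  have H := hΛ.toHerm
  have va : Val ε h z (((2 : ℕ) : D) • a) (-(((2 : ℕ) : D) * (ε * h a a))) := by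
    have := Val.can H (u := ((2 : ℕ) : D) • a) hz (by rw [h.smul_left, haz, mul_zero])
    convert this using 2
    rw [NST_h_cast H, NST_eps_cast, eq_mul_inv_iff_mul_eq₀ two_ne_zero, mul_two]
    simp only [← nsmul_eq_mul]
    module
  obtain ⟨n, hn, kn⟩ := hg _ _ va
  obtain ⟨v, e⟩ := eich_pow H va (n * m)
  have e1 : ((n * m : ℕ) : D) • ((2 : ℕ) : D) • a = ((2 * n * m : ℕ) : D) • a := by
    rw [smul_smul, ← Nat.cast_mul, show n * m * 2 = 2 * n * m by ring]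
  have hc : (n * m).choose 2 * 2 = n * m * (n * m - 1) := by
    rw [Nat.choose_two_right, Nat.div_mul_cancel (Nat.even_mul_pred_self _).two_dvd]
  have e2 : ((n * m : ℕ) : D) * (-(((2 : ℕ) : D) * (ε * h a a))) - ((n * m).choose 2 : D) *
      (ε * h (((2 : ℕ) : D) • a) (((2 : ℕ) : D) • a)) =
      (m : D) * (-(((n * 2 : ℕ) : D) * (ε * h a a)) -
        ((n * (n * m - 1) * 2 : ℕ) : D) * (ε * h a a)) := by
    rw [NST_h_cast H, NST_eps_cast, mul_sub, mul_neg, mul_neg, ← mul_assoc (m : D),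
      ← mul_assoc (m : D), ← mul_assoc ((n * m : ℕ) : D), ← mul_assoc ((n * m).choose 2 : D),
      ← Nat.cast_mul, ← Nat.cast_mul, ← Nat.cast_mul, ← Nat.cast_mul, ← mul_assoc _ 2 2, hc,
      show n * m * 2 = m * (n * 2) by ring,
      show n * m * (n * m - 1) * 2 = m * (n * (n * m - 1) * 2) by ring]
  rw [e2, e1] at v e
  have hO : ε * h a a ∈ O := O.mul_mem (H.eps_mem O) (hΛ.int _ ha _ ha)
  refine ⟨2 * n, by omega, ha, _, O.sub_mem (O.neg_mem (O.mul_mem (natCast_mem O _) hO))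
    (O.mul_mem (natCast_mem O _) hO), v, ?_⟩
  rw [← e, pow_mul]
  exact K.pow_mem kn m

/-- A uniform level. -/
theorem lvl_of_good (A : Ar ε O N) (hΛ : Lat ε h O Λ) {K : Subgroup (V ≃ₗ[D] V)} {z : V}
    (hg : Good ε h K z) : ∃ m : ℕ, 0 < m ∧ ∀ k : ℕ, 0 < k → Lvl ε h O Λ (k * m) K z := by
  have H := hΛ.toHerm
  by_cases hz : h z z = 0
  swap
  · exact ⟨1, one_pos, fun k _ u _ μ _ hv => absurd hv.zz hz⟩
  obtain ⟨m, hm, htv⟩ := NST_tv_level A H hz hg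
  obtain ⟨j, hj, hle⟩ := NST_unif (NST_ei hΛ K hz m) (fun j k _ => NST_ei_mono hΛ K hz m j k)
    (fg_of_le hΛ.fg (inf_le_left : Λ ⊓ (LinearMap.ker (hl h z)).toAddSubgroup ≤ Λ))
    (fun a ha => NST_ei_mem hΛ hz hg m ha.1 ha.2)
  refine ⟨j * m, Nat.mul_pos hj hm, fun k hk u hu μ hμ hv => ?_⟩
  have hne : ((k * (j * m) : ℕ) : D) ≠ 0 :=
    Nat.cast_ne_zero.2 (Nat.mul_pos hk (Nat.mul_pos hj hm)).ne'
  have huz : h u z = 0 := by
    have := hv.uz
    rw [h.smul_left] at this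
    exact (mul_eq_zero.1 this).resolve_left hne
  obtain ⟨-, ν, hν, vν, kν⟩ := NST_ei_mono hΛ K hz m j k (hle (x := u) ⟨hu, huz⟩)
  rw [mul_assoc] at vν kν
  have e : ((k * (j * m) : ℕ) : D) * μ - (m : D) * ν = (m : D) * (((k * j : ℕ) : D) * μ - ν) := by
    simp only [← nsmul_eq_mul]
    module
  have hL := hv.sub_L vν
  rw [e] at hL
  have hL' : star (((k * j : ℕ) : D) * μ - ν) + ε * (((k * j : ℕ) : D) * μ - ν) = 0 := by
    rw [star_mul, star_natCast, ← (Nat.cast_commute m _).eq, NST_eps_cast, ← mul_add] at hL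
    exact (mul_eq_zero.1 hL).resolve_left (Nat.cast_ne_zero.2 hm.ne')
  rw [eq_add_of_sub_eq' e, eich_add_L H vν hL]
  exact K.mul_mem kν (htv _ (O.sub_mem (O.mul_mem (natCast_mem O _) hμ) hν) hL')

theorem NST_level_finite (A : Ar ε O N) (hΛ : Lat ε h O Λ) {K : Subgroup (V ≃ₗ[D] V)}
    (hg : ∀ z, Good ε h K z) {S : Set V} (hS : S.Finite) :
    ∃ m : ℕ, 0 < m ∧ ∀ z ∈ S, ∀ k : ℕ, 0 < k → Lvl ε h O Λ (k * m) K z := by
  induction S, hS using Set.Finite.induction_on with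
  | empty => exact ⟨1, one_pos, fun z hz => hz.elim⟩
  | @insert a S _ _ ih =>
    obtain ⟨m₁, hm₁, h₁⟩ := ih
    obtain ⟨m₂, hm₂, h₂⟩ := lvl_of_good A hΛ (hg a)
    refine ⟨m₁ * m₂, Nat.mul_pos hm₁ hm₂, fun z hz k hk => ?_⟩
    rcases hz with rfl | hz
    · rw [← mul_assoc]
      exact h₂ _ (Nat.mul_pos hk hm₁)
    · rw [mul_comm m₁, ← mul_assoc]
      exact h₁ z hz _ (Nat.mul_pos hk hm₂)

/-- The largest subgroup of `K` normalised by `G`. -/
def NST_core (G K : Subgroup (V ≃ₗ[D] V)) : Subgroup (V ≃ₗ[D] V) where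
  carrier := {x | ∀ g ∈ G, g * x * g⁻¹ ∈ K}
  one_mem' := fun g _ => by simp
  mul_mem' := fun {a b} ha hb g hg => by
    have := K.mul_mem (ha g hg) (hb g hg)
    simpa [mul_assoc] using this
  inv_mem' := fun {a} ha g hg => by
    have := K.inv_mem (ha g hg)
    simpa [mul_assoc] using this

/-- Normal subgroup theorem. -/
theorem nst (A : Ar ε O N) (hB : HS ε h) {L : AddSubgroup V} (hL : L.FG) (hL' : Full D L)
    {Γ K : Subgroup (V ≃ₗ[D] V)} (hΓ : Γ ≤ UL h L) (hi : Γ.relIndex (UL h L) ≠ 0) (hK : Nrm Γ K)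
    {d : V ≃ₗ[D] V} (hd : d ∈ K) (hU : d ∈ UG h) (h1 : ¬Scal d) : K.relIndex Γ ≠ 0 := by
  obtain ⟨Λ, e₁, f₁, e₂, f₂, k, u, w, hΛ, hF, hu⟩ := exists_frame A hB
  have H := hB.toHerm
  have hA : Ample ε h Γ := ample_of_relIndex H hL hL' hΓ hi
  obtain ⟨z, l, hz0, hl0, hz, hl, hm⟩ := exists_tv_mem hB A.exL hA hK hd hU h1
  have hall : ∀ w, Good ε h K w := good_of_tv hB A.exL (tv_all hB hA hK hz0 hl0 hz hl hm)
  have hi' : Γ.relIndex (UL h Λ) ≠ 0 :=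
    Subgroup.relIndex_ne_zero_trans hi (UL_relIndex hL hL' hΛ.fg hΛ.full)
  obtain ⟨T, hT, hTO, hrep⟩ := NST_reps hi'
  obtain ⟨m, hm, hlv⟩ := NST_level_finite A hΛ hall (hT.image fun t : V ≃ₗ[D] V => t e₁)
  have hC : Nrm (UL h Λ) (NST_core (UL h Λ) K) := by
    intro γ hγ x hx g hg
    have := hx (g * γ) ((UL h Λ).mul_mem hg hγ)
    simpa [mul_assoc] using this
  have hlK : Lvl ε h O Λ m (NST_core (UL h Λ) K) e₁ := by
    intro v hv μ hμ hval g hg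
    obtain ⟨t, ht, γ, hγ, rfl⟩ := hrep g hg
    have ht' := hTO t ht
    have h3 := hlv (t e₁) ⟨t, ht, rfl⟩ 1 one_pos (t v) ((ht'.2 v).2 hv) μ hμ
    rw [one_mul, ← map_smul] at h3
    have h4 := h3 (hval.conj ht'.1)
    rw [← eich_conj H ht'.1 hval] at h4
    have := hK γ hγ _ h4
    simpa [mul_assoc] using this
  have hfin := relIndex_of_lvl A hΛ hF hu hm hC hlK
  have hle : NST_core (UL h Λ) K ≤ K := fun x hx => by simpa using hx 1 (UL h Λ).one_mem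
  have h4 : K.relIndex (UL h Λ) ≠ 0 := fun e =>
    hfin (Subgroup.relIndex_eq_zero_of_le_left hle e)
  have h5 : K.relIndex (UL h L) ≠ 0 :=
    Subgroup.relIndex_ne_zero_trans h4 (UL_relIndex hΛ.fg hΛ.full hL hL')
  exact fun e => h5 (Subgroup.relIndex_eq_zero_of_le_right hΓ e)

end Pool.Agent.P.MP_d483fb_an.U
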