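import Pool.Agent.P.MP_d483fb_an.U.Smith
import Pool.Agent.P.MP_d483fb_an.U.Orb0

set_option autoImplicit false
set_option linter.unusedSectionVars false

namespace Pool.Agent.P.MP_d483fb_an.U

variable {D V : Type} [DivisionRing D] [StarRing D] [CharZero D] [AddCommGroup V] [Module D V]
  {ε : D} {h : Form D V} {O : Subring D} {N : D → ℚ} {Λ : AddSubgroup V} {e₁ f₁ e₂ f₂ : V}

theorem OrbA_tv (hΛ : Lat ε h O Λ) {E : Subgroup (V ≃ₗ[D] V)} (hE : Nrm (UL h Λ) E) {x y : V}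
    (mx : x ∈ Λ) (hx : h x x = 0) (hyx : h y x = 0) (hy : h y y = 0) {l : D} (hl : l ∈ O)
    (hL : star l + ε * l = 0) {z u : V} (hγ : eich ε h z u 0 ∈ E) (e : eich ε h z u 0 x = x + y)
    (h1 : eich ε h x (l • y) 0 ∈ E ∨ eich ε h y (l • x) 0 ∈ E) : eich ε h y 0 l ∈ E := by
  have H := hΛ.toHerm
  have hT : eich ε h x 0 l ∈ UL h Λ := eich_mem_UL hΛ mx Λ.zero_mem hl
  have h2 := eich_conj H (eich_mem_UG (ε := ε) (h := h) z u 0) (Val.tv hx hL)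
  rw [e, map_zero] at h2
  have h3 : eich ε h (x + y) 0 l * (eich ε h x 0 l)⁻¹ ∈ E := by
    have := E.mul_mem hγ (hE _ hT _ (E.inv_mem hγ))
    rw [← h2]
    simpa only [mul_assoc] using this
  rcases h1 with h1 | h1
  · rw [tv_add H hx hyx hy hL, mul_inv_cancel_right] at h3
    simpa using E.mul_mem h3 (E.inv_mem h1)
  · rw [add_comm, tv_add H hy (H.perp hyx) hx hL] at h3
    have h4 := hE _ ((UL h Λ).inv_mem hT) _ h3
    have h5 := E.mul_mem (E.inv_mem h1) h4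
    simpa [mul_assoc] using h5

/-- Transvections along the frame vectors lie in every normal subgroup containing `H4`. -/
theorem tv_mem_of_H4_le (hΛ : Lat ε h O Λ) (F : Frame h Λ e₁ f₁ e₂ f₂) {E : Subgroup (V ≃ₗ[D] V)}
    (hE : Nrm (UL h Λ) E) (h4 : H4 ε h O e₁ f₁ e₂ f₂ ≤ E) {l : D} (hl : l ∈ O)
    (hL : star l + ε * l = 0) :
    eich ε h e₁ 0 l ∈ E ∧ eich ε h f₁ 0 l ∈ E ∧ eich ε h e₂ 0 l ∈ E ∧ eich ε h f₂ 0 l ∈ E := by
  have H := hΛ.toHerm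
  have m1 : ∀ a ∈ O, eich ε h e₁ (a • e₂) 0 ∈ E := fun a ha =>
    h4 (Subgroup.subset_closure ⟨a, ha, Or.inl rfl⟩)
  have m2 : ∀ a ∈ O, eich ε h e₁ (a • f₂) 0 ∈ E := fun a ha =>
    h4 (Subgroup.subset_closure ⟨a, ha, Or.inr (Or.inl rfl)⟩)
  have m3 : ∀ a ∈ O, eich ε h f₁ (a • e₂) 0 ∈ E := fun a ha =>
    h4 (Subgroup.subset_closure ⟨a, ha, Or.inr (Or.inr (Or.inl rfl))⟩)
  have m4 : ∀ a ∈ O, eich ε h f₁ (a • f₂) 0 ∈ E := fun a ha =>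
    h4 (Subgroup.subset_closure ⟨a, ha, Or.inr (Or.inr (Or.inr rfl))⟩)
  have hε := O.neg_mem (H.eps_mem O)
  refine ⟨OrbA_tv hΛ hE F.me₂ F.e₂e₂ F.e₁e₂ F.e₁e₁ hl hL (m2 _ hε) ?_ (Or.inr (m1 l hl)),
    OrbA_tv hΛ hE F.me₂ F.e₂e₂ F.f₁e₂ F.f₁f₁ hl hL (m4 _ hε) ?_ (Or.inr (m3 l hl)),
    OrbA_tv hΛ hE F.me₁ F.e₁e₁ (H.perp F.e₁e₂) F.e₂e₂ hl hL (m3 _ O.one_mem) ?_ (Or.inl (m1 l hl)),
    OrbA_tv hΛ hE F.me₁ F.e₁e₁ (H.perp F.e₁f₂) F.f₂f₂ hl hL (m4 _ O.one_mem) ?_ (Or.inl (m2 l hl))⟩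
  · rw [iso_apply H F.e₁e₁ (by rw [h.smul_left, H.perp F.e₁f₂, mul_zero])
      (by rw [h.smul_left, H.smul_right, F.f₂f₂, zero_mul, mul_zero]), H.perp F.e₁e₂,
      H.smul_right, F.e₂f₂, star_neg, H.star_eps, one_mul, neg_mul, H.eps_mul_eps]
    simp
  · rw [iso_apply H F.f₁f₁ (by rw [h.smul_left, H.perp F.f₁f₂, mul_zero])
      (by rw [h.smul_left, H.smul_right, F.f₂f₂, zero_mul, mul_zero]), H.perp F.f₁e₂,
      H.smul_right, F.e₂f₂, star_neg, H.star_eps, one_mul, neg_mul, H.eps_mul_eps]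
    simp
  · rw [one_smul, iso_apply H F.f₁f₁ (H.perp F.f₁e₂) F.e₂e₂, F.e₁f₁, F.e₁e₂]
    simp
  · rw [one_smul, iso_apply H F.f₁f₁ (H.perp F.f₁f₂) F.f₂f₂, F.e₁f₁, F.e₁f₂]
    simp

theorem OrbA_L (H : Herm ε h) {a b : D} (ha : a ≠ 0) (e : a * star b + ε * (b * star a) = 0) :
    star (a⁻¹ * b) + ε * (a⁻¹ * b) = 0 := by
  have h1 : star a ≠ 0 := star_ne_zero.2 ha
  have h2 : a * (star (a⁻¹ * b) + ε * (a⁻¹ * b)) * star a = 0 := by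
    rw [← e, star_mul, star_inv₀, mul_add, add_mul, mul_assoc, mul_assoc, inv_mul_cancel₀ h1,
      mul_one, ← mul_assoc a ε, H.comm a, mul_assoc ε a, mul_inv_cancel_left₀ ha, mul_assoc]
  exact (mul_eq_zero.1 ((mul_eq_zero.1 h2).resolve_right h1)).resolve_left ha

theorem OrbA_iso (H : Herm ε h) {e f : V} (he : h e e = 0) (hf : h f f = 0) (hef : h e f = 1)
    {a b : D} (hv : h (a • e + b • f) (a • e + b • f) = 0) :
    a * star b + ε * (b * star a) = 0 := by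
  rw [← hv]
  simp only [map_add, AddMonoidHom.add_apply, h.smul_left, H.smul_right, he, hf, hef,
    H.dual_one hef]
  rcases H.eps with rfl | rfl <;> noncomm_ring

/-- Reduction of an isotropic vector in a hyperbolic plane by transvections. -/
theorem plane_red (A : Ar ε O N) (H : Herm ε h) {e f : V} (he : h e e = 0) (hf : h f f = 0)
    (hef : h e f = 1) {a b : D} (ha : a ∈ O) (hb : b ∈ O)
    (hv : h (a • e + b • f) (a • e + b • f) = 0) :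
    ∃ g ∈ Subgroup.closure {g | ∃ l ∈ O, star l + ε * l = 0 ∧
      (g = eich ε h e 0 l ∨ g = eich ε h f 0 l)},
      ∃ c ∈ O, g (a • e + b • f) = c • e ∨ g (a • e + b • f) = c • f := by
  revert b
  refine A.induction (P := fun a => ∀ {b : D}, b ∈ O →
    h (a • e + b • f) (a • e + b • f) = 0 →
    ∃ g ∈ Subgroup.closure {g | ∃ l ∈ O, star l + ε * l = 0 ∧
      (g = eich ε h e 0 l ∨ g = eich ε h f 0 l)},
      ∃ c ∈ O, g (a • e + b • f) = c • e ∨ g (a • e + b • f) = c • f) ?_ a ha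
  intro a ha ih b hb hv
  by_cases h0 : a = 0
  · exact ⟨1, one_mem _, b, hb, Or.inr (by rw [h0, zero_smul, zero_add, one_apply'])⟩
  obtain ⟨q, hq, hqL, hN⟩ := A.divL b h0 (OrbA_L H h0 (OrbA_iso H he hf hef hv))
  have e1 : eich ε h f 0 (-q) (a • e + b • f) = a • e + (b - a * q) • f := by
    rw [tv_apply H hf (L_neg hqL), h.add_left, h.smul_left, h.smul_left, hef, hf]
    match_scalars <;> noncomm_ring
  have m1 : eich ε h f 0 (-q) ∈ Subgroup.closure {g | ∃ l ∈ O, star l + ε * l = 0 ∧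
      (g = eich ε h e 0 l ∨ g = eich ε h f 0 l)} :=
    Subgroup.subset_closure ⟨-q, O.neg_mem hq, L_neg hqL, Or.inr rfl⟩
  have hb' : b - a * q ∈ O := O.sub_mem hb (O.mul_mem ha hq)
  have hv' : h (a • e + (b - a * q) • f) (a • e + (b - a * q) • f) = 0 := by
    rw [← e1, eich_mem_UG, hv]
  generalize b - a * q = b' at e1 hb' hv' hN
  by_cases h1 : b' = 0
  · exact ⟨_, m1, a, ha, Or.inl (by rw [e1, h1, zero_smul, add_zero])⟩
  have h2 : b' * star a + ε * (a * star b') = 0 := by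
    have := OrbA_iso H he hf hef hv'
    rw [← H.eps_eps_mul (b' * star a), ← mul_add, add_comm, this, mul_zero]
  obtain ⟨r, hr, hrL, hN'⟩ := A.divL a h1 (OrbA_L H h1 h2)
  have hL : star (-(ε * r)) + ε * -(ε * r) = 0 := by
    refine L_neg ?_
    rw [star_mul, H.star_eps, H.comm, ← mul_add, hrL, mul_zero]
  have e2 : eich ε h e 0 (-(ε * r)) (a • e + b' • f) = (a - b' * r) • e + b' • f := by
    rw [tv_apply H he hL, h.add_left, h.smul_left, h.smul_left, H.dual_one hef, he]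
    rcases H.eps with rfl | rfl <;> match_scalars <;> noncomm_ring
  obtain ⟨g, hg, c, hc, e3⟩ := ih (a - b' * r) (O.sub_mem ha (O.mul_mem hb' hr)) (hN'.trans hN) hb'
    (by rw [← e2, eich_mem_UG, hv'])
  refine ⟨g * (eich ε h e 0 (-(ε * r)) * eich ε h f 0 (-q)), mul_mem hg (mul_mem
    (Subgroup.subset_closure ⟨_, O.neg_mem (O.mul_mem (H.eps_mem O) hr), hL, Or.inl rfl⟩) m1),
    c, hc, ?_⟩
  rwa [mul_apply', mul_apply', e1, e2]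

theorem OrbA_perp {g : V ≃ₗ[D] V} (hg : g ∈ UL h Λ) {y : V} (hy : g y = y) (x : V) :
    h (g x) y = h x y := by
  conv_lhs => rw [← hy]
  exact hg.1 x y

theorem OrbA_dec (H : Herm ε h) (F : Frame h Λ e₁ f₁ e₂ f₂) {k : ℕ} {u w : Fin k → V}
    (hu : Compl h Λ e₁ f₁ e₂ f₂ u w) {x : V} (hx : ∀ j, h x (u j) = 0) :
    x = h x f₁ • e₁ + (h x e₁ * ε) • f₁ + h x f₂ • e₂ + (h x e₂ * ε) • f₂ := by
  rw [← sub_eq_zero]
  refine hu.span _ ⟨?_, ?_, ?_, ?_⟩ fun j => ?_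
  · simp only [h.sub_left, h.add_left, h.smul_left, F.e₁e₁, H.dual_one F.e₁f₁, H.perp F.e₁e₂,
      H.perp F.e₁f₂, mul_assoc, H.eps_mul_eps]
    simp
  · simp only [h.sub_left, h.add_left, h.smul_left, F.e₁f₁, F.f₁f₁, H.perp F.f₁e₂,
      H.perp F.f₁f₂]
    simp
  · simp only [h.sub_left, h.add_left, h.smul_left, F.e₁e₂, F.f₁e₂, F.e₂e₂,
      H.dual_one F.e₂f₂, mul_assoc, H.eps_mul_eps]
    simp
  · simp only [h.sub_left, h.add_left, h.smul_left, F.e₁f₂, F.f₁f₂, F.e₂f₂, F.f₂f₂]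
    simp
  · obtain ⟨h1, h2, h3, h4⟩ := hu.perp j
    simp only [h.sub_left, h.add_left, h.smul_left, hx j, H.perp h1, H.perp h2, H.perp h3,
      H.perp h4]
    simp

theorem OrbA_unit (A : Ar ε O N) (hΛ : Lat ε h O Λ) {E : Subgroup (V ≃ₗ[D] V)} {e f : V}
    (me : e ∈ Λ) (mf : f ∈ Λ) (he : h e e = 0) (hf : h f f = 0) (hef : h e f = 1)
    (hE : ∀ l ∈ O, star l + ε * l = 0 → eich ε h e 0 l ∈ E ∧ eich ε h f 0 l ∈ E)
    {a b : D} (ha : a ∈ O) (hb : b ∈ O) {v w : V} (hd : v = a • e + b • f) (hv : h v v = 0)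
    (hw : w ∈ Λ) (hvw : h v w = 1) :
    ∃ s ∈ E, s ∈ UL h Λ ∧ (∀ x, h x e = 0 → h x f = 0 → s x = x) ∧
      s v ∈ (fun c : D => c • e) '' {c | c ∈ O ∧ N c = 1} ∪
        (fun c : D => c • f) '' {c | c ∈ O ∧ N c = 1} := by
  have H := hΛ.toHerm
  subst hd
  obtain ⟨g, hg, c, hc, e1⟩ := plane_red A H he hf hef ha hb hv
  have key : g ∈ E ∧ g ∈ UL h Λ ∧ ∀ x, h x e = 0 → h x f = 0 → g x = x := by
    clear e1
    induction hg using Subgroup.closure_induction with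
    | mem g hg =>
      obtain ⟨l, hl, hL, rfl | rfl⟩ := hg
      · exact ⟨(hE l hl hL).1, eich_mem_UL hΛ me Λ.zero_mem hl,
          fun x h1 _ => eich_fix H h1 (map_zero _)⟩
      · exact ⟨(hE l hl hL).2, eich_mem_UL hΛ mf Λ.zero_mem hl,
          fun x _ h1 => eich_fix H h1 (map_zero _)⟩
    | one => exact ⟨one_mem _, one_mem _, fun _ _ _ => rfl⟩
    | mul g g' _ _ i1 i2 =>
      exact ⟨mul_mem i1.1 i2.1, mul_mem i1.2.1 i2.2.1,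
        fun x h1 h2 => by rw [mul_apply', i2.2.2 x h1 h2, i1.2.2 x h1 h2]⟩
    | inv g _ i1 =>
      refine ⟨inv_mem i1.1, inv_mem i1.2.1, fun x h1 h2 => ?_⟩
      conv_lhs => rw [← i1.2.2 x h1 h2]
      exact inv_apply_apply' g x
  refine ⟨g, key.1, key.2.1, key.2.2, ?_⟩
  have h1 := key.2.1.1 (a • e + b • f) w
  have h2 := (key.2.1.2 w).2 hw
  rw [hvw] at h1
  rcases e1 with e1 | e1
  · rw [e1, h.smul_left] at h1
    exact Or.inl ⟨c, ⟨hc, A.N_eq_one hc (hΛ.int _ me _ h2) h1⟩, e1.symm⟩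
  · rw [e1, h.smul_left] at h1
    exact Or.inr ⟨c, ⟨hc, A.N_eq_one hc (hΛ.int _ mf _ h2) h1⟩, e1.symm⟩

theorem OrbA_last (F : Frame h Λ e₁ f₁ e₂ f₂) {k : ℕ} {u w : Fin k → V}
    (hu : Compl h Λ e₁ f₁ e₂ f₂ u w) (E : Subgroup (V ≃ₗ[D] V)) :
    OrbCov h Λ E (insert f₂ (insert e₂ (insert f₁ (insert e₁ (Set.range u))))) := by
  refine ⟨{1}, Set.finite_singleton _, fun s hs => hs ▸ (UL h Λ).one_mem, fun g hg hgP => ?_⟩
  have h1 : g e₁ = e₁ := hgP _ (by simp)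
  have h2 : g f₁ = f₁ := hgP _ (by simp)
  have h3 : g e₂ = e₂ := hgP _ (by simp)
  have h4 : g f₂ = f₂ := hgP _ (by simp)
  have h5 : ∀ j, g (u j) = u j := fun j => hgP _ (by simp)
  refine ⟨1, rfl, ?_⟩
  have : g = 1 := by
    ext x
    rw [one_apply', ← sub_eq_zero]
    refine hu.span _ ⟨?_, ?_, ?_, ?_⟩ fun j => ?_
    · rw [h.sub_left, OrbA_perp hg h1, sub_self]
    · rw [h.sub_left, OrbA_perp hg h2, sub_self]
    · rw [h.sub_left, OrbA_perp hg h3, sub_self]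
    · rw [h.sub_left, OrbA_perp hg h4, sub_self]
    · rw [h.sub_left, OrbA_perp hg (h5 j), sub_self]
  rw [this]
  simp

theorem OrbA_last_step (hΛ : Lat ε h O Λ) {e f : V} (he : h e e = 0) (hf : h f f = 0)
    (hef : h e f = 1) {a : D} (hv : h (a • e + f) (a • e + f) = 0) :
    star (-(ε * a)) + ε * -(ε * a) = 0 ∧ eich ε h e 0 (-(ε * a)) (a • e + f) = f := by
  have H := hΛ.toHerm
  have h1 := OrbA_iso H he hf hef (a := a) (b := 1) (by rwa [one_smul])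
  rw [star_one, mul_one, one_mul] at h1
  have hL : star (-(ε * a)) + ε * -(ε * a) = 0 := by
    refine L_neg ?_
    rw [star_mul, H.star_eps, H.comm, H.eps_eps_mul, add_comm, h1]
  refine ⟨hL, ?_⟩
  rw [tv_apply H he hL, h.add_left, h.smul_left, H.dual_one hef, he]
  rcases H.eps with rfl | rfl <;> match_scalars <;> noncomm_ring

theorem OrbA_f₂ (hΛ : Lat ε h O Λ) (F : Frame h Λ e₁ f₁ e₂ f₂) {k : ℕ}
    {u w : Fin k → V} (hu : Compl h Λ e₁ f₁ e₂ f₂ u w) {E : Subgroup (V ≃ₗ[D] V)}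
    (hE : Nrm (UL h Λ) E) (h4 : H4 ε h O e₁ f₁ e₂ f₂ ≤ E) :
    OrbCov h Λ E (insert e₂ (insert f₁ (insert e₁ (Set.range u)))) := by
  have H := hΛ.toHerm
  refine orb_step hE f₂ (T := {f₂}) (Set.toFinite _) (fun g hg hgP => ?_) (OrbA_last F hu E)
  have h1 : g e₁ = e₁ := hgP _ (by simp)
  have h2 : g f₁ = f₁ := hgP _ (by simp)
  have h3 : g e₂ = e₂ := hgP _ (by simp)
  have h5 : ∀ j, g (u j) = u j := fun j => hgP _ (by simp)
  have hd := OrbA_dec H F hu (x := g f₂) fun j => by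
    rw [OrbA_perp hg (h5 j), H.perp (hu.perp j).2.2.2]
  rw [OrbA_perp hg h1, OrbA_perp hg h2, OrbA_perp hg h3, H.perp F.f₁f₂, H.perp F.e₁f₂,
    H.dual_one F.e₂f₂, H.eps_mul_eps, zero_mul, zero_smul, zero_smul, zero_add, zero_add,
    one_smul] at hd
  have ha : h (g f₂) f₂ ∈ O := hΛ.int _ ((hg.2 _).2 F.mf₂) _ F.mf₂
  have hn : h (g f₂) (g f₂) = 0 := by rw [hg.1, F.f₂f₂]
  generalize h (g f₂) f₂ = a at hd ha
  rw [hd] at hn
  obtain ⟨hL, e⟩ := OrbA_last_step hΛ F.e₂e₂ F.f₂f₂ F.e₂f₂ hn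
  have hl := O.neg_mem (O.mul_mem (H.eps_mem O) ha)
  refine ⟨_, (tv_mem_of_H4_le hΛ F hE h4 hl hL).2.2.1, eich_mem_UL hΛ F.me₂ Λ.zero_mem hl, ?_, ?_⟩
  · rintro y (rfl | rfl | rfl | ⟨j, rfl⟩)
    exacts [eich_fix H F.e₂e₂ (map_zero _), eich_fix H F.f₁e₂ (map_zero _),
      eich_fix H F.e₁e₂ (map_zero _), eich_fix H (hu.perp j).2.2.1 (map_zero _)]
  · rw [hd, e]; rfl

theorem OrbA_e₂ (A : Ar ε O N) (hΛ : Lat ε h O Λ) (F : Frame h Λ e₁ f₁ e₂ f₂) {k : ℕ}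
    {u w : Fin k → V} (hu : Compl h Λ e₁ f₁ e₂ f₂ u w) {E : Subgroup (V ≃ₗ[D] V)}
    (hE : Nrm (UL h Λ) E) (h4 : H4 ε h O e₁ f₁ e₂ f₂ ≤ E) :
    OrbCov h Λ E (insert f₁ (insert e₁ (Set.range u))) := by
  have H := hΛ.toHerm
  refine orb_step hE e₂ ((A.finite_units.image fun c : D => c • e₂).union
    (A.finite_units.image fun c : D => c • f₂)) (fun g hg hgP => ?_) (OrbA_f₂ hΛ F hu hE h4)
  have h1 : g e₁ = e₁ := hgP _ (by simp)
  have h2 : g f₁ = f₁ := hgP _ (by simp)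
  have h5 : ∀ j, g (u j) = u j := fun j => hgP _ (by simp)
  have hd := OrbA_dec H F hu (x := g e₂) fun j => by
    rw [OrbA_perp hg (h5 j), H.perp (hu.perp j).2.2.1]
  rw [OrbA_perp hg h1, OrbA_perp hg h2, H.perp F.f₁e₂, H.perp F.e₁e₂, zero_mul, zero_smul,
    zero_smul, zero_add, zero_add] at hd
  have mv := (hg.2 _).2 F.me₂
  obtain ⟨s, s1, s2, s3, s4⟩ := OrbA_unit A hΛ F.me₂ F.mf₂ F.e₂e₂ F.f₂f₂ F.e₂f₂
    (fun l hl hL => (tv_mem_of_H4_le hΛ F hE h4 hl hL).2.2) (hΛ.int _ mv _ F.mf₂)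
    (O.mul_mem (hΛ.int _ mv _ F.me₂) (H.eps_mem O)) hd (by rw [hg.1, F.e₂e₂])
    ((hg.2 _).2 F.mf₂) (by rw [hg.1, F.e₂f₂])
  refine ⟨s, s1, s2, ?_, s4⟩
  rintro y (rfl | rfl | ⟨j, rfl⟩)
  exacts [s3 _ F.f₁e₂ F.f₁f₂, s3 _ F.e₁e₂ F.e₁f₂, s3 _ (hu.perp j).2.2.1 (hu.perp j).2.2.2]

theorem OrbA_f₁ (A : Ar ε O N) (hΛ : Lat ε h O Λ) (F : Frame h Λ e₁ f₁ e₂ f₂) {k : ℕ}
    {u w : Fin k → V} (hu : Compl h Λ e₁ f₁ e₂ f₂ u w) {E : Subgroup (V ≃ₗ[D] V)}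
    (hE : Nrm (UL h Λ) E) (h4 : H4 ε h O e₁ f₁ e₂ f₂ ≤ E) :
    OrbCov h Λ E (insert e₁ (Set.range u)) := by
  have H := hΛ.toHerm
  refine orb_step hE f₁ (T := {f₁}) (Set.toFinite _) (fun g hg hgP => ?_) (OrbA_e₂ A hΛ F hu hE h4)
  have h1 : g e₁ = e₁ := hgP _ (by simp)
  have h5 : ∀ j, g (u j) = u j := fun j => hgP _ (by simp)
  have mv := (hg.2 _).2 F.mf₁
  have hd := OrbA_dec H F hu (x := g f₁) fun j => by
    rw [OrbA_perp hg (h5 j), H.perp (hu.perp j).2.1]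
  rw [OrbA_perp hg h1, H.dual_one F.e₁f₁, H.eps_mul_eps, one_smul] at hd
  have ha : h (g f₁) f₁ ∈ O := hΛ.int _ mv _ F.mf₁
  have hc : h (g f₁) f₂ ∈ O := hΛ.int _ mv _ F.mf₂
  have hd' : h (g f₁) e₂ * ε ∈ O := O.mul_mem (hΛ.int _ mv _ F.me₂) (H.eps_mem O)
  have hn : h (g f₁) (g f₁) = 0 := by rw [hg.1, F.f₁f₁]
  generalize h (g f₁) f₁ = a at hd ha
  generalize h (g f₁) f₂ = c at hd hc
  generalize h (g f₁) e₂ * ε = d at hd hd'
  have mc := O.neg_mem (O.mul_mem (H.eps_mem O) hc)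
  have md := O.neg_mem (O.mul_mem (H.eps_mem O) hd')
  have m1 : eich ε h e₁ (-(ε * c) • e₂) 0 ∈ H4 ε h O e₁ f₁ e₂ f₂ :=
    Subgroup.subset_closure ⟨_, mc, Or.inl rfl⟩
  have m2 : eich ε h e₁ (-(ε * d) • f₂) 0 ∈ H4 ε h O e₁ f₁ e₂ f₂ :=
    Subgroup.subset_closure ⟨_, md, Or.inr (Or.inl rfl)⟩
  have e1 : eich ε h e₁ (-(ε * c) • e₂) 0 (g f₁) = (a + d * ε * star c) • e₁ + f₁ + d • f₂ := by
    rw [iso_apply H F.e₁e₁ (by rw [h.smul_left, H.perp F.e₁e₂, mul_zero])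
      (by rw [h.smul_left, H.smul_right, F.e₂e₂, zero_mul, mul_zero]), hd]
    simp only [h.add_left, h.smul_left, H.smul_right, F.e₁e₁, H.dual_one F.e₁f₁, H.perp F.e₁e₂,
      H.perp F.e₁f₂, F.e₁e₂, F.f₁e₂, F.e₂e₂, H.dual_one F.e₂f₂, star_neg, star_mul, H.star_eps]
    rcases H.eps with rfl | rfl <;> match_scalars <;> noncomm_ring
  have ha' : a + d * ε * star c ∈ O :=
    O.add_mem ha (O.mul_mem (O.mul_mem hd' (H.eps_mem O)) (hΛ.star_mem _ hc))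
  generalize a + d * ε * star c = a' at e1 ha'
  have e2 : eich ε h e₁ (-(ε * d) • f₂) 0 (a' • e₁ + f₁ + d • f₂) = a' • e₁ + f₁ := by
    rw [iso_apply H F.e₁e₁ (by rw [h.smul_left, H.perp F.e₁f₂, mul_zero])
      (by rw [h.smul_left, H.smul_right, F.f₂f₂, zero_mul, mul_zero])]
    simp only [h.add_left, h.smul_left, H.smul_right, F.e₁e₁, H.dual_one F.e₁f₁,
      H.perp F.e₁f₂, F.e₁f₂, F.f₁f₂, F.f₂f₂]
    rcases H.eps with rfl | rfl <;> match_scalars <;> noncomm_ring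
  obtain ⟨hL, e3⟩ := OrbA_last_step hΛ F.e₁e₁ F.f₁f₁ F.e₁f₁ (a := a')
    (by rw [← e2, eich_mem_UG, ← e1, eich_mem_UG, hn])
  have hl := O.neg_mem (O.mul_mem (H.eps_mem O) ha')
  refine ⟨eich ε h e₁ 0 (-(ε * a')) * (eich ε h e₁ (-(ε * d) • f₂) 0 *
      eich ε h e₁ (-(ε * c) • e₂) 0),
    mul_mem (tv_mem_of_H4_le hΛ F hE h4 hl hL).1 (mul_mem (h4 m2) (h4 m1)),
    mul_mem (eich_mem_UL hΛ F.me₁ Λ.zero_mem hl) (mul_mem (H4_le_UL hΛ F m2) (H4_le_UL hΛ F m1)),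
    ?_, ?_⟩
  · rintro y (rfl | ⟨j, rfl⟩)
    · rw [mul_apply', mul_apply',
        eich_fix H F.e₁e₁ (u := -(ε * c) • e₂) (by rw [H.smul_right, F.e₁e₂, zero_mul]),
        eich_fix H F.e₁e₁ (u := -(ε * d) • f₂) (by rw [H.smul_right, F.e₁f₂, zero_mul]),
        eich_fix H F.e₁e₁ (map_zero _)]
    · rw [mul_apply', mul_apply', H4_fix H m1 (hu.perp j), H4_fix H m2 (hu.perp j),
        eich_fix H (hu.perp j).1 (map_zero _)]
  · rw [mul_apply', mul_apply', e1, e2, e3]; rfl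

/-- Elements fixing the complement are in finitely many cosets of `E`. -/
theorem orb_frame (A : Ar ε O N) (hΛ : Lat ε h O Λ) (F : Frame h Λ e₁ f₁ e₂ f₂) {k : ℕ}
    {u w : Fin k → V} (hu : Compl h Λ e₁ f₁ e₂ f₂ u w) {E : Subgroup (V ≃ₗ[D] V)}
    (hE : Nrm (UL h Λ) E) (h4 : H4 ε h O e₁ f₁ e₂ f₂ ≤ E) : OrbCov h Λ E (Set.range u) := by
  have H := hΛ.toHerm
  refine orb_step hE e₁ ((A.finite_units.image fun c : D => c • e₁).union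
    (A.finite_units.image fun c : D => c • f₁)) (fun g hg hgP => ?_) (OrbA_f₁ A hΛ F hu hE h4)
  have h5 : ∀ j, g (u j) = u j := fun j => hgP _ (by simp)
  obtain ⟨r, hr, ha, hb⟩ := smith A hΛ F ((hg.2 _).2 F.me₁)
  have hrO := H4_le_UL hΛ F hr
  have hru : ∀ j, r (u j) = u j := fun j => H4_fix H hr (hu.perp j)
  have hd := OrbA_dec H F hu (x := r (g e₁)) fun j => by
    rw [OrbA_perp hrO (hru j), OrbA_perp hg (h5 j), H.perp (hu.perp j).1]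
  rw [ha, hb, zero_mul, zero_smul, zero_smul, add_zero, add_zero] at hd
  have mv := (hrO.2 _).2 ((hg.2 _).2 F.me₁)
  obtain ⟨s, s1, s2, s3, s4⟩ := OrbA_unit A hΛ F.me₁ F.mf₁ F.e₁e₁ F.f₁f₁ F.e₁f₁
    (fun l hl hL => ⟨(tv_mem_of_H4_le hΛ F hE h4 hl hL).1, (tv_mem_of_H4_le hΛ F hE h4 hl hL).2.1⟩)
    (hΛ.int _ mv _ F.mf₁) (O.mul_mem (hΛ.int _ mv _ F.me₁) (H.eps_mem O)) hd
    (by rw [hrO.1, hg.1, F.e₁e₁]) ((hrO.2 _).2 ((hg.2 _).2 F.mf₁)) (by rw [hrO.1, hg.1, F.e₁f₁])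
  refine ⟨s * r, mul_mem s1 (h4 hr), mul_mem s2 hrO, ?_, s4⟩
  rintro y ⟨j, rfl⟩
  rw [mul_apply', hru, s3 _ (hu.perp j).1 (hu.perp j).2.1]

end Pool.Agent.P.MP_d483fb_an.U
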