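import Pool.Agent.P.MP_d483fb_an.U.QRepA

set_option autoImplicit false

namespace Pool.Agent.P.MP_d483fb_an.U

/-- The centre of the quaternion group. -/
def QRepB_Z : Subgroup (QuaternionGroup 2) where
  carrier := {x | x * x = 1}
  one_mem' := mul_one 1
  mul_mem' := fun {a b} => by
    change a * a = 1 → b * b = 1 → a * b * (a * b) = 1
    revert a b
    decide
  inv_mem' := fun {a} => by
    change a * a = 1 → a⁻¹ * a⁻¹ = 1
    revert a
    decide

theorem QRepB_card : Nat.card QRepB_Z = 2 := by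
  have : Nat.card {x : QuaternionGroup 2 // x * x = 1} = 2 := by
    rw [Nat.card_eq_fintype_card]
    decide
  exact this

theorem QRepB_index : QRepB_Z.index = 4 := by
  have h := QRepB_Z.index_mul_card
  rw [QRepB_card, Nat.card_eq_fintype_card, QuaternionGroup.card] at h
  omega

theorem card_le_of_sq_mem {k : ℕ} (B Y : Subgroup (Fin k → QuaternionGroup 2))
    (h : ∀ b ∈ B, b * b ∈ Y) : Nat.card B ≤ 2 ^ k * Nat.card Y ^ 2 := by
  induction hn : Nat.card Y using Nat.strong_induction_on generalizing B Y with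
  | _ n ih =>
  subst hn
  by_cases h1 : ∀ b ∈ B, ∀ j, b j * b j = 1
  · have h2 : Nat.card B ≤ Nat.card (Fin k → QRepB_Z) :=
      Nat.card_le_card_of_injective (fun b j => ⟨b.1 j, h1 b.1 b.2 j⟩) fun a b e =>
        Subtype.ext (funext fun j => congrArg Subtype.val (congrFun e j))
    rw [Nat.card_fun, QRepB_card, Nat.card_eq_fintype_card (α := Fin k), Fintype.card_fin] at h2
    exact h2.trans (Nat.le_mul_of_pos_right _ (pow_pos Nat.card_pos _))
  · push Not at h1
    obtain ⟨b, hb, j, hj⟩ := h1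
    let π := Pi.evalMonoidHom (fun _ : Fin k => QuaternionGroup 2) j
    have h2 : (Y ⊓ π.ker).relIndex Y ≠ 1 := fun e =>
      hj (Subgroup.relIndex_eq_one.1 e (h b hb)).2
    have h3 : (Y ⊓ π.ker).relIndex Y * Nat.card ↥(Y ⊓ π.ker) = Nat.card Y := by
      rw [Subgroup.relIndex, ← Subgroup.index_mul_card ((Y ⊓ π.ker).subgroupOf Y),
        Nat.card_congr (Subgroup.subgroupOfEquivOfLe (inf_le_left : Y ⊓ π.ker ≤ Y)).toEquiv]
    have h4 : 0 < Nat.card ↥(Y ⊓ π.ker) := Nat.card_pos
    have h5 : 0 < Nat.card Y := Nat.card_pos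
    have h6 : 2 * Nat.card ↥(Y ⊓ π.ker) ≤ Nat.card Y := by
      rw [← h3]
      refine Nat.mul_le_mul_right _ ?_
      rcases Nat.eq_zero_or_pos ((Y ⊓ π.ker).relIndex Y) with h0 | h0
      · rw [h0, zero_mul] at h3
        omega
      · omega
    have h7 := ih _ (by omega) (B ⊓ QRepB_Z.comap π) (Y ⊓ π.ker)
      (fun x hx => ⟨h x hx.1, hx.2⟩) rfl
    have h8 : (B ⊓ QRepB_Z.comap π).relIndex B * Nat.card ↥(B ⊓ QRepB_Z.comap π) = Nat.card B := by
      rw [Subgroup.relIndex, ← Subgroup.index_mul_card ((B ⊓ QRepB_Z.comap π).subgroupOf B),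
        Nat.card_congr
          (Subgroup.subgroupOfEquivOfLe (inf_le_left : B ⊓ QRepB_Z.comap π ≤ B)).toEquiv]
    have h9 : (B ⊓ QRepB_Z.comap π).relIndex B ≤ 4 := by
      rw [Subgroup.inf_relIndex_left, Subgroup.relIndex_comap, ← QRepB_index,
        ← Subgroup.relIndex_top_right]
      exact Subgroup.relIndex_le_of_le_right le_top
        (by rw [Subgroup.relIndex_top_right, QRepB_index]; norm_num)
    calc Nat.card B ≤ 4 * (2 ^ k * Nat.card ↥(Y ⊓ π.ker) ^ 2) := by
          rw [← h8]; exact Nat.mul_le_mul h9 h7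
      _ = 2 ^ k * (2 * Nat.card ↥(Y ⊓ π.ker)) ^ 2 := by ring
      _ ≤ _ := by gcongr

/-- Real representations of subgroups of a power of the quaternion group. -/
theorem quat_bound {k m : ℕ} (H : Subgroup (Fin k → QuaternionGroup 2))
    (ρ : H →* Matrix (Fin m) (Fin m) ℝ) :
    16 ^ k ≤ 2 ^ m * (H.index * Nat.card ρ.ker ^ 2) ^ 2 := by
  have q2 : ∀ g x : QuaternionGroup 2, g * g * x = x * (g * g) := by decide
  have q4 : ∀ g : QuaternionGroup 2, g * g * (g * g) = 1 := by decide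
  obtain ⟨B, hB, hsq⟩ := exists_sq_ker (G := H)
    (fun g x => Subtype.ext (funext fun j => q2 (g.1 j) (x.1 j)))
    (fun g => Subtype.ext (funext fun j => q4 (g.1 j))) ρ
  have h1 := card_le_of_sq_mem (B.map H.subtype) (ρ.ker.map H.subtype) (by
    rintro _ ⟨b, hb, rfl⟩
    exact ⟨b * b, hsq b hb, rfl⟩)
  rw [Subgroup.card_map_of_injective H.subtype_injective,
    Subgroup.card_map_of_injective H.subtype_injective] at h1
  have h2 := H.index_mul_card
  rw [← B.index_mul_card, Nat.card_fun, Nat.card_eq_fintype_card (α := QuaternionGroup 2),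
    QuaternionGroup.card, Nat.card_eq_fintype_card (α := Fin k), Fintype.card_fin] at h2
  have h3 : 2 ^ k * 4 ^ k ≤ 2 ^ k * (B.index * (H.index * Nat.card ρ.ker ^ 2)) := by
    calc 2 ^ k * 4 ^ k = (4 * 2) ^ k := by rw [mul_pow, mul_comm]
      _ ≤ H.index * (B.index * (2 ^ k * Nat.card ρ.ker ^ 2)) := by rw [← h2]; gcongr
      _ = _ := by ring
  have h4 := Nat.le_of_mul_le_mul_left h3 (by positivity)
  calc 16 ^ k = (4 ^ k) ^ 2 := by rw [← pow_mul, mul_comm, pow_mul]; norm_num
    _ ≤ (B.index * (H.index * Nat.card ρ.ker ^ 2)) ^ 2 := by gcongr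
    _ ≤ _ := by rw [mul_pow]; gcongr

end Pool.Agent.P.MP_d483fb_an.U
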