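import Pool.Agent.P.MP_d483fb_an.Main
import Pool.Agent.P.MP_d483fb_an.U.QRepB

set_option autoImplicit false

namespace Pool.Agent.P.MP_d483fb_an.U

open scoped Manifold ContDiff

variable {m : ℕ} {M : Type} [TopologicalSpace M] [T2Space M] [CompactSpace M] [ConnectedSpace M]
  [ChartedSpace (EuclideanSpace ℝ (Fin m)) M] [IsManifold (𝓡 m) ∞ M]

/-- Actions of powers of the cyclic group of order four or of the quaternion group. -/
theorem quat_le {t k : ℕ} (ht : t ∣ 2) (β : (Fin k → QuaternionGroup t) →* Equiv.Perm M)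
    (hβ : ∀ g, ContMDiff (𝓡 m) (𝓡 m) ∞ (β g)) (hχ : eulerChar M ≠ 0) :
    4 ^ (t * k) ≤ 2 ^ m * (2 ^ padicValInt 2 (eulerChar M) * Nat.card β.ker ^ t) ^ t := by
  rcases (Nat.dvd_prime Nat.prime_two).1 ht with rfl | rfl
  · have q1 : ∀ a b : QuaternionGroup 1, a * b = b * a := by decide
    have q2 : ∀ a : QuaternionGroup 1, a ^ 2 ^ 2 = 1 := by decide
    let _ : CommGroup (Fin k → QuaternionGroup 1) :=
      { (inferInstance : Group (Fin k → QuaternionGroup 1)) with
        mul_comm := fun a b => funext fun j => q1 (a j) (b j) }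
    have h := card_sq_le Nat.prime_two (s := 2) (by norm_num) (A := Fin k → QuaternionGroup 1)
      (fun a => funext fun j => q2 (a j)) β hβ hχ
    rw [Nat.card_fun, Nat.card_eq_fintype_card (α := QuaternionGroup 1), QuaternionGroup.card,
      Nat.card_eq_fintype_card (α := Fin k), Fintype.card_fin, ← pow_mul 2 2 m, mul_comm 2 m,
      pow_mul, ← mul_pow] at h
    simpa using (Nat.pow_le_pow_iff_left two_ne_zero).1 h
  · have q2 : ∀ a : QuaternionGroup 2, a ^ 2 ^ 2 = 1 := by decide
    obtain ⟨H, hH, ρ, hρ⟩ := exists_rep Nat.prime_two (P := Fin k → QuaternionGroup 2)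
      (fun a => ⟨2, funext fun j => q2 (a j)⟩) β hβ hχ
    have h1 := quat_bound H ρ
    have h2 : H.index ≤ 2 ^ padicValInt 2 (eulerChar M) := Nat.le_of_dvd (by positivity) hH
    have h3 : Nat.card ρ.ker ≤ Nat.card β.ker := by
      refine Nat.card_le_card_of_injective (fun g : ρ.ker => (⟨g.1.1, hρ g.1 g.2⟩ : β.ker)) ?_
      intro a b h
      have h' := congrArg Subtype.val h
      exact Subtype.ext (Subtype.ext h')
    rw [pow_mul]
    exact h1.trans (by gcongr)

end Pool.Agent.P.MP_d483fb_an.U
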