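import Mathlib

set_option autoImplicit false

namespace Pool.Agent.P.MP_d483fb_an.U

section QRepA

variable {G : Type} [Group G] {V : Type} [AddCommGroup V] [Module ℝ V]

/-- The elements sending `v` to `v` or `-v`. -/
def QRepA_stab (π : G →* Module.End ℝ V) (v : V) : Subgroup G where
  carrier := {g | π g v = v ∨ π g v = -v}
  one_mem' := by left; simp
  mul_mem' := by
    intro a b ha hb
    simp only [Set.mem_ofPred_eq, map_mul, Module.End.mul_apply] at *
    rcases ha with ha | ha <;> rcases hb with hb | hb <;> simp [ha, hb]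
  inv_mem' := by
    intro a ha
    simp only [Set.mem_ofPred_eq] at *
    have h : π a⁻¹ (π a v) = v := by
      rw [← Module.End.mul_apply, ← map_mul]; simp
    rcases ha with ha | ha
    · left; rwa [ha] at h
    · right; rw [ha, map_neg] at h; rw [← neg_eq_iff_eq_neg]; exact h

theorem QRepA_mem {π : G →* Module.End ℝ V} {v : V} {g : G} :
    g ∈ QRepA_stab π v ↔ (π g v = v ∨ π g v = -v) := Iff.rfl

theorem QRepA_mul (π : G →* Module.End ℝ V) (a b : G) (x : V) :
    π (a * b) x = π a (π b x) := by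
  rw [map_mul, Module.End.mul_apply]

theorem QRepA_two_mul_le (j : ℕ) : 2 * j ≤ 2 ^ j := by
  induction j with
  | zero => simp
  | succ n ih =>
    have : 1 ≤ 2 ^ n := Nat.one_le_two_pow
    rcases Nat.eq_zero_or_pos n with h | h
    · subst h; simp
    · have h2 : 2 ≤ 2 ^ n := by
        calc 2 = 2 ^ 1 := by norm_num
          _ ≤ 2 ^ n := Nat.pow_le_pow_right (by norm_num) h
      rw [pow_succ]; omega

/-- One step: a vector with a maximal sign stabiliser has orthogonal translates. -/
theorem QRepA_step [Finite G] (h2 : ∀ g x : G, g * g * x = x * (g * g))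
    (h4 : ∀ g : G, g * g * (g * g) = 1) (π : G →* Module.End ℝ V)
    (β : LinearMap.BilinForm ℝ V) (hs : ∀ x y, β x y = β y x)
    (hi : ∀ g x y, β (π g x) (π g y) = β x y)
    (U : Submodule ℝ V) (hU : ∀ g, ∀ x ∈ U, π g x ∈ U) (hne : U ≠ ⊥) :
    ∃ v ∈ U, v ≠ 0 ∧ ∀ g, g ∉ QRepA_stab π v → β (π g v) v = 0 := by
  classical
  have hS : {x : V | x ∈ U ∧ x ≠ 0}.Nonempty := by
    obtain ⟨x, hx, hx0⟩ := (Submodule.ne_bot_iff U).1 hne
    exact ⟨x, hx, hx0⟩
  obtain ⟨v, ⟨hvU, hv0⟩, hmax⟩ : ∃ v ∈ {x : V | x ∈ U ∧ x ≠ 0},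
      ∀ w ∈ {x : V | x ∈ U ∧ x ≠ 0}, Nat.card (QRepA_stab π w) ≤ Nat.card (QRepA_stab π v) := by
    have hb : ∀ w : V, Nat.card (QRepA_stab π w) ≤ Nat.card G := fun w =>
      Nat.card_le_card_of_injective _ Subtype.val_injective
    by_contra hcon
    push Not at hcon
    have key : ∀ n : ℕ, ∃ w ∈ {x : V | x ∈ U ∧ x ≠ 0}, n ≤ Nat.card (QRepA_stab π w) := by
      intro n
      induction n with
      | zero => obtain ⟨x, hx⟩ := hS; exact ⟨x, hx, Nat.zero_le _⟩
      | succ n ih =>
        obtain ⟨w, hw, hn⟩ := ih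
        obtain ⟨w', hw', hlt⟩ := hcon w hw
        exact ⟨w', hw', by omega⟩
    obtain ⟨w, -, hw⟩ := key (Nat.card G + 1)
    have := hb w
    omega
  -- enlargement principle
  have grow : ∀ g, g ∉ QRepA_stab π v → π (g * g) v = v →
      (∀ b ∈ QRepA_stab π v, (π b v = v → π b (π g v) = π g v) ∧
        (π b v = -v → π b (π g v) = -π g v)) → False := by
    intro g hg hgg hb
    set w := v + π g v with hw
    have hw0 : w ≠ 0 := by
      intro h0
      apply hg
      right
      rw [hw] at h0
      exact eq_neg_of_add_eq_zero_right h0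
    have hwU : w ∈ U := U.add_mem hvU (hU g v hvU)
    have hle : QRepA_stab π v ≤ QRepA_stab π w := by
      intro b hbm
      rcases QRepA_mem.1 hbm with h | h
      · left; rw [hw, map_add, h, (hb b hbm).1 h]
      · right; rw [hw, map_add, h, (hb b hbm).2 h]; abel
    have hgw : g ∈ QRepA_stab π w := by
      left; rw [hw, map_add, ← QRepA_mul, hgg, add_comm]
    have hlt : QRepA_stab π v < QRepA_stab π w :=
      lt_of_le_of_ne hle (fun h => hg (h ▸ hgw))
    have h1 := hmax w ⟨hwU, hw0⟩
    have h3 : QRepA_stab π v = QRepA_stab π w :=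
      Subgroup.eq_of_le_of_card_ge hle h1
    exact hlt.ne h3
  have hsq : ∀ g, g * g ∈ QRepA_stab π v := by
    intro g
    by_contra hg
    refine grow (g * g) hg (by rw [h4]; simp) ?_
    intro b _
    constructor
    · intro h; rw [← QRepA_mul, ← h2, QRepA_mul, h]
    · intro h; rw [← QRepA_mul, ← h2, QRepA_mul, h, map_neg]
  refine ⟨v, hvU, hv0, ?_⟩
  intro g hg
  by_cases hA : ∃ b ∈ QRepA_stab π v, π (b * g * (b * g)) v = -v
  · obtain ⟨b, hb, hbg⟩ := hA
    have h1 : β (π (b * g) v) v = 0 := by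
      have e1 := hi (b * g) (π (b * g) v) v
      rw [← QRepA_mul, hbg, map_neg, LinearMap.neg_apply, hs v] at e1
      linarith
    have h3 : β (π g v) (π b⁻¹ v) = 0 := by
      rw [← hi b, ← QRepA_mul, ← QRepA_mul, mul_inv_cancel, map_one, Module.End.one_apply, h1]
    rcases QRepA_mem.1 ((QRepA_stab π v).inv_mem hb) with h | h
    · rwa [h] at h3
    · rw [h, map_neg] at h3; linarith
  · exfalso
    have hB : ∀ b ∈ QRepA_stab π v, π (b * g * (b * g)) v = v := by
      intro b hb
      rcases QRepA_mem.1 (hsq (b * g)) with h | h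
      · exact h
      · exact absurd ⟨b, hb, h⟩ hA
    have hgg : π (g * g) v = v := by simpa using hB 1 (QRepA_stab π v).one_mem
    refine grow g hg hgg ?_
    intro b hb
    have e : g * (b * (g * b)) = b * g * (b * g) := by
      have := h2 (b * g) g⁻¹
      calc g * (b * (g * b)) = g * (b * g * (b * g) * g⁻¹) := by group
        _ = b * g * (b * g) := by rw [this]; group
    have e2 : π g (π b (π g (π b v))) = v := by
      rw [← QRepA_mul, ← QRepA_mul, ← QRepA_mul, mul_assoc, mul_assoc, e]; exact hB b hb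
    have e3 : ∀ x, π g x = v → x = π g v := by
      intro x hx
      have : π g⁻¹ (π g x) = π g⁻¹ (π (g * g) v) := by rw [hx, hgg]
      rw [← QRepA_mul, ← QRepA_mul] at this
      simpa using this
    constructor
    · intro h
      rw [h] at e2
      exact e3 _ e2
    · intro h
      rw [h, map_neg, map_neg] at e2
      exact neg_eq_iff_eq_neg.1 (e3 _ e2)

theorem QRepA_main [Finite G] [FiniteDimensional ℝ V] (h2 : ∀ g x : G, g * g * x = x * (g * g))
    (h4 : ∀ g : G, g * g * (g * g) = 1) (π : G →* Module.End ℝ V)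
    (β : LinearMap.BilinForm ℝ V) (hs : ∀ x y, β x y = β y x) (hp : ∀ x, β x x = 0 → x = 0)
    (hi : ∀ g x y, β (π g x) (π g y) = β x y) (n : ℕ) :
    ∀ U : Submodule ℝ V, Module.finrank ℝ U = n → (∀ g, ∀ x ∈ U, π g x ∈ U) →
      ∃ B : Subgroup G, B.index ^ 2 ≤ 2 ^ n ∧ ∀ b ∈ B, ∀ x ∈ U, π (b * b) x = x := by
  classical
  induction n using Nat.strong_induction_on with
  | _ n ih =>
  intro U hn hU
  by_cases hne : U = ⊥
  · refine ⟨⊤, by simpa using Nat.one_le_two_pow, ?_⟩
    intro b _ x hx
    rw [hne, Submodule.mem_bot] at hx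
    simp [hx]
  obtain ⟨v, hvU, hv0, horth⟩ := QRepA_step h2 h4 π β hs hi U hU hne
  set S := QRepA_stab π v with hS
  set W : Submodule ℝ V := Submodule.span ℝ (Set.range fun g => π g v) with hW
  have hWU : W ≤ U := by
    rw [hW, Submodule.span_le]
    rintro _ ⟨g, rfl⟩
    exact hU g v hvU
  have hWinv : ∀ g, ∀ x ∈ W, π g x ∈ W := by
    intro g x hx
    have : W.map (π g) ≤ W := by
      rw [hW, Submodule.map_span_le]
      rintro _ ⟨a, rfl⟩
      apply Submodule.subset_span
      exact ⟨g * a, QRepA_mul π g a v⟩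
    exact this ⟨x, hx, rfl⟩
  have hrefl : β.IsRefl := fun x y h => by rw [hs]; exact h
  have hdisj : Disjoint W (β.orthogonal W) := by
    rw [Submodule.disjoint_def]
    intro x hx hx'
    exact hp x (LinearMap.BilinForm.mem_orthogonal_iff.1 hx' x hx)
  have hcompl : IsCompl W (β.orthogonal W) :=
    LinearMap.BilinForm.isCompl_orthogonal_of_restrict_nondegenerate hrefl
      (LinearMap.BilinForm.nondegenerate_restrict_of_disjoint_orthogonal β hrefl hdisj)
  set U' : Submodule ℝ V := U ⊓ β.orthogonal W with hU'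
  have hU'inv : ∀ g, ∀ x ∈ U', π g x ∈ U' := by
    intro g x hx
    refine ⟨hU g x hx.1, ?_⟩
    apply LinearMap.BilinForm.mem_orthogonal_iff.2
    intro y hy
    have h1 : y = π g (π g⁻¹ y) := by rw [← QRepA_mul]; simp
    rw [h1, hi]
    exact LinearMap.BilinForm.mem_orthogonal_iff.1 hx.2 _ (hWinv _ _ hy)
  have hdim : Module.finrank ℝ W + Module.finrank ℝ U' ≤ n := by
    have h1 := Submodule.finrank_sup_add_finrank_inf_eq W U'
    have h3 : W ⊓ U' = ⊥ := by
      rw [eq_bot_iff]
      intro x hx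
      exact (Submodule.disjoint_def.1 hdisj) x hx.1 hx.2.2
    rw [h3, finrank_bot] at h1
    have h5 : Module.finrank ℝ (W ⊔ U' : Submodule ℝ V) ≤ Module.finrank ℝ U :=
      Submodule.finrank_mono (sup_le hWU inf_le_left)
    omega
  -- the index of S is at most the dimension of W
  have hidx : S.index ≤ Module.finrank ℝ W := by
    have : Fintype (G ⧸ S) := Fintype.ofFinite _
    let f : G ⧸ S → V := fun q => π q.out v
    have hli : LinearIndependent ℝ f := by
      apply LinearMap.BilinForm.linearIndependent_of_iIsOrtho (B := β)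
      · rw [LinearMap.BilinForm.iIsOrtho_def]
        intro q q' hq
        have h1 : (q'.out)⁻¹ * q.out ∉ S := by
          intro hm
          apply hq
          rw [← QuotientGroup.out_eq' q, ← QuotientGroup.out_eq' q']
          exact (QuotientGroup.eq.2 hm).symm
        have h3 := horth _ h1
        rw [← hi q'.out, ← QRepA_mul, mul_inv_cancel_left] at h3
        exact h3
      · intro q h0
        have h3 : β v v = 0 := by rw [← hi q.out]; exact h0
        exact hv0 (hp v h3)
    let f' : G ⧸ S → W := fun q => ⟨f q, Submodule.subset_span ⟨q.out, rfl⟩⟩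
    have hli' : LinearIndependent ℝ f' := LinearIndependent.of_comp W.subtype hli
    have := hli'.fintype_card_le_finrank
    rw [Subgroup.index, Nat.card_eq_fintype_card]
    exact this
  have hpg : IsPGroup 2 G := by
    intro g
    refine ⟨2, ?_⟩
    have := h4 g
    calc g ^ 2 ^ 2 = g * g * (g * g) := by norm_num [pow_succ, mul_assoc]
      _ = 1 := this
  have : Fact (Nat.Prime 2) := ⟨Nat.prime_two⟩
  obtain ⟨j, hj⟩ := hpg.index S
  have hSidx : S.index ^ 2 ≤ 2 ^ Module.finrank ℝ W := by
    rw [hj, ← pow_mul]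
    apply Nat.pow_le_pow_right (by norm_num)
    have := QRepA_two_mul_le j
    omega
  have hWpos : 0 < Module.finrank ℝ W := by
    have : 0 < 2 ^ j := by positivity
    omega
  obtain ⟨B', hB'i, hB'⟩ := ih (Module.finrank ℝ U') (by omega) U' rfl hU'inv
  refine ⟨S ⊓ B', ?_, ?_⟩
  · calc (S ⊓ B').index ^ 2 ≤ (S.index * B'.index) ^ 2 :=
          Nat.pow_le_pow_left Subgroup.index_inf_le 2
      _ = S.index ^ 2 * B'.index ^ 2 := by ring
      _ ≤ 2 ^ Module.finrank ℝ W * 2 ^ Module.finrank ℝ U' := Nat.mul_le_mul hSidx hB'i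
      _ = 2 ^ (Module.finrank ℝ W + Module.finrank ℝ U') := by rw [pow_add]
      _ ≤ 2 ^ n := Nat.pow_le_pow_right (by norm_num) hdim
  · intro b hb x hx
    have hbv : π (b * b) v = v := by
      rw [QRepA_mul]
      rcases QRepA_mem.1 hb.1 with h | h
      · rw [h, h]
      · rw [h, map_neg, h, neg_neg]
    have hfixW : ∀ y ∈ W, π (b * b) y = y := by
      intro y hy
      have : W ≤ LinearMap.eqLocus (π (b * b)) LinearMap.id := by
        rw [hW, Submodule.span_le]
        rintro _ ⟨a, rfl⟩
        show π (b * b) (π a v) = π a v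
        rw [← QRepA_mul, h2, QRepA_mul, hbv]
      exact this hy
    have hx' : x ∈ W ⊔ β.orthogonal W := by rw [hcompl.sup_eq_top]; trivial
    obtain ⟨y, hy, z, hz, rfl⟩ := Submodule.mem_sup.1 hx'
    have hzU : z ∈ U := by
      have := U.sub_mem hx (hWU hy)
      simpa using this
    rw [map_add, hfixW y hy, hB' b hb.2 z ⟨hzU, hz⟩]

end QRepA

/-- In a finite group whose squares are central involutions, a real representation of dimension `m`
kills all squares of a subgroup of index at most `2 ^ (m / 2)`. -/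
theorem exists_sq_ker {G : Type} [Group G] [Finite G] (h2 : ∀ g x : G, g * g * x = x * (g * g))
    (h4 : ∀ g : G, g * g * (g * g) = 1) {m : ℕ} (ρ : G →* Matrix (Fin m) (Fin m) ℝ) :
    ∃ B : Subgroup G, B.index ^ 2 ≤ 2 ^ m ∧ ∀ b ∈ B, ρ (b * b) = 1 := by
  classical
  have : Fintype G := Fintype.ofFinite G
  let π : G →* Module.End ℝ (Fin m → ℝ) :=
    (Matrix.toLinAlgEquiv' : Matrix (Fin m) (Fin m) ℝ ≃ₐ[ℝ] _).toMonoidHom.comp ρ
  have hπ : ∀ g x, π g x = (ρ g).mulVec x := fun g x => rfl
  let β : LinearMap.BilinForm ℝ (Fin m → ℝ) :=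
    LinearMap.mk₂ ℝ (fun x y => ∑ g : G, π g x ⬝ᵥ π g y)
      (by intro x x' y; simp [add_dotProduct, Finset.sum_add_distrib])
      (by intro c x y; simp [smul_dotProduct, Finset.mul_sum])
      (by intro x y y'; simp [dotProduct_add, Finset.sum_add_distrib])
      (by intro c x y; simp [dotProduct_smul, Finset.mul_sum])
  have hβ : ∀ x y, β x y = ∑ g : G, π g x ⬝ᵥ π g y := fun x y => rfl
  have hs : ∀ x y, β x y = β y x := by
    intro x y; rw [hβ, hβ]
    exact Finset.sum_congr rfl fun g _ => dotProduct_comm _ _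
  have hp : ∀ x, β x x = 0 → x = 0 := by
    intro x hx
    rw [hβ] at hx
    have hnn : ∀ g ∈ (Finset.univ : Finset G), 0 ≤ π g x ⬝ᵥ π g x :=
      fun g _ => Finset.sum_nonneg fun i _ => mul_self_nonneg _
    have := (Finset.sum_eq_zero_iff_of_nonneg hnn).1 hx 1 (Finset.mem_univ _)
    rw [map_one, Module.End.one_apply] at this
    exact dotProduct_self_eq_zero.1 this
  have hi : ∀ g x y, β (π g x) (π g y) = β x y := by
    intro g x y
    rw [hβ, hβ]
    simp_rw [← QRepA_mul]
    exact Fintype.sum_equiv (Equiv.mulRight g) _ _ (fun a => rfl)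
  obtain ⟨B, hB, hB'⟩ := QRepA_main h2 h4 π β hs hp hi m ⊤ (by simp) (fun _ _ _ => trivial)
  refine ⟨B, hB, fun b hb => ?_⟩
  apply Matrix.toLin'.injective
  apply LinearMap.ext
  intro x
  have := hB' b hb x trivial
  rw [hπ] at this
  simpa using this

end Pool.Agent.P.MP_d483fb_an.U
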