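import Pool.Agent.P.MP_d483fb_an.U.Arith

set_option autoImplicit false
set_option linter.unusedSectionVars false

namespace Pool.Agent.P.MP_d483fb_an.U

variable {D V : Type} [DivisionRing D] [StarRing D] [CharZero D] [AddCommGroup V] [Module D V]
  {ε : D} {h : Form D V} {O : Subring D} {N : D → ℚ} {Λ : AddSubgroup V} {e₁ f₁ e₂ f₂ : V}

theorem smith_apply (H : Herm ε h) {z u : V} (hz : h z z = 0) (huz : h u z = 0) (hu : h u u = 0)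
    (t : D) (x : V) :
    eich ε h z (t • u) 0 x = x + (h x z * t) • u - (h x u * star t * ε) • z := by
  rw [iso_apply H hz (by rw [h.smul_left, huz, mul_zero])
    (by rw [h.smul_left, H.smul_right, hu, zero_mul, mul_zero]), smul_smul, H.smul_right]

theorem H4_le_UL (hΛ : Lat ε h O Λ) (F : Frame h Λ e₁ f₁ e₂ f₂) :
    H4 ε h O e₁ f₁ e₂ f₂ ≤ UL h Λ := by
  refine (Subgroup.closure_le _).mpr ?_
  rintro g ⟨a, ha, rfl | rfl | rfl | rfl⟩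
  · exact eich_mem_UL hΛ F.me₁ (hΛ.smul_mem _ ha _ F.me₂) O.zero_mem
  · exact eich_mem_UL hΛ F.me₁ (hΛ.smul_mem _ ha _ F.mf₂) O.zero_mem
  · exact eich_mem_UL hΛ F.mf₁ (hΛ.smul_mem _ ha _ F.me₂) O.zero_mem
  · exact eich_mem_UL hΛ F.mf₁ (hΛ.smul_mem _ ha _ F.mf₂) O.zero_mem

theorem H4_fix (H : Herm ε h) {g : V ≃ₗ[D] V} (hg : g ∈ H4 ε h O e₁ f₁ e₂ f₂) {x : V}
    (hx : Perp h e₁ f₁ e₂ f₂ x) : g x = x := by
  obtain ⟨h1, h2, h3, h4⟩ := hx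
  induction hg using Subgroup.closure_induction with
  | mem g hg =>
    obtain ⟨a, -, rfl | rfl | rfl | rfl⟩ := hg
    · exact eich_fix H h1 (by rw [H.smul_right, h3, zero_mul])
    · exact eich_fix H h1 (by rw [H.smul_right, h4, zero_mul])
    · exact eich_fix H h2 (by rw [H.smul_right, h3, zero_mul])
    · exact eich_fix H h2 (by rw [H.smul_right, h4, zero_mul])
  | one => rfl
  | mul g g' _ _ a b => rw [mul_apply', b, a]
  | inv g _ a =>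
    conv_lhs => rw [← a]
    exact inv_apply_apply' g x

/-- Every lattice vector can be made orthogonal to the second pair. -/
theorem smith (A : Ar ε O N) (hΛ : Lat ε h O Λ) (F : Frame h Λ e₁ f₁ e₂ f₂) {v : V} (hv : v ∈ Λ) :
    ∃ g ∈ H4 ε h O e₁ f₁ e₂ f₂, h (g v) e₂ = 0 ∧ h (g v) f₂ = 0 := by
  have H := hΛ.toHerm
  have hε := H.eps_mem O
  have step : ∀ g ∈ H4 ε h O e₁ f₁ e₂ f₂, ∀ v : V,
      (∃ g' ∈ H4 ε h O e₁ f₁ e₂ f₂, h (g' (g v)) e₂ = 0 ∧ h (g' (g v)) f₂ = 0) →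
      ∃ g' ∈ H4 ε h O e₁ f₁ e₂ f₂, h (g' v) e₂ = 0 ∧ h (g' v) f₂ = 0 := by
    rintro g hg v ⟨g', h1, h2⟩
    exact ⟨g' * g, Subgroup.mul_mem _ h1 hg, h2⟩
  have mem : ∀ g ∈ H4 ε h O e₁ f₁ e₂ f₂, ∀ v ∈ Λ, g v ∈ Λ :=
    fun g hg v hv => ((H4_le_UL hΛ F hg).2 v).2 hv
  have m1 : ∀ q ∈ O, ∀ v : V, ∃ g ∈ H4 ε h O e₁ f₁ e₂ f₂, h (g v) f₁ = h v f₁ - h v e₂ * q := by
    intro q hq v
    refine ⟨_, Subgroup.subset_closure ⟨ε * star q, O.mul_mem hε (hΛ.star_mem q hq),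
      Or.inl rfl⟩, ?_⟩
    rw [smith_apply H F.e₁e₁ (H.perp F.e₁e₂) F.e₂e₂]
    simp only [h.add_left, h.sub_left, h.smul_left, F.e₁f₁, H.perp F.f₁e₂, star_mul, star_star,
      H.star_eps]
    rcases H.eps with rfl | rfl <;> noncomm_ring
  have m2 : ∀ q ∈ O, ∀ v : V, ∃ g ∈ H4 ε h O e₁ f₁ e₂ f₂, h (g v) f₁ = h v f₁ - h v f₂ * q := by
    intro q hq v
    refine ⟨_, Subgroup.subset_closure ⟨ε * star q, O.mul_mem hε (hΛ.star_mem q hq),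
      Or.inr (Or.inl rfl)⟩, ?_⟩
    rw [smith_apply H F.e₁e₁ (H.perp F.e₁f₂) F.f₂f₂]
    simp only [h.add_left, h.sub_left, h.smul_left, F.e₁f₁, H.perp F.f₁f₂, star_mul, star_star,
      H.star_eps]
    rcases H.eps with rfl | rfl <;> noncomm_ring
  have m3 : ∀ q ∈ O, ∀ v : V, ∃ g ∈ H4 ε h O e₁ f₁ e₂ f₂, h (g v) f₁ = h v f₁ ∧
      h (g v) f₂ = h v f₂ - h v f₁ * q ∧ h (g v) e₂ = h v e₂ := by
    intro q hq v
    refine ⟨_, Subgroup.subset_closure ⟨-q, O.neg_mem hq, Or.inr (Or.inr (Or.inl rfl))⟩, ?_⟩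
    rw [smith_apply H F.f₁f₁ (H.perp F.f₁e₂) F.e₂e₂]
    simp only [h.add_left, h.sub_left, h.smul_left, F.f₁f₁, F.e₂f₂, F.f₁f₂, F.f₁e₂, F.e₂e₂,
      H.perp F.f₁e₂]
    refine ⟨?_, ?_, ?_⟩ <;> noncomm_ring
  have m4 : ∀ q ∈ O, ∀ v : V, ∃ g ∈ H4 ε h O e₁ f₁ e₂ f₂, h (g v) f₁ = h v f₁ ∧
      h (g v) f₂ = h v f₂ ∧ h (g v) e₂ = h v e₂ - h v f₁ * q := by
    intro q hq v
    refine ⟨_, Subgroup.subset_closure ⟨-(q * ε), O.neg_mem (O.mul_mem hq hε),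
      Or.inr (Or.inr (Or.inr rfl))⟩, ?_⟩
    rw [smith_apply H F.f₁f₁ (H.perp F.f₁f₂) F.f₂f₂]
    simp only [h.add_left, h.sub_left, h.smul_left, F.f₁f₁, F.f₂f₂, F.f₁f₂, F.f₁e₂,
      H.perp F.f₁f₂, H.dual_one F.e₂f₂]
    rcases H.eps with rfl | rfl <;> refine ⟨?_, ?_, ?_⟩ <;> noncomm_ring
  have red : ∀ v ∈ Λ, (h v e₂ = 0 ∧ h v f₂ = 0) ∨ ∃ g ∈ H4 ε h O e₁ f₁ e₂ f₂, h (g v) f₁ ≠ 0 ∧
      (N (h (g v) f₁) ≤ N (h v e₂) ∨ N (h (g v) f₁) ≤ N (h v f₂)) := by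
    intro v _
    by_cases hc : h v f₂ = 0
    · by_cases hd : h v e₂ = 0
      · exact Or.inl ⟨hd, hc⟩
      · obtain ⟨q, hq, h1, h2⟩ := A.div' (h v f₁) hd
        obtain ⟨g, hg, e⟩ := m1 q hq v
        exact Or.inr ⟨g, hg, by rwa [e], Or.inl (by rwa [e])⟩
    · obtain ⟨q, hq, h1, h2⟩ := A.div' (h v f₁) hc
      obtain ⟨g, hg, e⟩ := m2 q hq v
      exact Or.inr ⟨g, hg, by rwa [e], Or.inr (by rwa [e])⟩
  have key : ∀ a ∈ O, a ≠ 0 → ∀ v ∈ Λ, h v f₁ = a →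
      ∃ g ∈ H4 ε h O e₁ f₁ e₂ f₂, h (g v) e₂ = 0 ∧ h (g v) f₂ = 0 := by
    refine A.induction fun a _ ih ha v hv e => ?_
    obtain ⟨q, hq, h1⟩ := A.div (h v f₂) ha
    obtain ⟨g, hg, a1, a2, a3⟩ := m3 q hq v
    obtain ⟨q', hq', h2⟩ := A.div (h v e₂) ha
    obtain ⟨g', hg', b1, b2, b3⟩ := m4 q' hq' (g v)
    refine step g hg v (step g' hg' (g v) ?_)
    have hv' := mem g' hg' _ (mem g hg v hv)
    rcases red _ hv' with h0 | ⟨g'', hg'', c1, c2⟩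
    · exact ⟨1, Subgroup.one_mem _, h0⟩
    · have hv'' := mem g'' hg'' _ hv'
      refine step g'' hg'' _ (ih _ (hΛ.int _ hv'' _ F.mf₁) ?_ c1 _ hv'' rfl)
      rw [b3, b2, a1, a2, a3, e] at c2
      rcases c2 with c2 | c2
      · exact c2.trans_lt h2
      · exact c2.trans_lt h1
  rcases red v hv with h0 | ⟨g, hg, c1, -⟩
  · exact ⟨1, Subgroup.one_mem _, h0⟩
  · have hv' := mem g hg v hv
    exact step g hg v (key _ (hΛ.int _ hv' _ F.mf₁) c1 _ hv' rfl)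

theorem Lvl.conj (hΛ : Lat ε h O Λ) {m : ℕ} {K : Subgroup (V ≃ₗ[D] V)} (hK : Nrm (UL h Λ) K)
    {z : V} (hz : Lvl ε h O Λ m K z) {g : V ≃ₗ[D] V} (hg : g ∈ UL h Λ) :
    Lvl ε h O Λ m K (g z) := by
  intro u hu μ hμ hv
  have hg' := (UL h Λ).inv_mem hg
  have h1 := hv.conj hg'.1
  rw [inv_apply_apply', map_smul] at h1
  have h2 := hK g hg _ (hz (g⁻¹ u) ((hg'.2 u).2 hu) μ hμ h1)
  rwa [eich_conj hΛ.toHerm hg.1 h1, map_smul, apply_inv_apply'] at h2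

theorem Lvl.smul (hΛ : Lat ε h O Λ) {m : ℕ} (hm : 0 < m) {K : Subgroup (V ≃ₗ[D] V)} {z : V}
    (hz : Lvl ε h O Λ m K z) {c : D} (hc : c ∈ O) : Lvl ε h O Λ m K (c • z) := by
  have H := hΛ.toHerm
  have _ := hm
  intro u hu μ hμ hv
  by_cases hc0 : c = 0
  · rw [hc0, zero_smul, eich_zero_left]
    exact K.one_mem
  · have hs : star c ≠ 0 := star_ne_zero.2 hc0
    have h1 : h z z = 0 := by
      have := hv.zz
      rw [h.smul_left, H.smul_right] at this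
      exact (mul_eq_zero.1 ((mul_eq_zero.1 this).resolve_left hc0)).resolve_right hs
    have h2 : h ((m : D) • u) z = 0 := by
      have := hv.uz
      rw [H.smul_right] at this
      exact (mul_eq_zero.1 this).resolve_right hs
    have h3 := hv.smul_left H c h1 h2
    rw [eich_smul_left H c h1 h2 hv]
    have e1 : star c • (m : D) • u = (m : D) • star c • u := by
      rw [smul_smul, smul_smul, (Nat.cast_commute m (star c)).eq]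
    have e2 : star c * ((m : D) * μ) * c = (m : D) * (star c * μ * c) := by
      rw [← mul_assoc, ← (Nat.cast_commute m (star c)).eq]
      simp only [mul_assoc]
    rw [e1, e2] at h3 ⊢
    exact hz _ (hΛ.smul_mem _ (hΛ.star_mem c hc) u hu) _
      (O.mul_mem (O.mul_mem (hΛ.star_mem c hc) hμ) hc) h3

theorem lvl_plane (A : Ar ε O N) (hΛ : Lat ε h O Λ) (F : Frame h Λ e₁ f₁ e₂ f₂) {m : ℕ}
    (hm : 0 < m) {K : Subgroup (V ≃ₗ[D] V)} (hK : Nrm (UL h Λ) K) (h₁ : Lvl ε h O Λ m K e₁)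
    {a b : D} (ha : a ∈ O) (hb : b ∈ O) : Lvl ε h O Λ m K (a • e₁ + b • e₂) := by
  have H := hΛ.toHerm
  have hε := H.eps_mem O
  have m1 : ∀ a b : D, ∀ q ∈ O, Lvl ε h O Λ m K ((a - b * q) • e₁ + b • e₂) →
      Lvl ε h O Λ m K (a • e₁ + b • e₂) := by
    intro a b q hq hl
    have h1 := hl.conj hΛ hK (eich_mem_UL hΛ F.me₁ (hΛ.smul_mem (-(ε * star q))
      (O.neg_mem (O.mul_mem hε (hΛ.star_mem q hq))) _ F.mf₂) O.zero_mem)
    rw [smith_apply H F.e₁e₁ (H.perp F.e₁f₂) F.f₂f₂] at h1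
    convert h1 using 1
    simp only [h.add_left, h.smul_left, F.e₁e₁, H.perp F.e₁e₂, F.e₁f₂, F.e₂f₂, star_neg, star_mul,
      star_star, H.star_eps]
    rcases H.eps with rfl | rfl <;> match_scalars <;> noncomm_ring
  have m2 : ∀ a b : D, ∀ q ∈ O, Lvl ε h O Λ m K (a • e₁ + (b - a * q) • e₂) →
      Lvl ε h O Λ m K (a • e₁ + b • e₂) := by
    intro a b q hq hl
    have h1 := hl.conj hΛ hK (eich_mem_UL hΛ F.mf₁ (hΛ.smul_mem q hq _ F.me₂) O.zero_mem)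
    rw [smith_apply H F.f₁f₁ (H.perp F.f₁e₂) F.e₂e₂] at h1
    convert h1 using 1
    simp only [h.add_left, h.smul_left, F.e₁f₁, H.perp F.f₁e₂, F.e₁e₂, F.e₂e₂]
    match_scalars <;> noncomm_ring
  have key : ∀ b ∈ O, ∀ a ∈ O, Lvl ε h O Λ m K (a • e₁ + b • e₂) := by
    refine A.induction fun b hb ih a ha => ?_
    by_cases hb0 : b = 0
    · rw [hb0, zero_smul, add_zero]
      exact h₁.smul hΛ hm ha
    · obtain ⟨q, hq, h1, h2⟩ := A.div' a hb0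
      obtain ⟨q', hq', h3⟩ := A.div b h1
      have ha' := O.sub_mem ha (O.mul_mem hb hq)
      exact m1 a b q hq (m2 _ b q' hq'
        (ih _ (O.sub_mem hb (O.mul_mem ha' hq')) (h3.trans_le h2) _ ha'))
  exact key b hb a ha

theorem lvl_frame (A : Ar ε O N) (hΛ : Lat ε h O Λ) (F : Frame h Λ e₁ f₁ e₂ f₂) {m : ℕ}
    (hm : 0 < m) {K : Subgroup (V ≃ₗ[D] V)} (hK : Nrm (UL h Λ) K) (h₁ : Lvl ε h O Λ m K e₁) :
    Lvl ε h O Λ m K f₁ ∧ Lvl ε h O Λ m K e₂ ∧ Lvl ε h O Λ m K f₂ := by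
  have h2 := lvl_plane A hΛ F hm hK h₁ O.zero_mem O.one_mem
  have h3 := lvl_plane A hΛ (F.swap₂ hΛ) hm hK h₁ O.zero_mem O.one_mem
  rw [zero_smul, one_smul, zero_add] at h2 h3
  have h4 := lvl_plane A hΛ ((F.symm hΛ.toHerm).swap₂ hΛ) hm hK h2 O.zero_mem O.one_mem
  rw [zero_smul, one_smul, zero_add] at h4
  exact ⟨h4, h2, h3⟩

end Pool.Agent.P.MP_d483fb_an.U
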